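import Mathlib

set_option autoImplicit false

/-!
# Weights, Young functions, Luxemburg norms and Calderon-Zygmund operators
-/

namespace Pool.Agent.H572Z.Sp

open MeasureTheory Set Filter Topology
open scoped ENNReal

/-- Euclidean space `ℝ^d`. -/
abbrev E (d : ℕ) := EuclideanSpace ℝ (Fin d)

/-- The cube with sides parallel to the axes, lowest corner `a` and side length `l`. -/
def cube {d : ℕ} (a : Fin d → ℝ) (l : ℝ) : Set (E d) := {x | ∀ i, a i ≤ x i ∧ x i < a i + l}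

/-- A weight: a measurable, nonnegative, locally integrable function. -/
def IsWeight {d : ℕ} (w : E d → ℝ) : Prop :=
  Measurable w ∧ (∀ x, 0 ≤ w x) ∧ LocallyIntegrable w volume

/-- A Young function: continuous, convex and nondecreasing on `[0, ∞)`, vanishing at `0`, with
`Φ(t) / t → ∞`. -/
def IsYoung (Φ : ℝ → ℝ) : Prop :=
  ContinuousOn Φ (Ici 0) ∧ ConvexOn ℝ (Ici 0) Φ ∧ MonotoneOn Φ (Ici 0) ∧ Φ 0 = 0 ∧
    Tendsto (fun t => Φ t / t) atTop atTop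

/-- The average of a nonnegative function `w` over `Q`. -/
noncomputable def avg {X : Type*} [MeasureSpace X] (w : X → ℝ) (Q : Set X) : ℝ≥0∞ :=
  (∫⁻ x in Q, ENNReal.ofReal (w x)) / volume Q

/-- The normalised Luxemburg norm `inf {l > 0 : |Q|⁻¹ ∫_Q Φ(|w| / l) ≤ 1}`. -/
noncomputable def lux {X : Type*} [MeasureSpace X] (Φ : ℝ → ℝ) (w : X → ℝ) (Q : Set X) : ℝ≥0∞ :=
  ⨅ (l : ℝ) (_ : 0 < l) (_ : (∫⁻ x in Q, ENNReal.ofReal (Φ (|w x| / l))) / volume Q ≤ 1),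
    ENNReal.ofReal l

/-- The one-sided bump constant `sup_Q ‖w‖_{L^Φ(Q)} ⟨σ⟩_Q`, the supremum over all cubes. -/
noncomputable def bump {d : ℕ} (Φ : ℝ → ℝ) (w σ : E d → ℝ) : ℝ≥0∞ :=
  ⨆ (a : Fin d → ℝ) (l : ℝ) (_ : 0 < l), lux Φ w (cube a l) * avg σ (cube a l)

/-- `f` is a square integrable complex function on `ℝ^d`. -/
def IsL2 {d : ℕ} (f : E d → ℂ) : Prop := MemLp f 2 volume

/-- `T` is a bounded linear operator on `L²(ℝ^d)`, given on functions: on square integrable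
functions it is additive and homogeneous almost everywhere, and bounded in the `L²` norm. -/
def IsBddOp {d : ℕ} (T : (E d → ℂ) → E d → ℂ) : Prop :=
  (∀ f g, IsL2 f → IsL2 g → ∀ᵐ x, T (f + g) x = T f x + T g x) ∧
  (∀ (c : ℂ) f, IsL2 f → ∀ᵐ x, T (fun y => c * f y) x = c * T f x) ∧
  ∃ B : NNReal, ∀ f, IsL2 f → IsL2 (T f) ∧ eLpNorm (T f) 2 volume ≤ B * eLpNorm f 2 volume

/-- The size and Hoelder conditions for a kernel. -/
def IsKernel {d : ℕ} (K : E d → E d → ℂ) : Prop :=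
  ∃ C α : ℝ, 0 < α ∧ α ≤ 1 ∧
    (∀ x y, x ≠ y → ‖K x y‖ ≤ C * ‖x - y‖ ^ (-(d : ℝ))) ∧
    ∀ x x' y, x ≠ y → ‖x - x'‖ ≤ ‖x - y‖ / 2 →
      ‖K x y - K x' y‖ + ‖K y x - K y x'‖ ≤ C * ‖x - x'‖ ^ α * ‖x - y‖ ^ (-(d : ℝ) - α)

/-- A Calderon-Zygmund operator: a bounded linear operator on `L²(ℝ^d)` with a kernel `K` that
satisfies the size and Hoelder conditions and represents `T f` off the support of every compactly
supported `f ∈ L²`. -/
def IsCZO {d : ℕ} (T : (E d → ℂ) → E d → ℂ) : Prop :=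
  IsBddOp T ∧ ∃ K : E d → E d → ℂ, IsKernel K ∧
    ∀ f, IsL2 f → HasCompactSupport f → ∀ᵐ x, x ∉ tsupport f → T f x = ∫ y, K x y * f y

/-- `h` is the image of `g ∈ L¹` under the extension of `T` to `L¹`: some functions `g_n ∈ L²`
tend to `g` in `L¹`, and `T g_n → h` almost everywhere. -/
def IsImage {d : ℕ} (T : (E d → ℂ) → E d → ℂ) (g h : E d → ℂ) : Prop :=
  ∃ gs : ℕ → E d → ℂ, (∀ n, IsL2 (gs n)) ∧ Tendsto (fun n => ∫⁻ x, ‖gs n x - g x‖ₑ) atTop (𝓝 0) ∧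
    ∀ᵐ x, Tendsto (fun n => T (gs n) x) atTop (𝓝 (h x))

/-- The squared norm `∫ |f|² w` of `f` in `L²(w)`. -/
noncomputable def sqNorm {d : ℕ} (w : E d → ℝ) (f : E d → ℂ) : ℝ≥0∞ :=
  ∫⁻ x, ‖f x‖ₑ ^ 2 * ENNReal.ofReal (w x)

end Pool.Agent.H572Z.Sp
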