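import Mathlib

set_option autoImplicit false

/-!
# Laminar families of sets
-/

namespace Pool.Agent.H572Z.Sp

open MeasureTheory Set
open scoped ENNReal Classical

variable {X : Type*}

/-- A family of sets any two of which are nested or disjoint. -/
def Lam (S : Set (Set X)) : Prop := ∀ P ∈ S, ∀ Q ∈ S, P ⊆ Q ∨ Q ⊆ P ∨ Disjoint P Q

lemma Lam.mono {S S' : Set (Set X)} (h : Lam S) (hs : S' ⊆ S) : Lam S' :=
  fun P hP Q hQ => h P (hs hP) Q (hs hQ)

lemma Lam.nested {S : Set (Set X)} (h : Lam S) {P Q : Set X} (hP : P ∈ S) (hQ : Q ∈ S) {x : X}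
    (hxP : x ∈ P) (hxQ : x ∈ Q) : P ⊆ Q ∨ Q ⊆ P := by
  rcases h P hP Q hQ with h | h | h
  · exact Or.inl h
  · exact Or.inr h
  · exact absurd hxQ (Set.disjoint_left.1 h hxP)

/-- The maximal members of a finite family. -/
noncomputable def mx (S : Finset (Set X)) : Finset (Set X) :=
  S.filter (fun P => ∀ Q ∈ S, P ⊆ Q → Q = P)

lemma mem_mx {S : Finset (Set X)} {P : Set X} :
    P ∈ mx S ↔ P ∈ S ∧ ∀ Q ∈ S, P ⊆ Q → Q = P := by simp [mx]

lemma mx_subset (S : Finset (Set X)) : mx S ⊆ S := Finset.filter_subset _ _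

lemma exists_mx {S : Finset (Set X)} {P : Set X} (hP : P ∈ S) : ∃ Q ∈ mx S, P ⊆ Q := by
  obtain ⟨Q, hPQ, hQ⟩ := S.exists_le_maximal hP
  exact ⟨Q, mem_mx.2 ⟨hQ.1, fun R hR hQR => Set.Subset.antisymm (hQ.2 hR hQR) hQR⟩, hPQ⟩

lemma mx_eq {S : Finset (Set X)} (h : Lam (S : Set (Set X))) {P Q : Set X} (hP : P ∈ mx S)
    (hQ : Q ∈ mx S) {x : X} (hxP : x ∈ P) (hxQ : x ∈ Q) : P = Q := by
  rw [mem_mx] at hP hQ
  rcases h.nested hP.1 hQ.1 hxP hxQ with h | h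
  · exact (hP.2 Q hQ.1 h).symm
  · exact hQ.2 P hP.1 h

lemma mx_disjoint {S : Finset (Set X)} (h : Lam (S : Set (Set X))) :
    ((mx S : Finset (Set X)) : Set (Set X)).PairwiseDisjoint id := by
  intro P hP Q hQ hne
  rw [Function.onFun, Set.disjoint_left]
  exact fun x hxP hxQ => hne (mx_eq h hP hQ hxP hxQ)

lemma sub_biU {S : Finset (Set X)} {P : Set X} (hP : P ∈ S) : P ⊆ ⋃ Q ∈ S, Q :=
  fun _ hx => Set.mem_iUnion₂.2 ⟨P, hP, hx⟩

variable [MeasurableSpace X]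

lemma sum_meas_le (ν : Measure X) {F : Finset (Set X)} (hF : ∀ P ∈ F, MeasurableSet P)
    (hd : (F : Set (Set X)).PairwiseDisjoint id) {R : Set X} (hR : ∀ P ∈ F, P ⊆ R) :
    ∑ P ∈ F, ν P ≤ ν R := by
  have := measure_biUnion_finset (μ := ν) (s := F) (f := id) hd hF
  simp only [id] at this
  rw [← this]
  exact measure_mono (Set.iUnion₂_subset hR)

lemma sum_mx_le (ν : Measure X) {S : Finset (Set X)} (h : Lam (S : Set (Set X)))
    (hS : ∀ P ∈ S, MeasurableSet P) {R : Set X} (hR : ∀ P ∈ S, P ⊆ R) :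
    ∑ P ∈ mx S, ν P ≤ ν R :=
  sum_meas_le ν (fun P hP => hS P (mx_subset S hP)) (mx_disjoint h)
    (fun P hP => hR P (mx_subset S hP))

omit [MeasurableSpace X] in
/-- A sum over a family is at most the sum, over its maximal members, of the sums below them. -/
lemma sum_le_sum_mx (S : Finset (Set X)) (φ : Set X → ℝ≥0∞) :
    ∑ Q ∈ S, φ Q ≤ ∑ P ∈ mx S, ∑ Q ∈ S.filter (· ⊆ P), φ Q := by
  simp_rw [Finset.sum_filter]
  rw [Finset.sum_comm]
  refine Finset.sum_le_sum fun Q hQ => ?_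
  obtain ⟨P, hP, hQP⟩ := exists_mx hQ
  refine le_trans ?_ (Finset.single_le_sum (f := fun P => if Q ⊆ P then φ Q else 0)
    (fun _ _ => zero_le) hP)
  simp [hQP]

/-- Comparison of two measures on the union of a finite laminar family. -/
lemma union_le_fin (ν₁ ν₂ : Measure X) {S : Finset (Set X)} (h : Lam (S : Set (Set X)))
    (hS : ∀ P ∈ S, MeasurableSet P) (hle : ∀ P ∈ S, ν₁ P ≤ ν₂ P) :
    ν₁ (⋃ P ∈ S, P) ≤ ν₂ (⋃ P ∈ S, P) := by
  calc ν₁ (⋃ P ∈ S, P) ≤ ν₁ (⋃ P ∈ mx S, P) := by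
        refine measure_mono (Set.iUnion₂_subset fun P hP => ?_)
        obtain ⟨Q, hQ, hPQ⟩ := exists_mx hP
        exact hPQ.trans (sub_biU hQ)
    _ ≤ ∑ P ∈ mx S, ν₁ P := measure_biUnion_finset_le _ _
    _ ≤ ∑ P ∈ mx S, ν₂ P := Finset.sum_le_sum fun P hP => hle P (mx_subset S hP)
    _ ≤ _ := sum_mx_le ν₂ h hS fun P hP => sub_biU hP

/-- Comparison of two measures on the union of a countable laminar family. -/
lemma union_le {ι : Type*} [Countable ι] (ν₁ ν₂ : Measure X) (B : ι → Set X) (I : Set ι)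
    (h : Lam (B '' I)) (hS : ∀ i, MeasurableSet (B i)) (hle : ∀ i ∈ I, ν₁ (B i) ≤ ν₂ (B i)) :
    ν₁ (⋃ i ∈ I, B i) ≤ ν₂ (⋃ i ∈ I, B i) := by
  have e : (⋃ i ∈ I, B i) = ⋃ F : Finset ι, ⋃ P ∈ (F.filter (· ∈ I)).image B, P := by
    ext x
    simp only [Set.mem_iUnion, Finset.mem_image, Finset.mem_filter, exists_prop]
    constructor
    · rintro ⟨i, hi, hx⟩
      exact ⟨{i}, B i, ⟨i, ⟨Finset.mem_singleton_self _, hi⟩, rfl⟩, hx⟩
    · rintro ⟨F, P, ⟨i, ⟨-, hi⟩, rfl⟩, hx⟩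
      exact ⟨i, hi, hx⟩
  have hdir : Directed (· ⊆ ·) (fun F : Finset ι => ⋃ P ∈ (F.filter (· ∈ I)).image B, P) := by
    refine Monotone.directed_le fun F G hFG => ?_
    refine Set.iUnion₂_subset fun P hP => ?_
    exact sub_biU (Finset.image_subset_image (Finset.filter_subset_filter _ hFG) hP)
  conv_lhs => rw [e, hdir.measure_iUnion]
  refine iSup_le fun F => le_trans (union_le_fin ν₁ ν₂ (h.mono ?_) ?_ ?_) (measure_mono ?_)
  · intro P hP
    simp only [Finset.coe_image, Finset.coe_filter, Set.mem_image, Set.mem_ofPred_eq] at hP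
    obtain ⟨i, hi, rfl⟩ := hP
    exact ⟨i, hi.2, rfl⟩
  · intro P hP
    obtain ⟨i, -, rfl⟩ := Finset.mem_image.1 hP
    exact hS i
  · intro P hP
    obtain ⟨i, hi, rfl⟩ := Finset.mem_image.1 hP
    exact hle i (Finset.mem_filter.1 hi).2
  · rw [e]
    exact Set.subset_iUnion (fun F : Finset ι => ⋃ P ∈ (F.filter (· ∈ I)).image B, P) F

/-- If the children of each member carry at most half of its mass, the total is at most twice
the mass of the ambient set. -/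
lemma sum_le_two (ν : Measure X) {S : Finset (Set X)} (h : Lam (S : Set (Set X)))
    (hS : ∀ P ∈ S, MeasurableSet P) (hfin : ∀ P ∈ S, ν P ≠ ⊤) {R : Set X} (hR : ∀ P ∈ S, P ⊆ R)
    (hhalf : ∀ P ∈ S, 2 * ∑ Q ∈ mx (S.filter (· ⊂ P)), ν Q ≤ ν P) :
    ∑ P ∈ S, ν P ≤ 2 * ν R := by
  have h1 : ∑ Q ∈ S, ν Q ≤ ∑ Q ∈ mx S, ν Q + ∑ P ∈ S, ∑ Q ∈ mx (S.filter (· ⊂ P)), ν Q := by
    have e1 : ∑ Q ∈ mx S, ν Q = ∑ Q ∈ S, if Q ∈ mx S then ν Q else 0 := by
      rw [← Finset.sum_filter]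
      congr 1
      ext Q
      simp only [Finset.mem_filter]
      exact ⟨fun h => ⟨mx_subset S h, h⟩, fun h => h.2⟩
    have e2 : ∀ P, ∑ Q ∈ mx (S.filter (· ⊂ P)), ν Q =
        ∑ Q ∈ S, if Q ∈ mx (S.filter (· ⊂ P)) then ν Q else 0 := by
      intro P
      rw [← Finset.sum_filter]
      congr 1
      ext Q
      simp only [Finset.mem_filter]
      exact ⟨fun h => ⟨(Finset.mem_filter.1 (mx_subset _ h)).1, h⟩, fun h => h.2⟩
    simp_rw [e2]
    rw [e1, Finset.sum_comm, ← Finset.sum_add_distrib]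
    refine Finset.sum_le_sum fun Q hQ => ?_
    by_cases hm : Q ∈ mx S
    · rw [if_pos hm]; exact le_self_add
    · have : ∃ P ∈ S, Q ⊂ P := by
        by_contra hc
        push Not at hc
        exact hm (mem_mx.2 ⟨hQ, fun P hP hQP => by
          by_contra hne
          exact hc P hP (hQP.ssubset_of_ne (Ne.symm hne))⟩)
      obtain ⟨P₀, hP₀, hQP₀⟩ := this
      obtain ⟨P, -, hP⟩ := (S.filter (Q ⊂ ·)).exists_le_minimal (Finset.mem_filter.2 ⟨hP₀, hQP₀⟩)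
      have hP1 := Finset.mem_filter.1 hP.1
      have hQm : Q ∈ mx (S.filter (· ⊂ P)) := by
        refine mem_mx.2 ⟨Finset.mem_filter.2 ⟨hQ, hP1.2⟩, fun P' hP' hQP' => ?_⟩
        by_contra hne
        have hP'1 := Finset.mem_filter.1 hP'
        have := hP.2 (Finset.mem_filter.2 ⟨hP'1.1, hQP'.ssubset_of_ne (Ne.symm hne)⟩) hP'1.2.le
        exact hP'1.2.not_subset this
      refine le_add_left (le_trans ?_ (Finset.single_le_sum
        (f := fun P => if Q ∈ mx (S.filter (· ⊂ P)) then ν Q else 0) (fun _ _ => zero_le) hP1.1))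
      simp only [hQm, if_true, le_refl]
  have h2 : 2 * ∑ P ∈ S, ∑ Q ∈ mx (S.filter (· ⊂ P)), ν Q ≤ ∑ P ∈ S, ν P := by
    rw [Finset.mul_sum]
    exact Finset.sum_le_sum hhalf
  have h3 := sum_mx_le ν h hS hR
  have hf : ∑ P ∈ S, ν P ≠ ⊤ := ENNReal.sum_ne_top.2 hfin
  have h4 : ∑ P ∈ S, ν P + ∑ P ∈ S, ν P ≤ 2 * ν R + ∑ P ∈ S, ν P := by
    calc ∑ P ∈ S, ν P + ∑ P ∈ S, ν P = 2 * ∑ P ∈ S, ν P := (two_mul _).symm
      _ ≤ 2 * (ν R + ∑ P ∈ S, ∑ Q ∈ mx (S.filter (· ⊂ P)), ν Q) := by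
          gcongr
          exact h1.trans (by gcongr)
      _ = 2 * ν R + 2 * ∑ P ∈ S, ∑ Q ∈ mx (S.filter (· ⊂ P)), ν Q := mul_add _ _ _
      _ ≤ _ := by gcongr
  exact (ENNReal.add_le_add_iff_right hf).1 h4

/-! ### Arithmetic in `[0, ∞]` -/

lemma amgm {z a b : ℝ≥0∞} (h : z ^ 2 ≤ a * b) : z ≤ a + b := by
  by_contra hc
  push Not at hc
  have ha : a < z := lt_of_le_of_lt le_self_add hc
  have hb : b < z := lt_of_le_of_lt le_add_self hc
  have := ENNReal.mul_lt_mul ha hb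
  rw [← sq] at this
  exact absurd h (not_le.2 this)

lemma absorb {x a : ℝ≥0∞} (hx : x ≠ ⊤) (h : 2 * x ≤ a + x) : x ≤ a := by
  rw [two_mul] at h
  exact (ENNReal.add_le_add_iff_right hx).1 h

lemma sum_zpow_le (M : Finset ℤ) (z : ℝ≥0∞) (h : ∀ m ∈ M, (2 : ℝ≥0∞) ^ m ≤ z) :
    ∑ m ∈ M, (2 : ℝ≥0∞) ^ m ≤ 2 * z := by
  have key : ∀ M : Finset ℤ, ∀ n : ℤ, (∀ m ∈ M, m < n) →
      ∑ m ∈ M, (2 : ℝ≥0∞) ^ m ≤ (2 : ℝ≥0∞) ^ n := by
    intro M
    induction M using Finset.induction_on_max with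
    | empty => simp
    | insert a s hs ih =>
      intro n hn
      rw [Finset.sum_insert (fun h => lt_irrefl _ (hs a h))]
      calc (2 : ℝ≥0∞) ^ a + ∑ m ∈ s, (2 : ℝ≥0∞) ^ m ≤ 2 ^ a + 2 ^ a := by
            gcongr; exact ih a hs
        _ = 2 ^ (a + 1) := by
            rw [ENNReal.zpow_add (by norm_num) (by norm_num), zpow_one, mul_two]
        _ ≤ 2 ^ n := ENNReal.zpow_le_of_le (by norm_num)
            (Int.add_one_le_of_lt (hn a (Finset.mem_insert_self _ _)))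
  rcases M.eq_empty_or_nonempty with rfl | hne
  · simp
  · calc ∑ m ∈ M, (2 : ℝ≥0∞) ^ m ≤ 2 ^ (M.max' hne + 1) :=
          key M _ fun m hm => Int.lt_add_one_of_le (M.le_max' m hm)
      _ = 2 * 2 ^ (M.max' hne) := by
          rw [ENNReal.zpow_add (by norm_num) (by norm_num), zpow_one, mul_comm]
      _ ≤ 2 * z := by gcongr; exact h _ (M.max'_mem hne)

end Pool.Agent.H572Z.Sp
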