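import Mathlib
import Pool.Agent.H572Z.Sp.Lam
import Pool.Agent.H572Z.Sp.Defs

set_option autoImplicit false

/-!
# Dyadic cubes and their odd dilates
-/

namespace Pool.Agent.H572Z.Sp

open MeasureTheory Set Filter Topology
open scoped ENNReal Classical

variable {d : ℕ}

lemma cube_eq (a : Fin d → ℝ) (l : ℝ) :
    cube a l = (WithLp.ofLp : E d → Fin d → ℝ) ⁻¹' (Set.pi univ fun i => Ico (a i) (a i + l)) := by
  ext x; simp [cube, Set.mem_pi]

lemma cube_meas (a : Fin d → ℝ) (l : ℝ) : MeasurableSet (cube a l) := by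
  rw [cube_eq]
  exact (PiLp.volume_preserving_ofLp (Fin d)).measurable
    (MeasurableSet.univ_pi fun _ => measurableSet_Ico)

lemma cube_vol (a : Fin d → ℝ) (l : ℝ) : volume (cube a l) = ENNReal.ofReal l ^ d := by
  rw [cube_eq, (PiLp.volume_preserving_ofLp (Fin d)).measure_preimage
    (MeasurableSet.univ_pi fun _ => measurableSet_Ico).nullMeasurableSet, Real.volume_pi_Ico]
  simp

lemma coord_le (x y : E d) (k : Fin d) : |x k - y k| ≤ ‖x - y‖ := by
  have := PiLp.norm_apply_le (x - y) k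
  simpa using this

lemma cube_diam {a : Fin d → ℝ} {l : ℝ} (hl : 0 ≤ l) {x y : E d} (hx : x ∈ cube a l)
    (hy : y ∈ cube a l) : ‖x - y‖ ≤ d * l := by
  rw [EuclideanSpace.norm_eq]
  refine Real.sqrt_le_iff.2 ⟨by positivity, ?_⟩
  calc ∑ i, ‖(x - y) i‖ ^ 2 ≤ ∑ _i : Fin d, l ^ 2 := by
        refine Finset.sum_le_sum fun i _ => ?_
        have h1 := hx i
        have h2 := hy i
        gcongr
        rw [Real.norm_eq_abs, PiLp.sub_apply, abs_le]
        constructor <;> linarith [h1.1, h1.2, h2.1, h2.2]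
    _ = d * l ^ 2 := by simp
    _ ≤ (d * l) ^ 2 := by
        rw [mul_pow]
        gcongr
        exact_mod_cast Nat.le_self_pow (by norm_num) d

lemma ball_vol_le (x : E d) (r : ℝ) : volume (Metric.ball x r) ≤ ENNReal.ofReal (2 * r) ^ d := by
  rw [← cube_vol (fun k => x k - r) (2 * r)]
  refine measure_mono fun y hy k => ?_
  have h1 := coord_le y x k
  rw [mem_ball_iff_norm] at hy
  have := abs_lt.1 (h1.trans_lt hy)
  constructor <;> linarith [this.1, this.2]

/-- Indices of dyadic cubes: a generation and an integer position. -/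
abbrev Idx (d : ℕ) := ℕ × (Fin d → ℤ)

/-- The `(2D+1)`-fold dilate of a dyadic cube of the lattice generated by `[-L/2, L/2)^d`. -/
def box (L : ℝ) (D : ℕ) (i : Idx d) : Set (E d) :=
  cube (fun k => -L / 2 + ((i.2 k : ℝ) - D) * (L / 2 ^ i.1)) ((2 * D + 1) * (L / 2 ^ i.1))

/-- Rescaled coordinates. -/
noncomputable def tc (L : ℝ) (n : ℕ) (x : E d) (k : Fin d) : ℝ := 2 ^ n * (x k / L + 1 / 2)

/-- The dyadic cube of generation `n` that contains `x`. -/
noncomputable def idx (L : ℝ) (n : ℕ) (x : E d) : Idx d := (n, fun k => ⌊tc L n x k⌋)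

/-- The volume of a dyadic cube of generation `n`. -/
noncomputable def vv (d : ℕ) (L : ℝ) (n : ℕ) : ℝ≥0∞ := ENNReal.ofReal (L / 2 ^ n) ^ d

variable {L : ℝ} {D : ℕ}

lemma box_meas (L : ℝ) (D : ℕ) (i : Idx d) : MeasurableSet (box L D i) := cube_meas _ _

lemma box_vol (L : ℝ) (D : ℕ) (i : Idx d) :
    volume (box L D i) = (2 * D + 1) ^ d * vv d L i.1 := by
  rw [box, cube_vol, vv, ENNReal.ofReal_mul (by positivity), mul_pow]
  congr 2
  rw [ENNReal.ofReal_add (by positivity) zero_le_one, ENNReal.ofReal_mul (by norm_num)]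
  simp

lemma box0_vol (L : ℝ) (i : Idx d) : volume (box L 0 i) = vv d L i.1 := by
  rw [box_vol]; simp

lemma vv_ne_zero (hL : 0 < L) (n : ℕ) : vv d L n ≠ 0 :=
  pow_ne_zero _ (ENNReal.ofReal_pos.2 (by positivity)).ne'

lemma vv_ne_top (L : ℝ) (n : ℕ) : vv d L n ≠ ⊤ := ENNReal.pow_ne_top ENNReal.ofReal_ne_top

lemma vv_succ (L : ℝ) (n : ℕ) : vv d L n = 2 ^ d * vv d L (n + 1) := by
  rw [vv, vv, ← mul_pow, ← ENNReal.ofReal_ofNat 2, ← ENNReal.ofReal_mul (by norm_num)]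
  congr 2
  field_simp
  ring

lemma box_vol_ne_zero (hL : 0 < L) (D : ℕ) (i : Idx d) : volume (box L D i) ≠ 0 := by
  rw [box_vol]; exact mul_ne_zero (pow_ne_zero _ (by simp)) (vv_ne_zero hL _)

lemma box_vol_ne_top (L : ℝ) (D : ℕ) (i : Idx d) : volume (box L D i) ≠ ⊤ := by
  rw [box, cube_vol]; exact ENNReal.pow_ne_top ENNReal.ofReal_ne_top

lemma tc_eq (hL : 0 < L) (n : ℕ) (x : E d) (k : Fin d) :
    x k = -L / 2 + tc L n x k * (L / 2 ^ n) := by
  rw [tc]; field_simp; ring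

lemma mem_box (hL : 0 < L) {i : Idx d} {x : E d} :
    x ∈ box L D i ↔ ∀ k, (i.2 k : ℝ) - D ≤ tc L i.1 x k ∧ tc L i.1 x k < i.2 k + D + 1 := by
  have hh : 0 < L / 2 ^ i.1 := by positivity
  refine forall_congr' fun k => ?_
  rw [tc_eq hL i.1 x k]
  refine and_congr ?_ ?_
  · rw [add_le_add_iff_left, mul_le_mul_iff_left₀ hh]
  · rw [add_assoc, add_lt_add_iff_left, ← add_mul, mul_lt_mul_iff_left₀ hh]
    constructor <;> intro h <;> linarith

lemma tc_add (L : ℝ) (n j : ℕ) (x : E d) (k : Fin d) : tc L (n + j) x k = 2 ^ j * tc L n x k := by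
  rw [tc, tc]; ring

lemma mem_idx (hL : 0 < L) (n : ℕ) (x : E d) : x ∈ box L 0 (idx L n x) := by
  rw [mem_box hL]
  intro k
  simp only [idx, Nat.cast_zero, sub_zero, add_zero]
  exact ⟨Int.floor_le _, Int.lt_floor_add_one _⟩

lemma idx_eq (hL : 0 < L) {i : Idx d} {x : E d} (hx : x ∈ box L 0 i) : idx L i.1 x = i := by
  rw [mem_box hL] at hx
  refine Prod.ext rfl (funext fun k => ?_)
  have := hx k
  simp only [Nat.cast_zero, sub_zero, add_zero] at this
  exact Int.floor_eq_iff.2 this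

lemma box0_eq (hL : 0 < L) {i j : Idx d} {x : E d} (hi : x ∈ box L 0 i) (hj : x ∈ box L 0 j)
    (h : i.1 = j.1) : i = j := by
  rw [← idx_eq hL hi, ← idx_eq hL hj, h]

/-- The colour of a dilated cube; dilated cubes of one colour are nested or disjoint. -/
def color (D : ℕ) (i : Idx d) : Fin d → ZMod (2 * D + 1) :=
  fun k => ((i.2 k - D : ℤ) : ZMod (2 * D + 1)) * ((D : ZMod (2 * D + 1)) + 1) ^ i.1

lemma box_sub (hL : 0 < L) {i j : Idx d} (hc : color D i = color D j) (hij : i.1 ≤ j.1) {x : E d}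
    (hi : x ∈ box L D i) (hj : x ∈ box L D j) : box L D j ⊆ box L D i := by
  obtain ⟨s, hs⟩ := Nat.exists_eq_add_of_le hij
  intro y hy
  rw [mem_box hL] at hi hj hy ⊢
  intro k
  have h2 : (2 : ZMod (2 * D + 1)) * ((D : ZMod (2 * D + 1)) + 1) = 1 := by
    have : ((2 * D + 1 : ℕ) : ZMod (2 * D + 1)) = 0 := ZMod.natCast_self _
    push_cast at this
    linear_combination this
  have h3 : (((i.2 k - D) * 2 ^ s : ℤ) : ZMod (2 * D + 1)) = ((j.2 k - D : ℤ) : ZMod (2 * D + 1)) := by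
    have h := congrFun hc k
    simp only [color, hs] at h
    have e : ∀ n : ℕ, (2 : ZMod (2 * D + 1)) ^ n * ((D : ZMod (2 * D + 1)) + 1) ^ n = 1 := fun n => by
      rw [← mul_pow, h2, one_pow]
    calc (((i.2 k - D) * 2 ^ s : ℤ) : ZMod (2 * D + 1))
        = ((i.2 k - D : ℤ) : ZMod (2 * D + 1)) * 2 ^ s *
          (2 ^ i.1 * ((D : ZMod (2 * D + 1)) + 1) ^ i.1) := by rw [e]; push_cast; ring
      _ = ((i.2 k - D : ℤ) : ZMod (2 * D + 1)) * ((D : ZMod (2 * D + 1)) + 1) ^ i.1 *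
          2 ^ (i.1 + s) := by ring
      _ = ((j.2 k - D : ℤ) : ZMod (2 * D + 1)) *
          (2 ^ (i.1 + s) * ((D : ZMod (2 * D + 1)) + 1) ^ (i.1 + s)) := by rw [h]; ring
      _ = _ := by rw [e, mul_one]
  obtain ⟨t, ht⟩ := (ZMod.intCast_eq_intCast_iff_dvd_sub _ _ _).1 h3
  have ht' : (j.2 k : ℝ) - D - (i.2 k - D) * 2 ^ s = (2 * D + 1) * t := by exact_mod_cast ht
  have hi := hi k
  have hj := hj k
  have hy := hy k
  rw [hs, tc_add] at hj hy
  have hp : (0 : ℝ) < 2 ^ s := by positivity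
  have hM : (0 : ℝ) < 2 * D + 1 := by positivity
  have a1 := mul_le_mul_of_nonneg_left hi.1 hp.le
  have a2 := mul_lt_mul_of_pos_left hi.2 hp
  have t1 : (-1 : ℝ) < t := by
    refine lt_of_mul_lt_mul_left ?_ hM.le
    linarith [hj.2]
  have t2 : (t : ℝ) < 2 ^ s := by
    refine lt_of_mul_lt_mul_left ?_ hM.le
    linarith [hj.1]
  have t1' : (0 : ℝ) ≤ t := by
    have : (-1 : ℤ) < t := by exact_mod_cast t1
    exact_mod_cast (by omega : (0 : ℤ) ≤ t)
  have t2' : (t : ℝ) + 1 ≤ 2 ^ s := by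
    have : t < (2 : ℤ) ^ s := by exact_mod_cast t2
    exact_mod_cast (by omega : t + 1 ≤ (2 : ℤ) ^ s)
  constructor
  · refine le_of_mul_le_mul_left ?_ hp
    nlinarith [hy.1, mul_nonneg hM.le t1']
  · refine lt_of_mul_lt_mul_left ?_ hp.le
    nlinarith [hy.2, mul_le_mul_of_nonneg_left t2' hM.le]

lemma lam_color (hL : 0 < L) (D : ℕ) (c : Fin d → ZMod (2 * D + 1)) :
    Lam (box L D '' {i : Idx d | color D i = c}) := by
  rintro _ ⟨i, hi, rfl⟩ _ ⟨j, hj, rfl⟩
  by_cases h : Disjoint (box L D i) (box L D j)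
  · exact Or.inr (Or.inr h)
  · obtain ⟨x, hxi, hxj⟩ := Set.not_disjoint_iff.1 h
    rcases le_total i.1 j.1 with hij | hij
    · exact Or.inr (Or.inl (box_sub hL (hi.trans hj.symm) hij hxi hxj))
    · exact Or.inl (box_sub hL (hj.trans hi.symm) hij hxj hxi)

lemma color0 (i j : Idx d) : color 0 i = color 0 j := by
  have : Subsingleton (ZMod (2 * 0 + 1)) := ZMod.subsingleton_iff.2 rfl
  exact Subsingleton.elim _ _

lemma box0_sub (hL : 0 < L) {i j : Idx d} (hij : i.1 ≤ j.1) {x : E d}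
    (hi : x ∈ box L 0 i) (hj : x ∈ box L 0 j) : box L 0 j ⊆ box L 0 i :=
  box_sub hL (color0 i j) hij hi hj

lemma lam0 (hL : 0 < L) (I : Set (Idx d)) : Lam (box L 0 '' I) :=
  (lam_color hL 0 (color 0 (0, 0))).mono (image_mono fun _ _ => color0 _ _)

lemma star_mono (hL : 0 < L) {i j : Idx d} (hij : i.1 ≤ j.1) {x : E d}
    (hi : x ∈ box L 0 i) (hj : x ∈ box L 0 j) : box L D j ⊆ box L D i := by
  obtain ⟨s, hs⟩ := Nat.exists_eq_add_of_le hij
  intro y hy
  rw [mem_box hL] at hi hj hy ⊢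
  intro k
  have hi := hi k
  have hj := hj k
  have hy := hy k
  simp only [Nat.cast_zero, sub_zero, add_zero] at hi hj
  rw [hs, tc_add] at hj hy
  have hp : (1 : ℝ) ≤ 2 ^ s := one_le_pow₀ (by norm_num)
  have hp0 : (0 : ℝ) < 2 ^ s := by positivity
  have a1 := mul_le_mul_of_nonneg_left hi.1 hp0.le
  have a2 := mul_lt_mul_of_pos_left hi.2 hp0
  have t1 : (2 : ℝ) ^ s * i.2 k ≤ j.2 k := by
    have : (2 : ℤ) ^ s * i.2 k < j.2 k + 1 := by exact_mod_cast a1.trans_lt hj.2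
    exact_mod_cast (by omega : (2 : ℤ) ^ s * i.2 k ≤ j.2 k)
  have t2 : (j.2 k : ℝ) + 1 ≤ 2 ^ s * (i.2 k + 1) := by
    have : j.2 k < (2 : ℤ) ^ s * (i.2 k + 1) := by exact_mod_cast hj.1.trans_lt a2
    exact_mod_cast (by omega : j.2 k + 1 ≤ (2 : ℤ) ^ s * (i.2 k + 1))
  have hD : (D : ℝ) ≤ 2 ^ s * D := le_mul_of_one_le_left (Nat.cast_nonneg D) hp
  constructor
  · refine le_of_mul_le_mul_left ?_ hp0
    linarith [hy.1]
  · refine lt_of_mul_lt_mul_left ?_ hp0.le
    linarith [hy.2]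

lemma box0_sub_star (hL : 0 < L) (D : ℕ) (i : Idx d) : box L 0 i ⊆ box L D i := by
  intro y hy
  rw [mem_box hL] at hy ⊢
  intro k
  have := hy k
  have hD : (0 : ℝ) ≤ D := Nat.cast_nonneg D
  simp only [Nat.cast_zero, sub_zero, add_zero] at this
  constructor <;> linarith [this.1, this.2]

lemma mem_star (hL : 0 < L) {i : Idx d} {x y : E d} (hx : x ∈ box L 0 i)
    (hy : ‖y - x‖ < D * (L / 2 ^ i.1)) : y ∈ box L D i := by
  rw [mem_box hL] at hx ⊢
  intro k
  have h1 := hx k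
  simp only [Nat.cast_zero, sub_zero, add_zero] at h1
  have hh : 0 < L / 2 ^ i.1 := by positivity
  have h2 := abs_lt.1 ((coord_le y x k).trans_lt hy)
  rw [tc_eq hL i.1 x k, tc_eq hL i.1 y k] at h2
  have h3 : -(D : ℝ) < tc L i.1 y k - tc L i.1 x k := by
    refine lt_of_mul_lt_mul_right ?_ hh.le
    linarith [h2.1]
  have h4 : tc L i.1 y k - tc L i.1 x k < D := by
    refine lt_of_mul_lt_mul_right ?_ hh.le
    linarith [h2.2]
  constructor <;> linarith [h1.1, h1.2]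

lemma box_diam (hL : 0 < L) {i : Idx d} {x y : E d} (hx : x ∈ box L D i) (hy : y ∈ box L D i) :
    ‖x - y‖ ≤ d * ((2 * D + 1) * (L / 2 ^ i.1)) := cube_diam (by positivity) hx hy

lemma box0_diam (hL : 0 < L) {i : Idx d} {x y : E d} (hx : x ∈ box L 0 i) (hy : y ∈ box L 0 i) :
    ‖x - y‖ ≤ d * (L / 2 ^ i.1) := by simpa using box_diam hL hx hy

lemma box_nonempty (hL : 0 < L) (D : ℕ) (i : Idx d) : (box L D i).Nonempty :=
  nonempty_of_measure_ne_zero (box_vol_ne_zero hL D i)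

lemma box_bounded (hL : 0 < L) (D : ℕ) (i : Idx d) : Bornology.IsBounded (box L D i) := by
  obtain ⟨x, hx⟩ := box_nonempty hL D i
  refine (Metric.isBounded_closedBall (x := x) (r := d * ((2 * D + 1) * (L / 2 ^ i.1)))).subset
    fun y hy => ?_
  rw [mem_closedBall_iff_norm]
  exact box_diam hL hy hx

lemma box_inj (hd : 1 ≤ d) (hL : 0 < L) (D : ℕ) : Function.Injective (box (d := d) L D) := by
  intro i j h
  have h1 : i.1 = j.1 := by
    have h2 := congrArg volume h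
    rw [box_vol, box_vol, ENNReal.mul_right_inj (pow_ne_zero _ (by simp)) (by finiteness), vv, vv,
      ← ENNReal.ofReal_pow (by positivity), ← ENNReal.ofReal_pow (by positivity),
      ENNReal.ofReal_eq_ofReal_iff (by positivity) (by positivity),
      pow_left_inj₀ (by positivity) (by positivity) (by omega),
      div_eq_div_iff (by positivity) (by positivity), mul_right_inj' hL.ne'] at h2
    exact Nat.pow_right_injective (le_refl 2) (by exact_mod_cast h2.symm)
  have key : ∀ i j : Idx d, i.1 = j.1 → box L D i ⊆ box L D j → ∀ k, j.2 k ≤ i.2 k := by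
    intro i j h1 h k
    have hx : (WithLp.toLp 2 fun k => -L / 2 + ((i.2 k : ℝ) - D) * (L / 2 ^ i.1) : E d) ∈
        box L D i := fun k => ⟨le_rfl, lt_add_of_pos_right _ (by positivity)⟩
    have := (h hx k).1
    simp only [← h1, add_le_add_iff_left] at this
    have h3 := le_of_mul_le_mul_right this (by positivity)
    exact_mod_cast (by linarith : (j.2 k : ℝ) ≤ i.2 k)
  exact Prod.ext h1 (funext fun k => le_antisymm (key j i h1.symm h.ge k) (key i j h1 h.le k))

lemma exists_top {R : ℝ} (hR : 0 < R) {x : E d} (hx : ‖x‖ < R) : x ∈ box (2 * R) 0 (0, 0) := by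
  rw [mem_box (by positivity)]
  intro k
  have h1 := coord_le x 0 k
  simp only [sub_zero, PiLp.zero_apply] at h1
  have h2 := abs_lt.1 (h1.trans_lt hx)
  have h3 : x k / (2 * R) < 1 / 2 := by rw [div_lt_iff₀ (by positivity)]; linarith
  have h4 : -(1 / 2) < x k / (2 * R) := by rw [lt_div_iff₀ (by positivity)]; linarith
  simp only [tc, Pi.zero_apply, Int.cast_zero, Nat.cast_zero, sub_zero, pow_zero, one_mul, add_zero,
    zero_add]
  constructor <;> linarith

/-! ### Stopping cubes -/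

/-- The maximal cubes with the property `Bad`. -/
def Sel (L : ℝ) (Bad : Idx d → Prop) : Set (Idx d) :=
  {i | Bad i ∧ ∀ j : Idx d, j.1 < i.1 → box L 0 i ⊆ box L 0 j → ¬ Bad j}

lemma sel_disjoint (hL : 0 < L) (Bad : Idx d → Prop) :
    (Sel L Bad).PairwiseDisjoint (box L 0) := by
  intro i hi j hj hne
  rw [Function.onFun, Set.disjoint_left]
  intro x hxi hxj
  rcases lt_trichotomy i.1 j.1 with h | h | h
  · exact hj.2 i h (box0_sub hL h.le hxi hxj) hi.1
  · exact hne (box0_eq hL hxi hxj h)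
  · exact hi.2 j h (box0_sub hL h.le hxj hxi) hj.1

lemma exists_sel (hL : 0 < L) {Bad : Idx d → Prop} {x : E d} {n : ℕ} (h : Bad (idx L n x)) :
    ∃ i ∈ Sel L Bad, x ∈ box L 0 i := by
  have hex : ∃ n, Bad (idx L n x) := ⟨n, h⟩
  refine ⟨idx L (Nat.find hex) x, ⟨Nat.find_spec hex, fun j hj hsub => ?_⟩, mem_idx hL _ _⟩
  rw [← idx_eq hL (hsub (mem_idx hL _ _))]
  exact Nat.find_min hex hj

/-! ### Differentiation along dyadic cubes -/

lemma density (hL : 0 < L) {φ : E d → ℝ≥0∞} (hφ : Measurable φ) {t : ℝ≥0∞} (n₀ : ℕ) :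
    ∀ᵐ x, (∀ n, n₀ ≤ n → ∫⁻ y in box L 0 (idx L n x), φ y ≤ t * vv d L n) → φ x ≤ t := by
  by_cases ht : t = ⊤
  · simp [ht]
  set G := {x : E d | ∀ n, n₀ ≤ n → ∫⁻ y in box L 0 (idx L n x), φ y ≤ t * vv d L n} with hG
  have key : ∀ k : ℕ, volume (G ∩ {x | t + (k : ℝ≥0∞)⁻¹ ≤ φ x} ∩ Metric.ball 0 k) = 0 := by
    intro k
    set A := G ∩ {x | t + (k : ℝ≥0∞)⁻¹ ≤ φ x} ∩ Metric.ball 0 k with hA
    have hAt : volume A ≠ ⊤ :=
      ne_top_of_le_ne_top measure_ball_lt_top.ne (measure_mono inter_subset_right)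
    have h1 : ∀ r, volume A < r → (t + (k : ℝ≥0∞)⁻¹) * volume A ≤ t * r := by
      intro r hr
      obtain ⟨U, hAU, hU, hUr⟩ := Set.exists_isOpen_lt_of_lt A r hr
      set I := {i : Idx d | box L 0 i ⊆ U ∧ ∫⁻ y in box L 0 i, φ y ≤ t * vv d L i.1} with hI
      have hW : MeasurableSet (⋃ i ∈ I, box L 0 i) :=
        MeasurableSet.biUnion (to_countable _) fun i _ => box_meas _ _ _
      have hcov : A ⊆ (⋃ i ∈ I, box L 0 i) ∩ {x | t + (k : ℝ≥0∞)⁻¹ ≤ φ x} := by
        intro x hx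
        refine ⟨?_, hx.1.2⟩
        obtain ⟨ε, hε, hball⟩ := Metric.isOpen_iff.1 hU x (hAU hx)
        have : Tendsto (fun n : ℕ => (d : ℝ) * (L / 2 ^ n)) atTop (𝓝 (d * 0)) :=
          (tendsto_const_nhds.div_atTop (tendsto_pow_atTop_atTop_of_one_lt one_lt_two)).const_mul _
        rw [mul_zero] at this
        obtain ⟨n, hn1, hn2⟩ := ((this.eventually (gt_mem_nhds hε)).and
          (eventually_ge_atTop n₀)).exists
        refine mem_iUnion₂.2 ⟨idx L n x, ⟨fun y hy => hball ?_, hx.1.1 n hn2⟩, mem_idx hL _ _⟩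
        rw [mem_ball_iff_norm]
        exact (box0_diam hL hy (mem_idx hL _ _)).trans_lt hn1
      have h2 := union_le (volume.withDensity φ) (t • volume) (box L 0) I (lam0 hL I)
        (box_meas L 0) (fun i hi => by
          rw [withDensity_apply _ (box_meas _ _ _), Measure.smul_apply, smul_eq_mul, box0_vol]
          exact hi.2)
      rw [withDensity_apply _ hW, Measure.smul_apply, smul_eq_mul] at h2
      calc (t + (k : ℝ≥0∞)⁻¹) * volume A
          ≤ (t + (k : ℝ≥0∞)⁻¹) * (volume.restrict (⋃ i ∈ I, box L 0 i))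
              {x | t + (k : ℝ≥0∞)⁻¹ ≤ φ x} := by
            rw [Measure.restrict_apply' hW, inter_comm]
            gcongr
        _ ≤ ∫⁻ y in ⋃ i ∈ I, box L 0 i, φ y := mul_meas_ge_le_lintegral hφ _
        _ ≤ t * volume (⋃ i ∈ I, box L 0 i) := h2
        _ ≤ t * r := by
            gcongr
            exact (measure_mono (iUnion₂_subset fun i hi => hi.1)).trans hUr.le
    have h2 : (t + (k : ℝ≥0∞)⁻¹) * volume A ≤ t * volume A := by
      have : Tendsto (fun r => t * r) (𝓝[>] volume A) (𝓝 (t * volume A)) :=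
        (ENNReal.Tendsto.const_mul tendsto_id (Or.inr ht)).mono_left nhdsWithin_le_nhds
      have hne : (𝓝[>] volume A).NeBot := nhdsGT_neBot_of_exists_gt ⟨⊤, hAt.lt_top⟩
      exact ge_of_tendsto this (eventually_nhdsWithin_of_forall h1)
    rw [add_mul] at h2
    have h3 := (ENNReal.add_le_add_iff_left (ENNReal.mul_ne_top ht hAt)).1
      (h2.trans (le_of_eq (add_zero _).symm))
    rcases mul_eq_zero.1 (le_zero_iff.1 h3) with h | h
    · exact absurd h (ENNReal.inv_ne_zero.2 (ENNReal.natCast_ne_top k))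
    · exact h
  have := (measure_iUnion_null_iff.2 key)
  refine measure_mono_null (fun x hx => ?_) this
  simp only [mem_compl_iff, mem_ofPred_eq, Classical.not_imp, not_le] at hx
  have h1 : Tendsto (fun k : ℕ => t + (k : ℝ≥0∞)⁻¹) atTop (𝓝 (t + 0)) :=
    tendsto_const_nhds.add ENNReal.tendsto_inv_nat_nhds_zero
  rw [add_zero] at h1
  obtain ⟨k, hk1, hk2⟩ := ((h1.eventually (gt_mem_nhds hx.2)).and
    (tendsto_natCast_atTop_atTop.eventually_gt_atTop ‖x‖)).exists
  exact mem_iUnion.2 ⟨k, ⟨hx.1, hk1.le⟩, mem_ball_zero_iff.2 hk2⟩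

/-! ### Integration over dyadic shells -/

lemma shell {α : ℝ} (hα : 0 < α) : ∃ c : ℝ≥0∞, c ≠ ⊤ ∧ ∀ (φ : E d → ℝ≥0∞) (x : E d) (r : ℝ)
    (Λ : ℝ≥0∞), 0 < r →
    (∀ k : ℕ, ∫⁻ y in Metric.ball x (2 ^ (k + 1) * r), φ y ≤ Λ * ENNReal.ofReal (2 ^ k * r) ^ d) →
    ∫⁻ y in {y | r ≤ ‖x - y‖}, ENNReal.ofReal (r ^ α * ‖x - y‖ ^ (-(d : ℝ) - α)) * φ y ≤ c * Λ := by
  have hq : ENNReal.ofReal ((2 : ℝ) ^ (-α)) < 1 := by
    rw [ENNReal.ofReal_lt_one]
    exact Real.rpow_lt_one_of_one_lt_of_neg one_lt_two (by linarith)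
  refine ⟨(1 - ENNReal.ofReal ((2 : ℝ) ^ (-α)))⁻¹,
    ENNReal.inv_ne_top.2 (tsub_pos_of_lt hq).ne', fun φ x r Λ hr h => ?_⟩
  set A : ℕ → Set (E d) := fun k => {y | 2 ^ k * r ≤ ‖x - y‖} ∩ Metric.ball x (2 ^ (k + 1) * r)
    with hA
  have hAm : ∀ k, MeasurableSet (A k) := fun k =>
    (measurableSet_le measurable_const (by fun_prop)).inter measurableSet_ball
  calc ∫⁻ y in {y | r ≤ ‖x - y‖}, ENNReal.ofReal (r ^ α * ‖x - y‖ ^ (-(d : ℝ) - α)) * φ y
      ≤ ∫⁻ y in ⋃ k, A k, ENNReal.ofReal (r ^ α * ‖x - y‖ ^ (-(d : ℝ) - α)) * φ y := by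
        refine lintegral_mono_set fun y hy => ?_
        obtain ⟨n, hn1, hn2⟩ := exists_nat_pow_near (x := ‖x - y‖ / r) (y := 2)
          (by rw [le_div_iff₀ hr, one_mul]; exact hy) (by norm_num)
        rw [le_div_iff₀ hr] at hn1
        rw [div_lt_iff₀ hr] at hn2
        exact mem_iUnion.2 ⟨n, hn1, by rwa [mem_ball_iff_norm']⟩
    _ ≤ ∑' k, ∫⁻ y in A k, ENNReal.ofReal (r ^ α * ‖x - y‖ ^ (-(d : ℝ) - α)) * φ y :=
        lintegral_iUnion_le _ _
    _ ≤ ∑' k, ENNReal.ofReal ((2 : ℝ) ^ (-α)) ^ k * Λ := by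
        refine ENNReal.tsum_le_tsum fun k => ?_
        have hk : (0 : ℝ) < 2 ^ k * r := by positivity
        calc ∫⁻ y in A k, ENNReal.ofReal (r ^ α * ‖x - y‖ ^ (-(d : ℝ) - α)) * φ y
            ≤ ∫⁻ y in A k, ENNReal.ofReal (r ^ α * (2 ^ k * r) ^ (-(d : ℝ) - α)) * φ y := by
              refine setLIntegral_mono' (hAm k) fun y hy => ?_
              gcongr ENNReal.ofReal (_ * ?_) * _
              exact Real.rpow_le_rpow_of_nonpos hk hy.1 (by linarith [Nat.cast_nonneg (α := ℝ) d])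
          _ ≤ ENNReal.ofReal (r ^ α * (2 ^ k * r) ^ (-(d : ℝ) - α)) *
              (Λ * ENNReal.ofReal (2 ^ k * r) ^ d) := by
              rw [lintegral_const_mul' _ _ ENNReal.ofReal_ne_top]
              gcongr
              exact (lintegral_mono_set inter_subset_right).trans (h k)
          _ = _ := by
              rw [mul_comm Λ, ← mul_assoc, ← ENNReal.ofReal_pow hk.le,
                ← ENNReal.ofReal_mul (by positivity), ← ENNReal.ofReal_pow (by positivity)]
              congr 2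
              rw [mul_assoc, ← Real.rpow_natCast (2 ^ k * r) d, ← Real.rpow_add hk,
                show -(d : ℝ) - α + d = -α by ring, Real.mul_rpow (by positivity) hr.le,
                ← Real.rpow_natCast, ← Real.rpow_natCast, ← Real.rpow_mul (by norm_num),
                ← Real.rpow_mul (by norm_num), Real.rpow_neg hr.le, mul_comm (k : ℝ)]
              have : r ^ α ≠ 0 := by positivity
              field_simp
    _ = _ := by rw [ENNReal.tsum_mul_right, ENNReal.tsum_geometric]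

end Pool.Agent.H572Z.Sp
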