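import Mathlib
import Pool.Agent.H572Z.Sp.Cube

set_option autoImplicit false

/-!
# Calderon-Zygmund operators acting on functions
-/

namespace Pool.Agent.H572Z.Sp

open MeasureTheory Set Filter Topology
open scoped ENNReal Classical

variable {d : ℕ}

/-- The properties of a Calderon-Zygmund operator that the sparse bound uses. -/
structure CZ (op : (E d → ℂ) → E d → ℂ) (D : ℕ) (B C₁ C₂ : ℝ≥0∞) : Prop where
  meas : ∀ f, Measurable (op f)
  add : ∀ f g, MemLp f 2 volume → MemLp g 2 volume → op (f + g) =ᵐ[volume] op f + op g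
  l2 : ∀ f, MemLp f 2 volume → ∫⁻ x, ‖op f x‖ₑ ^ 2 ≤ B * ∫⁻ x, ‖f x‖ₑ ^ 2
  bad : ∀ L : ℝ, 0 < L → ∀ (i : Idx d) (b : E d → ℂ), MemLp b 2 volume →
    (∀ y, y ∉ box L 0 i → b y = 0) → ∫ y, b y = 0 →
    ∫⁻ x in (box L D i)ᶜ, ‖op b x‖ₑ ≤ C₁ * ∫⁻ y, ‖b y‖ₑ
  osc : ∀ L : ℝ, 0 < L → ∀ (i : Idx d) (g : E d → ℂ) (Λ : ℝ≥0∞), MemLp g 2 volume →
    Bornology.IsBounded (Function.support g) → (∀ y ∈ box L D i, g y = 0) →
    (∀ x ∈ box L 0 i, ∀ k : ℕ, ∫⁻ y in Metric.ball x (2 ^ (k + 1) * (D * (L / 2 ^ i.1))), ‖g y‖ₑ ≤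
      Λ * ENNReal.ofReal (2 ^ k * (D * (L / 2 ^ i.1))) ^ d) →
    ∃ Z : Set (E d), volume Z = 0 ∧ ∀ x ∈ box L 0 i, x ∉ Z → ∀ x' ∈ box L 0 i, x' ∉ Z →
      ‖op g x - op g x'‖ₑ ≤ C₂ * Λ

lemma eLpNorm_sq (f : E d → ℂ) : eLpNorm f 2 volume ^ 2 = ∫⁻ x, ‖f x‖ₑ ^ 2 := by
  have := eLpNorm_nnreal_pow_eq_lintegral (f := f) (μ := (volume : Measure (E d))) (p := 2)
    (by norm_num)
  simpa using this

lemma l2_ne_top {f : E d → ℂ} (hf : MemLp f 2 volume) : ∫⁻ x, ‖f x‖ₑ ^ 2 ≠ ⊤ := by
  rw [← eLpNorm_sq]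
  exact ENNReal.pow_ne_top hf.2.ne

lemma integrable_of_bdd {f : E d → ℂ} (hf : MemLp f 2 volume)
    (hb : Bornology.IsBounded (Function.support f)) : Integrable f volume := by
  obtain ⟨R, hR⟩ := hb.subset_closedBall 0
  rw [← integrableOn_iff_integrable_of_support_subset hR]
  have : IsFiniteMeasure ((volume : Measure (E d)).restrict (Metric.closedBall 0 R)) :=
    isFiniteMeasure_restrict.2 measure_closedBall_lt_top.ne
  exact (hf.restrict _).integrable (by norm_num)

lemma compact_of_bdd {f : E d → ℂ} (hb : Bornology.IsBounded (Function.support f)) :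
    HasCompactSupport f := hb.isCompact_closure

/-- A measurable version of `T`. -/
noncomputable def opT (T : (E d → ℂ) → E d → ℂ) (f : E d → ℂ) : E d → ℂ :=
  if h : AEStronglyMeasurable (T f) volume then h.mk _ else 0

lemma opT_ae {T : (E d → ℂ) → E d → ℂ} (hT : IsCZO T) {f : E d → ℂ} (h : MemLp f 2 volume) :
    ∀ᵐ x, opT T f x = T f x := by
  obtain ⟨B, hB⟩ := hT.1.2.2
  have := (hB f h).1.1
  rw [opT, dif_pos this]
  exact this.ae_eq_mk.symm

theorem IsCZO.cz (hd : 1 ≤ d) {T : (E d → ℂ) → E d → ℂ} (h : IsCZO T) :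
    ∃ B C₁ C₂ : ℝ≥0∞, B ≠ ⊤ ∧ C₁ ≠ ⊤ ∧ C₂ ≠ ⊤ ∧ CZ (opT T) (2 * d) B C₁ C₂ := by
  have hae := fun f => opT_ae h (f := f)
  obtain ⟨⟨hadd, -, B, hB⟩, K, ⟨C₀, α, hα, -, hsize₀, hsm₀⟩, hrep⟩ := h
  set C := max C₀ 0 with hC
  have hC0 : 0 ≤ C := le_max_right _ _
  have hsize : ∀ x y, x ≠ y → ‖K x y‖ ≤ C * ‖x - y‖ ^ (-(d : ℝ)) := fun x y hxy =>
    (hsize₀ x y hxy).trans (by gcongr; exact le_max_left _ _)
  have hsm : ∀ x x' y, x ≠ y → ‖x - x'‖ ≤ ‖x - y‖ / 2 →
      ‖K x y - K x' y‖ + ‖K y x - K y x'‖ ≤ C * ‖x - x'‖ ^ α * ‖x - y‖ ^ (-(d : ℝ) - α) :=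
    fun x x' y h1 h2 => (hsm₀ x x' y h1 h2).trans (by gcongr; exact le_max_left _ _)
  have hd' : (1 : ℝ) ≤ d := by exact_mod_cast hd
  have hcont : ∀ x, ContinuousOn (K x) {x}ᶜ := by
    intro x y₀ hy₀
    refine ContinuousAt.continuousWithinAt ?_
    have hne : y₀ ≠ x := hy₀
    have hpos : 0 < ‖y₀ - x‖ / 2 := by have := norm_pos_iff.2 (sub_ne_zero.2 hne); positivity
    rw [ContinuousAt, tendsto_iff_norm_sub_tendsto_zero]
    have h1 : Tendsto (fun y => ‖y₀ - y‖) (𝓝 y₀) (𝓝 0) := by
      have : Continuous (fun y : E d => ‖y₀ - y‖) := by fun_prop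
      simpa using this.tendsto y₀
    have h2 : Tendsto (fun y => C * ‖y₀ - y‖ ^ α * ‖y₀ - x‖ ^ (-(d : ℝ) - α)) (𝓝 y₀)
        (𝓝 (C * 0 ^ α * ‖y₀ - x‖ ^ (-(d : ℝ) - α))) :=
      ((h1.rpow_const (Or.inr hα.le)).const_mul C).mul_const _
    rw [Real.zero_rpow hα.ne', mul_zero, zero_mul] at h2
    refine squeeze_zero' (Eventually.of_forall fun _ => norm_nonneg _) ?_ h2
    filter_upwards [h1.eventually (ge_mem_nhds hpos)] with y hy
    have := hsm y₀ y x hne hy
    rw [norm_sub_rev]
    linarith [norm_nonneg (K y₀ x - K y x)]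
  have hint : ∀ (g : E d → ℂ) (x : E d) (r : ℝ), Integrable g volume → 0 < r →
      (∀ y, g y ≠ 0 → r ≤ ‖x - y‖) → Integrable (fun y => K x y * g y) volume := by
    intro g x r hg hr hsep
    have hm : AEStronglyMeasurable (fun y => K x y * g y) volume := by
      have h1 : AEStronglyMeasurable (({x}ᶜ : Set (E d)).indicator (K x)) volume :=
        (aestronglyMeasurable_indicator_iff (measurableSet_singleton x).compl).2
          ((hcont x).aestronglyMeasurable (measurableSet_singleton x).compl)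
      have e : (fun y => K x y * g y) = fun y => ({x}ᶜ : Set (E d)).indicator (K x) y * g y := by
        funext y
        by_cases hy : y = x
        · have : g y = 0 := by
            by_contra hc
            have := hsep y hc
            rw [hy, sub_self, norm_zero] at this
            linarith
          simp [this]
        · rw [indicator_of_mem (by simpa using hy)]
      rw [e]
      exact h1.mul hg.1
    refine (hg.norm.const_mul (C * r ^ (-(d : ℝ)))).mono' hm (Eventually.of_forall fun y => ?_)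
    by_cases hy : g y = 0
    · simp [hy]
    · have h1 := hsep y hy
      have hxy : x ≠ y := by
        rintro rfl
        rw [sub_self, norm_zero] at h1
        linarith
      rw [norm_mul]
      gcongr
      refine (hsize x y hxy).trans ?_
      gcongr C * ?_
      exact Real.rpow_le_rpow_of_nonpos hr h1 (by linarith)
  obtain ⟨c, hc, hshell⟩ := shell (d := d) hα
  refine ⟨(B : ℝ≥0∞) ^ 2, ENNReal.ofReal C * (c * 4 ^ d), ENNReal.ofReal C * c, by finiteness,
    by finiteness, by finiteness, ⟨fun f => ?_, fun f g hf hg => ?_, fun f hf => ?_, ?_, ?_⟩⟩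
  · rw [opT]
    split_ifs with h
    · exact h.stronglyMeasurable_mk.measurable
    · exact measurable_const
  · filter_upwards [hae f hf, hae g hg, hae _ (hf.add hg), hadd f g hf hg] with x h1 h2 h3 h4
    rw [h3, h4, Pi.add_apply, h1, h2]
  · rw [← eLpNorm_sq, ← eLpNorm_sq, ← mul_pow, eLpNorm_congr_ae (hae f hf)]
    gcongr
    exact (hB f hf).2
  · intro L hL i b hb hb0 hbi
    set h : ℝ := L / 2 ^ i.1 with hh
    have hh0 : 0 < h := by positivity
    set r : ℝ := ((2 * d : ℕ) : ℝ) * h with hr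
    have hr' : r = 2 * (d * h) := by rw [hr]; push_cast; ring
    have hdh : 0 < d * h := by positivity
    have hr0 : 0 < r := by rw [hr']; positivity
    obtain ⟨y₀, hy₀⟩ := box_nonempty hL 0 i
    have hsupp : Function.support b ⊆ box L 0 i := fun y hy => by
      by_contra hc; exact hy (hb0 y hc)
    have hbdd : Bornology.IsBounded (Function.support b) := (box_bounded hL 0 i).subset hsupp
    have hbint := integrable_of_bdd hb hbdd
    have hts : tsupport b ⊆ Metric.closedBall y₀ (d * h) :=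
      closure_minimal (fun y hy => mem_closedBall_iff_norm.2 (box0_diam hL (hsupp hy) hy₀))
        Metric.isClosed_closedBall
    have hfar : ∀ x, x ∉ box L (2 * d) i → r ≤ ‖y₀ - x‖ := fun x hx => by
      by_contra hc
      exact hx (mem_star hL hy₀ (by rw [norm_sub_rev]; exact not_le.1 hc))
    have hpt : ∀ᵐ x, x ∈ (box L (2 * d) i)ᶜ → ‖opT T b x‖ₑ ≤ (ENNReal.ofReal C * ∫⁻ y, ‖b y‖ₑ) *
        (ENNReal.ofReal (r ^ α * ‖y₀ - x‖ ^ (-(d : ℝ) - α)) * 1) := by
      filter_upwards [hrep b hb (compact_of_bdd hbdd), hae b hb] with x hx hx' hxb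
      have h1 := hfar x hxb
      have hxs : x ∉ tsupport b := fun hc => by
        have := mem_closedBall_iff_norm'.1 (hts hc)
        linarith
      have hi1 := hint b x (d * h) hbint hdh fun y hy => by
        have h2 := box0_diam hL hy₀ (hsupp hy)
        have h3 : ‖y₀ - x‖ ≤ ‖y₀ - y‖ + ‖x - y‖ := by
          rw [norm_sub_rev x y]; exact norm_sub_le_norm_sub_add_norm_sub _ _ _
        linarith
      have e : ∫ y, K x y * b y = ∫ y, (K x y - K x y₀) * b y := by
        simp_rw [sub_mul]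
        rw [integral_sub hi1 (hbint.const_mul _), integral_const_mul, hbi, mul_zero, sub_zero]
      rw [hx', hx hxs, e]
      refine (enorm_integral_le_lintegral_enorm _).trans ?_
      rw [mul_one, mul_right_comm, ← lintegral_const_mul' _ _ (by finiteness)]
      refine lintegral_mono fun y => ?_
      by_cases hy : b y = 0
      · simp [hy]
      · have h2 := box0_diam hL hy₀ (hsupp hy)
        have hne : y₀ ≠ x := by
          rintro rfl
          rw [sub_self, norm_zero] at h1
          linarith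
        have h3 := hsm y₀ y x hne (by linarith)
        rw [enorm_mul, ← ENNReal.ofReal_mul hC0, ← ofReal_norm (K x y - K x y₀)]
        gcongr
        rw [norm_sub_rev]
        calc ‖K x y₀ - K x y‖ ≤ C * ‖y₀ - y‖ ^ α * ‖y₀ - x‖ ^ (-(d : ℝ) - α) := by
              linarith [norm_nonneg (K y₀ x - K y x)]
          _ ≤ C * r ^ α * ‖y₀ - x‖ ^ (-(d : ℝ) - α) := by gcongr; linarith
          _ = _ := by ring
    refine (setLIntegral_mono_ae' (box_meas _ _ _).compl hpt).trans ?_
    rw [lintegral_const_mul' _ _ (ENNReal.mul_ne_top ENNReal.ofReal_ne_top hbint.2.ne),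
      mul_right_comm, mul_right_comm (ENNReal.ofReal C), mul_right_comm (ENNReal.ofReal C)]
    gcongr
    refine (lintegral_mono_set hfar).trans (hshell (fun _ => 1) y₀ r (4 ^ d) hr0 fun k => ?_)
    rw [setLIntegral_one, ← mul_pow, ← ENNReal.ofReal_ofNat 4, ← ENNReal.ofReal_mul (by norm_num)]
    refine (ball_vol_le _ _).trans (le_of_eq ?_)
    congr 2
    ring
  · intro L hL i g Λ hg hbdd hg0 hΛ
    set h : ℝ := L / 2 ^ i.1 with hh
    have hh0 : 0 < h := by positivity
    set r : ℝ := ((2 * d : ℕ) : ℝ) * h with hr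
    have hr' : r = 2 * (d * h) := by rw [hr]; push_cast; ring
    have hdh : 0 < d * h := by positivity
    have hr0 : 0 < r := by rw [hr']; positivity
    have hgint := integrable_of_bdd hg hbdd
    have hfar : ∀ x ∈ box L 0 i, ∀ y, g y ≠ 0 → r ≤ ‖x - y‖ := fun x hx y hy => by
      by_contra hc
      exact hy (hg0 y (mem_star hL hx (by rw [norm_sub_rev]; exact not_le.1 hc)))
    have hts : ∀ x ∈ box L 0 i, x ∉ tsupport g := fun x hx hc => by
      have : tsupport g ⊆ {y | r ≤ ‖x - y‖} :=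
        closure_minimal (fun y hy => hfar x hx y hy) (isClosed_le continuous_const (by fun_prop))
      have := this hc
      simp only [mem_ofPred_eq, sub_self, norm_zero] at this
      linarith
    refine ⟨_, ae_iff.1 ((hrep g hg (compact_of_bdd hbdd)).and (hae g hg)),
      fun x hx hxZ x' hx' hxZ' => ?_⟩
    simp only [mem_ofPred_eq, not_not] at hxZ hxZ'
    rw [hxZ.2, hxZ'.2, hxZ.1 (hts x hx), hxZ'.1 (hts x' hx'),
      ← integral_sub (hint g x r hgint hr0 (hfar x hx)) (hint g x' r hgint hr0 (hfar x' hx'))]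
    refine (enorm_integral_le_lintegral_enorm _).trans ?_
    have hmeas : MeasurableSet {y : E d | r ≤ ‖x - y‖} :=
      measurableSet_le measurable_const (by fun_prop)
    calc ∫⁻ y, ‖K x y * g y - K x' y * g y‖ₑ
        ≤ ∫⁻ y, {y : E d | r ≤ ‖x - y‖}.indicator (fun y => ENNReal.ofReal C *
            (ENNReal.ofReal (r ^ α * ‖x - y‖ ^ (-(d : ℝ) - α)) * ‖g y‖ₑ)) y := by
          refine lintegral_mono fun y => ?_
          by_cases hy : g y = 0
          · simp [hy]
          · have h1 := hfar x hx y hy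
            have h2 := box0_diam hL hx hx'
            have hne : x ≠ y := by
              rintro rfl
              rw [sub_self, norm_zero] at h1
              linarith
            have h3 := hsm x x' y hne (by linarith)
            rw [indicator_of_mem (show y ∈ {y : E d | r ≤ ‖x - y‖} from h1), ← sub_mul, enorm_mul,
              ← mul_assoc, ← ENNReal.ofReal_mul hC0, ← ofReal_norm (K x y - K x' y)]
            gcongr
            calc ‖K x y - K x' y‖ ≤ C * ‖x - x'‖ ^ α * ‖x - y‖ ^ (-(d : ℝ) - α) := by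
                  linarith [norm_nonneg (K y x - K y x')]
              _ ≤ C * r ^ α * ‖x - y‖ ^ (-(d : ℝ) - α) := by gcongr; linarith
              _ = _ := by ring
      _ ≤ _ := by
          rw [lintegral_indicator hmeas, lintegral_const_mul' _ _ ENNReal.ofReal_ne_top, mul_assoc]
          gcongr
          exact hshell _ x r Λ hr0 (hΛ x hx)

end Pool.Agent.H572Z.Sp
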