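import Mathlib
import Pool.Agent.H572Z.Sp.Op

set_option autoImplicit false

/-!
# The weak type (1,1) bound
-/

namespace Pool.Agent.H572Z.Sp

open MeasureTheory Set Filter Topology
open scoped ENNReal Classical

variable {d : ℕ} {op : (E d → ℂ) → E d → ℂ} {D : ℕ} {B C₁ C₂ : ℝ≥0∞}

lemma exists_fin_approx {X ι : Type*} [MeasurableSpace X] [Countable ι] (ν : Measure X)
    (A : ι → Set X) (hA : ∀ i, MeasurableSet (A i)) (I : Set ι) (hfin : ν (⋃ i ∈ I, A i) ≠ ⊤)
    {ε : ℝ≥0∞} (hε : ε ≠ 0) :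
    ∃ F : Finset ι, (∀ i ∈ F, i ∈ I) ∧ ν ((⋃ i ∈ I, A i) \ ⋃ i ∈ F, A i) ≤ ε := by
  have e : (⋃ i ∈ I, A i) = ⋃ F : Finset ι, ⋃ i ∈ F.filter (· ∈ I), A i := by
    ext x
    simp only [Set.mem_iUnion, Finset.mem_filter, exists_prop]
    exact ⟨fun ⟨i, hi, hx⟩ => ⟨{i}, i, ⟨Finset.mem_singleton_self _, hi⟩, hx⟩,
      fun ⟨_, i, hi, hx⟩ => ⟨i, hi.2, hx⟩⟩
  have hdir : Directed (· ⊆ ·) (fun F : Finset ι => ⋃ i ∈ F.filter (· ∈ I), A i) :=
    Monotone.directed_le fun F G hFG x hx => by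
      obtain ⟨i, hi, hx⟩ := mem_iUnion₂.1 hx
      exact mem_iUnion₂.2 ⟨i, Finset.filter_subset_filter _ hFG hi, hx⟩
  have h1 : ν (⋃ i ∈ I, A i) < (⨆ F : Finset ι, ν (⋃ i ∈ F.filter (· ∈ I), A i)) + ε := by
    rw [← hdir.measure_iUnion, ← e]
    exact ENNReal.lt_add_right hfin hε
  rw [ENNReal.iSup_add, lt_iSup_iff] at h1
  obtain ⟨F, hF⟩ := h1
  refine ⟨F.filter (· ∈ I), fun i hi => (Finset.mem_filter.1 hi).2, ?_⟩
  have hsub : (⋃ i ∈ F.filter (· ∈ I), A i) ⊆ ⋃ i ∈ I, A i := fun x hx => by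
    obtain ⟨i, hi, hx⟩ := mem_iUnion₂.1 hx
    exact mem_iUnion₂.2 ⟨i, (Finset.mem_filter.1 hi).2, hx⟩
  rw [measure_sdiff hsub (Finset.measurableSet_biUnion _ fun i _ => hA i).nullMeasurableSet
    (ne_top_of_le_ne_top hfin (measure_mono hsub))]
  exact tsub_le_iff_left.2 hF.le

lemma sum_ind_mem {X ι M : Type*} [AddCommMonoid M] {A : ι → Set X} {F : Finset ι}
    (hd : (F : Set ι).PairwiseDisjoint A) (φ : ι → X → M) {i : ι} (hi : i ∈ F) {x : X}
    (hx : x ∈ A i) : ∑ j ∈ F, (A j).indicator (φ j) x = φ i x := by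
  rw [Finset.sum_eq_single i (fun j hj hne => indicator_of_notMem
    (fun h => Set.disjoint_left.1 (hd hj hi hne) h hx) _) (fun h => absurd hi h),
    indicator_of_mem hx]

lemma sum_ind_not {X ι M : Type*} [AddCommMonoid M] {A : ι → Set X} {F : Finset ι}
    (φ : ι → X → M) {x : X} (hx : x ∉ ⋃ i ∈ F, A i) : ∑ j ∈ F, (A j).indicator (φ j) x = 0 :=
  Finset.sum_eq_zero fun j hj => indicator_of_notMem (fun h => hx (mem_iUnion₂.2 ⟨j, hj, h⟩)) _

lemma CZ.cheb (H : CZ op D B C₁ C₂) {f : E d → ℂ} (hf : MemLp f 2 volume) {t N : ℝ≥0∞}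
    (ht0 : t ≠ 0) (ht : t ≠ ⊤) (h : ∫⁻ x, ‖f x‖ₑ ^ 2 ≤ t * N) :
    t * volume {x | t < ‖op f x‖ₑ} ≤ B * N := by
  refine (ENNReal.mul_le_mul_iff_right ht0 ht).1 ?_
  calc t * (t * volume {x | t < ‖op f x‖ₑ}) = t ^ 2 * volume {x | t < ‖op f x‖ₑ} := by ring
    _ ≤ t ^ 2 * volume {x | t ^ 2 ≤ ‖op f x‖ₑ ^ 2} := by
        gcongr with x
        intro hx
        exact pow_le_pow_left' (le_of_lt hx) 2
    _ ≤ ∫⁻ x, ‖op f x‖ₑ ^ 2 := mul_meas_ge_le_lintegral ((H.meas f).enorm.pow_const 2) _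
    _ ≤ B * (t * N) := (H.l2 f hf).trans (by gcongr)
    _ = _ := by ring

lemma CZ.ae_zero (H : CZ op D B C₁ C₂) {f : E d → ℂ} (hf : MemLp f 2 volume)
    (h : ∫⁻ x, ‖f x‖ₑ = 0) : ∀ᵐ x, op f x = 0 := by
  have h1 : ∀ᵐ x, ‖f x‖ₑ = 0 := (lintegral_eq_zero_iff' hf.1.enorm).1 h
  have h2 : ∫⁻ x, ‖f x‖ₑ ^ 2 = 0 := by
    rw [← lintegral_zero (μ := (volume : Measure (E d)))]
    exact lintegral_congr_ae (h1.mono fun x hx => by simp [hx])
  have h3 := H.l2 f hf
  rw [h2, mul_zero, nonpos_iff_eq_zero, lintegral_eq_zero_iff ((H.meas f).enorm.pow_const 2)] at h3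
  exact h3.mono fun x hx => by simpa using hx

lemma CZ.sum_le (H : CZ op D B C₁ C₂) {ι : Type*} (b : ι → E d → ℂ) (F : Finset ι)
    (hb : ∀ i ∈ F, MemLp (b i) 2 volume) :
    ∀ᵐ x, ‖op (∑ i ∈ F, b i) x‖ₑ ≤ ∑ i ∈ F, ‖op (b i) x‖ₑ := by
  induction F using Finset.induction_on with
  | empty =>
    filter_upwards [H.ae_zero (f := 0) MemLp.zero (by simp)] with x hx
    simp [hx]
  | insert a s ha ih =>
    have h1 : ∀ i ∈ s, MemLp (b i) 2 volume := fun i hi => hb i (Finset.mem_insert_of_mem hi)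
    rw [Finset.sum_insert ha]
    filter_upwards [ih h1, H.add _ _ (hb a (Finset.mem_insert_self _ _)) (memLp_finsetSum' s h1)]
      with x hx1 hx2
    rw [hx2, Finset.sum_insert ha, Pi.add_apply]
    exact (enorm_add_le _ _).trans (by gcongr)

theorem CZ.weak (hd : 1 ≤ d) (H : CZ op D B C₁ C₂) (hB : B ≠ ⊤) (hC : C₁ ≠ ⊤) :
    ∃ Cw : ℝ≥0∞, Cw ≠ ⊤ ∧ ∀ g : E d → ℂ, Measurable g → MemLp g 2 volume → ∀ t : ℝ≥0∞,
      t * volume {x | t < ‖op g x‖ₑ} ≤ Cw * ∫⁻ x, ‖g x‖ₑ := by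
  refine ⟨4 * (B + B * 2 ^ d + ((2 * D + 1) ^ d + C₁ * 2) + B) + 1, by finiteness,
    fun g hgm hg t => ?_⟩
  set N := ∫⁻ x, ‖g x‖ₑ with hN
  by_cases ht0 : t = 0
  · simp [ht0]
  by_cases htt : t = ⊤
  · simp [htt]
  by_cases hNt : N = ⊤
  · rw [hNt, ENNReal.mul_top (by simp)]; exact le_top
  by_cases hN0 : N = 0
  · have : volume {x | t < ‖op g x‖ₑ} = 0 := by
      refine measure_mono_null (fun x hx => ?_) (ae_iff.1 (H.ae_zero hg hN0))
      intro h
      simp only [mem_ofPred_eq, h, enorm_zero] at hx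
      exact not_lt_zero hx
    simp [this]
  have hgi : Integrable g volume := ⟨hg.1, lt_top_iff_ne_top.2 hNt⟩
  set l := t / 4 with hl
  have hl0 : l ≠ 0 := (ENNReal.div_pos ht0 (by norm_num)).ne'
  have hlt : l ≠ ⊤ := ENNReal.div_ne_top htt (by norm_num)
  have htl : t = 4 * l := (ENNReal.mul_div_cancel (by norm_num) (by norm_num)).symm
  set L : ℝ := max 1 (N / l).toReal with hL
  have hL0 : 0 < L := lt_of_lt_of_le one_pos (le_max_left _ _)
  have htop : N ≤ l * vv d L 0 := by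
    have h1 : 1 ≤ ENNReal.ofReal L := by
      rw [← ENNReal.ofReal_one]; exact ENNReal.ofReal_le_ofReal (le_max_left _ _)
    have h2 : N / l ≤ ENNReal.ofReal L := by
      rw [← ENNReal.ofReal_toReal (ENNReal.div_ne_top hNt hl0)]
      exact ENNReal.ofReal_le_ofReal (le_max_right _ _)
    rw [← ENNReal.div_le_iff' hl0 hlt, vv, pow_zero, div_one]
    exact h2.trans (le_self_pow₀ h1 (by omega))
  set Bad : Idx d → Prop := fun i => l * vv d L i.1 < ∫⁻ y in box L 0 i, ‖g y‖ₑ with hBad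
  set Ω := ⋃ i ∈ Sel L Bad, box L 0 i with hΩ
  have hΩm : MeasurableSet Ω := MeasurableSet.biUnion (to_countable _) fun i _ => box_meas _ _ _
  have hup : ∀ i ∈ Sel L Bad, ∫⁻ y in box L 0 i, ‖g y‖ₑ ≤ l * 2 ^ d * vv d L i.1 := by
    intro i hi
    obtain ⟨x, hx⟩ := box_nonempty hL0 0 i
    obtain ⟨n, m⟩ := i
    rcases n with _ | n
    · exact absurd (hi.1.trans_le ((setLIntegral_le_lintegral _ _).trans htop)) (lt_irrefl _)
    · have hsub : box L 0 (n + 1, m) ⊆ box L 0 (idx L n x) :=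
        box0_sub hL0 (Nat.le_succ n) (mem_idx hL0 _ _) hx
      have := not_lt.1 (hi.2 (idx L n x) (Nat.lt_succ_self n) hsub)
      refine (lintegral_mono_set hsub).trans (this.trans (le_of_eq ?_))
      rw [show (idx L n x).1 = n from rfl, vv_succ L n, mul_assoc]
  have hout : ∀ᵐ x, x ∉ Ω → ‖g x‖ₑ ≤ l := by
    filter_upwards [density hL0 hgm.enorm (t := l) 0] with x hx hxΩ
    refine hx fun n _ => not_lt.1 fun h => hxΩ ?_
    obtain ⟨i, hi, hxi⟩ := exists_sel hL0 (Bad := Bad) h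
    exact mem_iUnion₂.2 ⟨i, hi, hxi⟩
  obtain ⟨F, hF, hFε⟩ := exists_fin_approx (volume.withDensity fun x => ‖g x‖ₑ ^ 2) (box L 0)
    (box_meas L 0) (Sel L Bad) (by
      rw [withDensity_apply _ hΩm]
      exact ne_top_of_le_ne_top (l2_ne_top hg) (setLIntegral_le_lintegral _ _))
    (ε := l * N) (mul_ne_zero hl0 hN0)
  set U := ⋃ i ∈ F, box L 0 i with hU
  have hUm : MeasurableSet U := Finset.measurableSet_biUnion _ fun i _ => box_meas _ _ _
  have hdisj : (F : Set (Idx d)).PairwiseDisjoint (box L 0) := (sel_disjoint hL0 Bad).subset hF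
  have hsumN : ∑ i ∈ F, ∫⁻ y in box L 0 i, ‖g y‖ₑ ≤ N := by
    rw [← lintegral_biUnion_finset hdisj fun i _ => box_meas _ _ _]
    exact setLIntegral_le_lintegral _ _
  set c : Idx d → ℂ := fun i => ⨍ y in box L 0 i, g y with hc
  have hcle : ∀ i, ‖c i‖ₑ * vv d L i.1 ≤ ∫⁻ y in box L 0 i, ‖g y‖ₑ := by
    intro i
    refine le_trans (le_of_eq ?_) (enorm_integral_le_lintegral_enorm _)
    rw [← measure_smul_setAverage g (box_vol_ne_top L 0 i), enorm_smul, mul_comm,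
      Real.enorm_of_nonneg measureReal_nonneg, ofReal_measureReal (box_vol_ne_top L 0 i), box0_vol]
  have hcle' : ∀ i ∈ F, ‖c i‖ₑ ≤ l * 2 ^ d := fun i hi =>
    (ENNReal.mul_le_mul_iff_left (vv_ne_zero hL0 _) (vv_ne_top _ _)).1
      ((hcle i).trans (hup i (hF i hi)))
  set b : Idx d → E d → ℂ := fun i => (box L 0 i).indicator (fun y => g y - c i) with hb
  have hcL : ∀ i, MemLp ((box L 0 i).indicator (fun _ => c i)) 2 volume := fun i =>
    memLp_indicator_const 2 (box_meas _ _ _) _ (Or.inr (box_vol_ne_top _ _ _))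
  have hbL : ∀ i, MemLp (b i) 2 volume := fun i => by
    have := (hg.indicator (box_meas L 0 i)).sub (hcL i)
    rwa [← indicator_sub'] at this
  set g₀ := Ωᶜ.indicator g with hg₀
  set γ := ∑ i ∈ F, (box L 0 i).indicator (fun _ => c i) with hγ
  set β := ∑ i ∈ F, b i with hβ
  set ρ := (Ω \ U).indicator g with hρ
  have hg₀L : MemLp g₀ 2 volume := hg.indicator hΩm.compl
  have hγL : MemLp γ 2 volume := memLp_finsetSum' _ fun i _ => hcL i
  have hβL : MemLp β 2 volume := memLp_finsetSum' _ fun i _ => hbL i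
  have hρL : MemLp ρ 2 volume := hg.indicator (hΩm.diff hUm)
  have hdec : g = g₀ + γ + β + ρ := by
    funext x
    simp only [Pi.add_apply, hγ, hβ, Finset.sum_apply, hb, hg₀, hρ]
    by_cases hx : x ∈ U
    · obtain ⟨i, hi, hxi⟩ := mem_iUnion₂.1 hx
      have hxΩ : x ∈ Ω := mem_iUnion₂.2 ⟨i, hF i hi, hxi⟩
      rw [sum_ind_mem hdisj _ hi hxi, sum_ind_mem hdisj _ hi hxi,
        indicator_of_notMem (by simpa using hxΩ), indicator_of_notMem (fun h => h.2 hx)]
      ring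
    · rw [sum_ind_not _ hx, sum_ind_not _ hx]
      by_cases hxΩ : x ∈ Ω
      · rw [indicator_of_notMem (by simpa using hxΩ), indicator_of_mem (show x ∈ Ω \ U from ⟨hxΩ, hx⟩)]
        ring
      · rw [indicator_of_mem (show x ∈ Ωᶜ from hxΩ), indicator_of_notMem (fun h => hxΩ h.1)]
        ring
  have e1 : l * volume {x | l < ‖op g₀ x‖ₑ} ≤ B * N := by
    refine H.cheb hg₀L hl0 hlt ?_
    rw [hN, ← lintegral_const_mul' _ _ hlt]
    refine lintegral_mono_ae (hout.mono fun x hx => ?_)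
    by_cases hxΩ : x ∈ Ω
    · rw [hg₀, indicator_of_notMem (by simpa using hxΩ)]; simp
    · rw [hg₀, indicator_of_mem (show x ∈ Ωᶜ from hxΩ), sq]
      gcongr
      exact hx hxΩ
  have e2 : l * volume {x | l < ‖op γ x‖ₑ} ≤ B * (2 ^ d * N) := by
    refine H.cheb hγL hl0 hlt ?_
    calc ∫⁻ x, ‖γ x‖ₑ ^ 2 = ∫⁻ x, ∑ i ∈ F, (box L 0 i).indicator (fun _ => ‖c i‖ₑ ^ 2) x := by
          refine lintegral_congr fun x => ?_
          simp only [hγ, Finset.sum_apply]
          by_cases hx : x ∈ U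
          · obtain ⟨i, hi, hxi⟩ := mem_iUnion₂.1 hx
            rw [sum_ind_mem hdisj _ hi hxi, sum_ind_mem hdisj _ hi hxi]
          · rw [sum_ind_not _ hx, sum_ind_not _ hx]; simp
      _ = ∑ i ∈ F, ‖c i‖ₑ ^ 2 * vv d L i.1 := by
          rw [lintegral_finsetSum _ fun i _ => measurable_const.indicator (box_meas _ _ _)]
          exact Finset.sum_congr rfl fun i _ => by
            rw [lintegral_indicator_const (box_meas _ _ _), box0_vol]
      _ ≤ ∑ i ∈ F, (l * 2 ^ d) * ∫⁻ y in box L 0 i, ‖g y‖ₑ := by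
          refine Finset.sum_le_sum fun i hi => ?_
          rw [sq, mul_assoc]
          gcongr
          · exact hcle' i hi
          · exact hcle i
      _ ≤ l * (2 ^ d * N) := by rw [← Finset.mul_sum, ← mul_assoc]; gcongr
  have e4 : l * volume {x | l < ‖op ρ x‖ₑ} ≤ B * N := by
    refine H.cheb hρL hl0 hlt (le_trans (le_of_eq ?_) hFε)
    rw [withDensity_apply _ (hΩm.diff hUm), ← lintegral_indicator (hΩm.diff hUm)]
    refine lintegral_congr fun x => ?_
    by_cases hx : x ∈ Ω \ U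
    · rw [hρ, indicator_of_mem hx, indicator_of_mem hx]
    · rw [hρ, indicator_of_notMem hx, indicator_of_notMem hx]; simp
  have e3 : l * volume {x | l < ‖op β x‖ₑ} ≤ ((2 * D + 1) ^ d + C₁ * 2) * N := by
    set V := ⋃ i ∈ F, box L D i with hV
    have hVm : MeasurableSet V := Finset.measurableSet_biUnion _ fun i _ => box_meas _ _ _
    have a1 : l * volume V ≤ (2 * D + 1) ^ d * N := by
      calc l * volume V ≤ l * ∑ i ∈ F, volume (box L D i) := by
            gcongr; exact measure_biUnion_finset_le _ _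
        _ = (2 * D + 1) ^ d * ∑ i ∈ F, l * vv d L i.1 := by
            rw [Finset.mul_sum, Finset.mul_sum]
            exact Finset.sum_congr rfl fun i _ => by rw [box_vol]; ring
        _ ≤ _ := by
            gcongr
            exact (Finset.sum_le_sum fun i hi => (hF i hi).1.le).trans hsumN
    have a2 : l * (volume.restrict Vᶜ) {x | l ≤ ‖op β x‖ₑ} ≤ C₁ * 2 * N := by
      calc l * (volume.restrict Vᶜ) {x | l ≤ ‖op β x‖ₑ} ≤ ∫⁻ x in Vᶜ, ‖op β x‖ₑ :=
            mul_meas_ge_le_lintegral (H.meas β).enorm _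
        _ ≤ ∫⁻ x in Vᶜ, ∑ i ∈ F, ‖op (b i) x‖ₑ :=
            lintegral_mono_ae (ae_restrict_of_ae (H.sum_le b F fun i _ => hbL i))
        _ = ∑ i ∈ F, ∫⁻ x in Vᶜ, ‖op (b i) x‖ₑ :=
            lintegral_finsetSum _ fun i _ => (H.meas _).enorm
        _ ≤ ∑ i ∈ F, C₁ * (2 * ∫⁻ y in box L 0 i, ‖g y‖ₑ) := by
            refine Finset.sum_le_sum fun i hi => ?_
            refine (lintegral_mono_set (compl_subset_compl.2 fun x hx =>
              mem_iUnion₂.2 ⟨i, hi, hx⟩)).trans ((H.bad L hL0 i (b i) (hbL i)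
              (fun y hy => indicator_of_notMem hy _) ?_).trans ?_)
            · rw [hb, integral_indicator (box_meas _ _ _)]
              exact setAverage_sub_setAverage (box_vol_ne_top _ _ _) g
            · gcongr
              calc ∫⁻ y, ‖b i y‖ₑ = ∫⁻ y in box L 0 i, ‖g y - c i‖ₑ := by
                    rw [← lintegral_indicator (box_meas _ _ _)]
                    refine lintegral_congr fun y => ?_
                    rw [hb, enorm_indicator_eq_indicator_enorm]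
                _ ≤ ∫⁻ y in box L 0 i, (‖g y‖ₑ + ‖c i‖ₑ) := lintegral_mono fun y => enorm_sub_le
                _ = (∫⁻ y in box L 0 i, ‖g y‖ₑ) + ‖c i‖ₑ * vv d L i.1 := by
                    rw [lintegral_add_right _ measurable_const, setLIntegral_const, box0_vol]
                _ ≤ _ := by rw [two_mul]; gcongr; exact hcle i
        _ ≤ _ := by rw [← Finset.mul_sum, ← Finset.mul_sum, mul_assoc]; gcongr
    calc l * volume {x | l < ‖op β x‖ₑ}
        ≤ l * (volume V + (volume.restrict Vᶜ) {x | l ≤ ‖op β x‖ₑ}) := by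
          gcongr
          rw [Measure.restrict_apply' hVm.compl]
          refine le_trans (measure_mono fun x hx => ?_) (measure_union_le _ _)
          by_cases h : x ∈ V
          · exact Or.inl h
          · exact Or.inr ⟨show l ≤ ‖op β x‖ₑ from le_of_lt hx, h⟩
      _ ≤ _ := by rw [mul_add, add_mul]; exact add_le_add a1 a2
  have hcov : volume {x | t < ‖op g x‖ₑ} ≤ volume {x | l < ‖op g₀ x‖ₑ} +
      volume {x | l < ‖op γ x‖ₑ} + volume {x | l < ‖op β x‖ₑ} + volume {x | l < ‖op ρ x‖ₑ} := by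
    refine le_trans (measure_mono_ae ?_) ((measure_union_le _ _).trans (add_le_add_left
      ((measure_union_le _ _).trans (add_le_add_left (measure_union_le _ _) _)) _))
    filter_upwards [H.add _ _ ((hg₀L.add hγL).add hβL) hρL, H.add _ _ (hg₀L.add hγL) hβL,
      H.add _ _ hg₀L hγL] with x h1 h2 h3 hx
    by_contra hcon
    have hcon' : ¬ (((l < ‖op g₀ x‖ₑ ∨ l < ‖op γ x‖ₑ) ∨ l < ‖op β x‖ₑ) ∨ l < ‖op ρ x‖ₑ) := hcon
    push Not at hcon'
    have hx' : t < ‖op g x‖ₑ := hx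
    rw [hdec, h1, Pi.add_apply, h2, Pi.add_apply, h3, Pi.add_apply, htl] at hx'
    refine absurd hx' (not_lt.2 ?_)
    calc ‖op g₀ x + op γ x + op β x + op ρ x‖ₑ
        ≤ ‖op g₀ x‖ₑ + ‖op γ x‖ₑ + ‖op β x‖ₑ + ‖op ρ x‖ₑ :=
          (enorm_add_le _ _).trans (add_le_add_left ((enorm_add_le _ _).trans
            (add_le_add_left (enorm_add_le _ _) _)) _)
      _ ≤ l + l + l + l := by
          gcongr
          exacts [hcon'.1.1.1, hcon'.1.1.2, hcon'.1.2, hcon'.2]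
      _ = 4 * l := by ring
  calc t * volume {x | t < ‖op g x‖ₑ} ≤ t * (volume {x | l < ‖op g₀ x‖ₑ} +
      volume {x | l < ‖op γ x‖ₑ} + volume {x | l < ‖op β x‖ₑ} + volume {x | l < ‖op ρ x‖ₑ}) := by
        gcongr
    _ = 4 * (l * volume {x | l < ‖op g₀ x‖ₑ} + l * volume {x | l < ‖op γ x‖ₑ} +
        l * volume {x | l < ‖op β x‖ₑ} + l * volume {x | l < ‖op ρ x‖ₑ}) := by
        conv_lhs => rw [htl]
        ring
    _ ≤ 4 * (B * N + B * (2 ^ d * N) + ((2 * D + 1) ^ d + C₁ * 2) * N + B * N) := by gcongr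
    _ = (4 * (B + B * 2 ^ d + ((2 * D + 1) ^ d + C₁ * 2) + B)) * N := by ring
    _ ≤ _ := by gcongr; exact le_self_add

end Pool.Agent.H572Z.Sp
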