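import Mathlib
import Pool.Agent.H572Z.Sp.Weak

set_option autoImplicit false

/-!
# Pointwise sparse domination
-/

namespace Pool.Agent.H572Z.Sp

open MeasureTheory Set Filter Topology
open scoped ENNReal Classical

variable {d : ℕ} {op : (E d → ℂ) → E d → ℂ} {D : ℕ} {B C₁ C₂ : ℝ≥0∞}

/-- The average of `|g|` over a dilated cube. -/
noncomputable def al (L : ℝ) (D : ℕ) (g : E d → ℂ) (i : Idx d) : ℝ≥0∞ :=
  (volume (box L D i))⁻¹ * ∫⁻ y in box L D i, ‖g y‖ₑ

lemma al_mul {L : ℝ} (hL : 0 < L) (D : ℕ) (g : E d → ℂ) (i : Idx d) :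
    al L D g i * volume (box L D i) = ∫⁻ y in box L D i, ‖g y‖ₑ := by
  rw [al, mul_right_comm, ENNReal.inv_mul_cancel (box_vol_ne_zero hL D i) (box_vol_ne_top L D i),
    one_mul]

lemma al_ne_top {L : ℝ} (hL : 0 < L) (D : ℕ) {g : E d → ℂ} (hg : MemLp g 2 volume) (i : Idx d) :
    al L D g i ≠ ⊤ := by
  refine ENNReal.mul_ne_top (ENNReal.inv_ne_top.2 (box_vol_ne_zero hL D i)) ?_
  have : IsFiniteMeasure ((volume : Measure (E d)).restrict (box L D i)) :=
    isFiniteMeasure_restrict.2 (box_vol_ne_top _ _ _)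
  exact ((hg.restrict _).integrable (by norm_num)).2.ne

lemma lintegral_ind {s : Set (E d)} (hs : MeasurableSet s) (g : E d → ℂ) :
    ∫⁻ y, ‖s.indicator g y‖ₑ = ∫⁻ y in s, ‖g y‖ₑ := by
  rw [← lintegral_indicator hs]
  exact lintegral_congr fun y => enorm_indicator_eq_indicator_enorm _ _

lemma cancel_big {A c m v : ℝ≥0∞} {k : ℝ≥0∞} (hA0 : A ≠ 0) (hA : A ≠ ⊤) (h : A * m ≤ c * v)
    (hc : k * c ≤ A) : k * m ≤ v := by
  refine (ENNReal.mul_le_mul_iff_right hA0 hA).1 ?_
  calc A * (k * m) = k * (A * m) := by ring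
    _ ≤ k * (c * v) := by gcongr
    _ = (k * c) * v := by ring
    _ ≤ A * v := by gcongr

theorem CZ.step (hd : 1 ≤ d) (H : CZ op D B C₁ C₂) (hD : 2 ≤ D) (hB : B ≠ ⊤) (hC₁ : C₁ ≠ ⊤)
    (hC₂ : C₂ ≠ ⊤) : ∃ Cl : ℝ≥0∞, Cl ≠ ⊤ ∧ ∀ L : ℝ, 0 < L → ∀ g : E d → ℂ, Measurable g →
      MemLp g 2 volume → ∀ Q : Idx d, ∃ ch : Set (Idx d), ch.PairwiseDisjoint (box L 0) ∧
        (∀ P ∈ ch, Q.1 < P.1 ∧ box L 0 P ⊆ box L 0 Q) ∧
        2 * volume (⋃ P ∈ ch, box L 0 P) ≤ volume (box L 0 Q) ∧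
        ∀ᵐ x, x ∈ box L 0 Q →
          (x ∉ (⋃ P ∈ ch, box L 0 P) → ‖op ((box L D Q).indicator g) x‖ₑ ≤ Cl * al L D g Q) ∧
          ∀ P ∈ ch, x ∈ box L 0 P → ‖op ((box L D Q).indicator g) x‖ₑ ≤
            Cl * al L D g Q + ‖op ((box L D P).indicator g) x‖ₑ := by
  obtain ⟨Cw, hCw, hW⟩ := H.weak hd hB hC₁
  have hW' : ∀ f : E d → ℂ, Measurable f → MemLp f 2 volume → ∀ A α V : ℝ≥0∞, α ≠ ⊤ →
      ∫⁻ x, ‖f x‖ₑ ≤ α * V → A * volume {x | A * α < ‖op f x‖ₑ} ≤ Cw * V := by
    intro f hfm hf A α V hα h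
    by_cases h0 : α = 0
    · rw [h0, zero_mul, nonpos_iff_eq_zero] at h
      have : volume {x | A * α < ‖op f x‖ₑ} = 0 := by
        refine measure_mono_null (fun x hx => ?_) (ae_iff.1 (H.ae_zero hf h))
        intro h
        simp only [mem_ofPred_eq, h, enorm_zero] at hx
        exact not_lt_zero hx
      simp [this]
    · refine (ENNReal.mul_le_mul_iff_right h0 hα).1 ?_
      calc α * (A * volume {x | A * α < ‖op f x‖ₑ}) = (A * α) * volume {x | A * α < ‖op f x‖ₑ} := by
            ring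
        _ ≤ Cw * (α * V) := (hW f hfm hf _).trans (by gcongr)
        _ = _ := by ring
  set M : ℝ≥0∞ := (2 * D + 1) ^ d with hM
  have hMt : M ≠ ⊤ := by finiteness
  set A : ℝ≥0∞ := 1 + 8 * 2 ^ d * (Cw * M) + 4 * (M * M) with hA
  have hAt : A ≠ ⊤ := by finiteness
  have hA1 : 1 ≤ A := le_self_add.trans le_self_add
  have hA0 : A ≠ 0 := (lt_of_lt_of_le one_pos hA1).ne'
  have hA2 : 8 * 2 ^ d * (Cw * M) ≤ A := le_add_self.trans le_self_add
  have hA3 : 4 * (M * M) ≤ A := le_add_self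
  refine ⟨A + A * A + C₂ * (A * M), by finiteness, fun L hL g hgm hg Q => ?_⟩
  set α := al L D g Q with hα
  have hαt : α ≠ ⊤ := al_ne_top hL D hg Q
  set gQ := (box L D Q).indicator g with hgQ
  have hgQm : Measurable gQ := hgm.indicator (box_meas _ _ _)
  have hgQL : MemLp gQ 2 volume := hg.indicator (box_meas _ _ _)
  have hgQ1 : ∫⁻ y, ‖gQ y‖ₑ = α * (M * vv d L Q.1) := by
    rw [hgQ, lintegral_ind (box_meas _ _ _), ← al_mul hL, box_vol]
  set S := {x | A * α < ‖op gQ x‖ₑ} with hS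
  have hSm : MeasurableSet S := measurableSet_lt measurable_const (H.meas _).enorm
  have hSv : 8 * 2 ^ d * volume S ≤ vv d L Q.1 :=
    cancel_big hA0 hAt ((hW' gQ hgQm hgQL A α _ hαt hgQ1.le).trans (le_of_eq (mul_assoc _ _ _).symm))
      hA2
  set Bad : Idx d → Prop := fun P => Q.1 ≤ P.1 ∧ box L 0 P ⊆ box L 0 Q ∧
    (vv d L P.1 < 2 * 2 ^ d * volume (box L 0 P ∩ S) ∨
      A * α * volume (box L D P) < ∫⁻ y in box L D P, ‖gQ y‖ₑ) with hBad
  have hQbad : ¬ Bad Q := by
    rintro ⟨-, -, h | h⟩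
    · refine absurd h (not_lt.2 (le_trans ?_ hSv))
      gcongr
      · norm_num
      · exact inter_subset_right
    · refine absurd h (not_lt.2 ((setLIntegral_le_lintegral _ _).trans ?_))
      rw [hgQ1, box_vol]
      gcongr
      exact le_mul_of_one_le_left' hA1
  have hlt : ∀ P ∈ Sel L Bad, Q.1 < P.1 := by
    intro P hP
    refine lt_of_le_of_ne hP.1.1 fun h => hQbad ?_
    obtain ⟨x, hx⟩ := box_nonempty hL 0 P
    rw [box0_eq hL (hP.1.2.1 hx) hx h]
    exact hP.1
  have hanc : ∀ P ∈ Sel L Bad, ∀ x ∈ box L 0 P, ∀ n, Q.1 ≤ n → n < P.1 →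
      2 * 2 ^ d * volume (box L 0 (idx L n x) ∩ S) ≤ vv d L n ∧
      ∫⁻ y in box L D (idx L n x), ‖gQ y‖ₑ ≤ A * α * (M * vv d L n) := by
    intro P hP x hx n h1 h2
    have h3 := hP.2 (idx L n x) h2 (box0_sub hL h2.le (mem_idx hL _ _) hx)
    simp only [hBad, not_and, not_or, not_lt] at h3
    have h4 := h3 h1 (box0_sub hL h1 (hP.1.2.1 hx) (mem_idx hL _ _))
    rw [box_vol] at h4
    exact h4
  refine ⟨Sel L Bad, sel_disjoint hL Bad, fun P hP => ⟨hlt P hP, hP.1.2.1⟩, ?_, ?_⟩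
  · set I₁ := {P : Idx d | vv d L P.1 < 2 * 2 ^ d * volume (box L 0 P ∩ S)} with hI₁
    set I₂ := fun c : Fin d → ZMod (2 * D + 1) => {P : Idx d | color D P = c ∧
      A * α * volume (box L D P) < ∫⁻ y in box L D P, ‖gQ y‖ₑ} with hI₂
    have a1 : 4 * volume (⋃ P ∈ I₁, box L 0 P) ≤ vv d L Q.1 := by
      have := union_le volume ((2 * 2 ^ d : ℝ≥0∞) • (volume : Measure (E d)).restrict S) (box L 0)
        I₁ (lam0 hL _) (box_meas L 0) (fun i hi => by
          rw [Measure.smul_apply, smul_eq_mul, Measure.restrict_apply (box_meas _ _ _), box0_vol]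
          exact le_of_lt hi)
      rw [Measure.smul_apply, smul_eq_mul, Measure.restrict_apply' hSm] at this
      calc 4 * volume (⋃ P ∈ I₁, box L 0 P) ≤ 4 * (2 * 2 ^ d * volume S) := by
            gcongr
            exact this.trans (by gcongr; exact inter_subset_right)
        _ = 8 * 2 ^ d * volume S := by ring
        _ ≤ _ := hSv
    have a2 : ∀ c, A * volume (⋃ P ∈ I₂ c, box L D P) ≤ M * vv d L Q.1 := by
      intro c
      by_cases h0 : α = 0
      · have : I₂ c = ∅ := by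
          refine eq_empty_of_forall_notMem fun P hP => ?_
          have h1 := hP.2.trans_le ((setLIntegral_le_lintegral _ _).trans hgQ1.le)
          rw [h0, zero_mul] at h1
          exact not_lt_zero h1
        simp [this]
      · have := union_le ((A * α) • (volume : Measure (E d))) (volume.withDensity fun y => ‖gQ y‖ₑ)
          (box L D) (I₂ c) ((lam_color hL D c).mono (image_mono fun i hi => hi.1)) (box_meas L D)
          (fun i hi => by
            rw [Measure.smul_apply, smul_eq_mul, withDensity_apply _ (box_meas _ _ _)]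
            exact hi.2.le)
        rw [Measure.smul_apply, smul_eq_mul, withDensity_apply _
          (MeasurableSet.biUnion (to_countable _) fun i _ => box_meas _ _ _)] at this
        refine (ENNReal.mul_le_mul_iff_right h0 hαt).1 ?_
        calc α * (A * volume (⋃ P ∈ I₂ c, box L D P)) = A * α * volume (⋃ P ∈ I₂ c, box L D P) := by
              ring
          _ ≤ _ := this.trans ((setLIntegral_le_lintegral _ _).trans hgQ1.le)
    have a3 : 4 * volume (⋃ c, ⋃ P ∈ I₂ c, box L D P) ≤ vv d L Q.1 := by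
      refine cancel_big hA0 hAt ?_ hA3
      calc A * volume (⋃ c, ⋃ P ∈ I₂ c, box L D P) ≤ A * ∑ c, volume (⋃ P ∈ I₂ c, box L D P) := by
            gcongr; exact measure_iUnion_fintype_le _ _
        _ ≤ ∑ _c : Fin d → ZMod (2 * D + 1), M * vv d L Q.1 := by
            rw [Finset.mul_sum]; exact Finset.sum_le_sum fun c _ => a2 c
        _ = _ := by
            rw [Finset.sum_const, Finset.card_univ, Fintype.card_fun, ZMod.card, Fintype.card_fin,
              nsmul_eq_mul, mul_assoc]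
            congr 1
            rw [hM]; push_cast; rfl
    refine (ENNReal.mul_le_mul_iff_right (a := 2) (by norm_num) (by norm_num)).1 ?_
    calc 2 * (2 * volume (⋃ P ∈ Sel L Bad, box L 0 P)) = 4 * volume (⋃ P ∈ Sel L Bad, box L 0 P) := by
          ring
      _ ≤ 4 * (volume (⋃ P ∈ I₁, box L 0 P) + volume (⋃ c, ⋃ P ∈ I₂ c, box L D P)) := by
          gcongr
          refine le_trans (measure_mono (iUnion₂_subset fun P hP x hx => ?_)) (measure_union_le _ _)
          rcases hP.1.2.2 with h | h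
          · exact Or.inl (mem_iUnion₂.2 ⟨P, h, hx⟩)
          · exact Or.inr (mem_iUnion.2 ⟨color D P, mem_iUnion₂.2 ⟨P, ⟨rfl, h⟩,
              box0_sub_star hL D P hx⟩⟩)
      _ ≤ vv d L Q.1 + vv d L Q.1 := by rw [mul_add]; exact add_le_add a1 a3
      _ = _ := by rw [box0_vol, two_mul]
  · have b1 : ∀ᵐ x, x ∈ box L 0 Q → x ∉ (⋃ P ∈ Sel L Bad, box L 0 P) → x ∉ S := by
      filter_upwards [density hL (φ := S.indicator 1) (measurable_const.indicator hSm) (t := 2⁻¹)
        Q.1] with x hx hxQ hxn hxS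
      have : S.indicator (1 : E d → ℝ≥0∞) x ≤ 2⁻¹ := by
        refine hx fun n hn => ?_
        have h1 : ¬ Bad (idx L n x) := fun h => by
          obtain ⟨i, hi, hxi⟩ := exists_sel hL h
          exact hxn (mem_iUnion₂.2 ⟨i, hi, hxi⟩)
        simp only [hBad, not_and, not_or, not_lt] at h1
        have h2 := (h1 hn (box0_sub hL hn hxQ (mem_idx hL _ _))).1
        rw [lintegral_indicator_one hSm, Measure.restrict_apply hSm, inter_comm,
          ← ENNReal.mul_le_iff_le_inv (by norm_num) (by norm_num)]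
        refine le_trans ?_ h2
        gcongr
        exact le_mul_of_one_le_right' (one_le_pow₀ (by norm_num))
      rw [indicator_of_mem hxS] at this
      simp only [Pi.one_apply] at this
      exact absurd this (not_le.2 (by norm_num))
    have b2 : ∀ P : Idx d, ∀ᵐ x, P ∈ Sel L Bad → x ∈ box L 0 P → ‖op gQ x‖ₑ ≤
        (A + A * A + C₂ * (A * M)) * α + ‖op ((box L D P).indicator g) x‖ₑ := by
      intro P
      by_cases hP : P ∈ Sel L Bad
      swap
      · exact Eventually.of_forall fun x h => absurd h hP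
      obtain ⟨x₀, hx₀⟩ := box_nonempty hL 0 P
      have hPQ : box L D P ⊆ box L D Q := star_mono hL (hlt P hP).le (hP.1.2.1 hx₀) hx₀
      set gP := (box L D P).indicator g with hgP
      set g' := (box L D Q \ box L D P).indicator g with hg'
      have hgPL : MemLp gP 2 volume := hg.indicator (box_meas _ _ _)
      have hg'L : MemLp g' 2 volume := hg.indicator ((box_meas _ _ _).diff (box_meas _ _ _))
      have hdec : gQ = gP + g' := by
        funext y
        simp only [hgQ, hgP, hg', Pi.add_apply]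
        by_cases h1 : y ∈ box L D P
        · rw [indicator_of_mem h1, indicator_of_mem (hPQ h1),
            indicator_of_notMem (fun h => h.2 h1), add_zero]
        · rw [indicator_of_notMem h1, zero_add]
          by_cases h2 : y ∈ box L D Q
          · rw [indicator_of_mem h2, indicator_of_mem (show y ∈ _ \ _ from ⟨h2, h1⟩)]
          · rw [indicator_of_notMem h2, indicator_of_notMem (fun h => h2 h.1)]
      have hg'le : ∀ y, ‖g' y‖ₑ ≤ ‖gQ y‖ₑ := fun y => by
        by_cases h : y ∈ box L D Q \ box L D P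
        · rw [hg', hgQ, indicator_of_mem h, indicator_of_mem h.1]
        · rw [hg', indicator_of_notMem h]; simp
      obtain ⟨Z, hZ, hosc⟩ := H.osc L hL P g' (A * α * M) hg'L
        ((box_bounded hL D Q).subset (support_indicator_subset.trans sdiff_subset))
        (fun y hy => indicator_of_notMem (fun h => h.2 hy) _) (fun x hx k => by
          have hv : ∀ n, P.1 ≤ n + (k + 1) →
              vv d L n ≤ ENNReal.ofReal (2 ^ k * (D * (L / 2 ^ P.1))) ^ d := by
            intro n hn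
            rw [vv]
            gcongr
            have h1 : (2 : ℝ) ^ P.1 ≤ 2 ^ (n + (k + 1)) := pow_le_pow_right₀ (by norm_num) hn
            have h2 : (2 : ℝ) ≤ D := by exact_mod_cast hD
            calc L / 2 ^ n = 2 ^ k * (2 * (L / 2 ^ (n + (k + 1)))) := by field_simp; ring
              _ ≤ _ := by gcongr
          by_cases hk : Q.1 + (k + 1) ≤ P.1
          · obtain ⟨n, hn⟩ : ∃ n, P.1 = n + (k + 1) := ⟨P.1 - (k + 1), by omega⟩
            have h1 := (hanc P hP x hx n (by omega) (by omega)).2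
            refine le_trans (lintegral_mono_set (t := box L D (idx L n x)) fun y hy => ?_)
              ((lintegral_mono hg'le).trans (h1.trans ?_))
            · refine mem_star hL (mem_idx hL _ _) ((mem_ball_iff_norm.1 hy).trans_le (le_of_eq ?_))
              rw [hn, show (idx L n x).1 = n from rfl]
              field_simp
              ring
            · rw [← mul_assoc]
              gcongr
              exact hv n hn.le
          · refine (setLIntegral_le_lintegral _ _).trans ((lintegral_mono hg'le).trans ?_)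
            rw [hgQ1, ← mul_assoc]
            gcongr
            · exact le_mul_of_one_le_left' hA1
            · exact hv _ (by omega))
      have hadd := H.add _ _ hgPL hg'L
      rw [← hdec] at hadd
      obtain ⟨n, hn⟩ : ∃ n, P.1 = n + 1 := ⟨P.1 - 1, by have := hlt P hP; omega⟩
      obtain ⟨c1, c2⟩ := hanc P hP x₀ hx₀ n (by have := hlt P hP; omega) (by omega)
      have c3 : 2 * volume (box L 0 P ∩ S) ≤ vv d L P.1 := by
        refine (ENNReal.mul_le_mul_iff_right (a := 2 ^ d) (by simp) (by finiteness)).1 ?_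
        calc 2 ^ d * (2 * volume (box L 0 P ∩ S)) = 2 * 2 ^ d * volume (box L 0 P ∩ S) := by ring
          _ ≤ 2 * 2 ^ d * volume (box L 0 (idx L n x₀) ∩ S) := by
              gcongr
              exact box0_sub hL (show n ≤ P.1 by omega) (mem_idx hL _ _) hx₀
          _ ≤ _ := by rw [hn, ← vv_succ]; exact c1
      have c4 : 4 * volume {x | A * (A * α) < ‖op gP x‖ₑ} ≤ vv d L P.1 := by
        have h1 : ∫⁻ y, ‖gP y‖ₑ ≤ (A * α) * (M * 2 ^ d * vv d L P.1) := by
          calc ∫⁻ y, ‖gP y‖ₑ = ∫⁻ y in box L D P, ‖gQ y‖ₑ := by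
                rw [hgP, lintegral_ind (box_meas _ _ _)]
                refine setLIntegral_congr_fun (box_meas _ _ _) fun y hy => ?_
                simp only [hgQ]
                rw [indicator_of_mem (hPQ hy)]
            _ ≤ ∫⁻ y in box L D (idx L n x₀), ‖gQ y‖ₑ :=
                lintegral_mono_set (star_mono hL (show n ≤ P.1 by omega) (mem_idx hL _ _) hx₀)
            _ ≤ _ := by rw [mul_assoc M, hn, ← vv_succ]; exact c2
        have h2 := hW' gP (hgm.indicator (box_meas _ _ _)) hgPL A (A * α) _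
          (ENNReal.mul_ne_top hAt hαt) h1
        refine cancel_big hA0 hAt (h2.trans (le_of_eq (mul_assoc _ _ _).symm)) (le_trans ?_ hA2)
        calc 4 * (Cw * (M * 2 ^ d)) = 4 * 2 ^ d * (Cw * M) := by ring
          _ ≤ _ := by gcongr; norm_num
      obtain ⟨x', hx'P, hx'S, hx'g, hx'Z, hx'a⟩ : ∃ x' ∈ box L 0 P, x' ∉ S ∧
          ‖op gP x'‖ₑ ≤ A * (A * α) ∧ x' ∉ Z ∧ op gQ x' = op gP x' + op g' x' := by
        by_contra hcon
        have h1 : volume (box L 0 P) ≤ volume (box L 0 P ∩ S) +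
            volume {x | A * (A * α) < ‖op gP x‖ₑ} := by
          refine le_trans (measure_mono_ae ?_) (measure_union_le _ _)
          filter_upwards [hadd, measure_eq_zero_iff_ae_notMem.1 hZ] with y h1 h2 hy
          by_contra hc
          have hc' : ¬ (y ∈ box L 0 P ∩ S ∨ A * (A * α) < ‖op gP y‖ₑ) := hc
          push Not at hc'
          exact hcon ⟨y, hy, fun h => hc'.1 ⟨hy, h⟩, hc'.2, h2, h1⟩
        have h2 : 3 * vv d L P.1 + vv d L P.1 ≤ 3 * vv d L P.1 + 0 := by
          calc 3 * vv d L P.1 + vv d L P.1 = 4 * volume (box L 0 P) := by rw [box0_vol]; ring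
            _ ≤ 4 * (volume (box L 0 P ∩ S) + volume {x | A * (A * α) < ‖op gP x‖ₑ}) := by gcongr
            _ = 2 * (2 * volume (box L 0 P ∩ S)) + 4 * volume {x | A * (A * α) < ‖op gP x‖ₑ} := by
                ring
            _ ≤ 2 * vv d L P.1 + vv d L P.1 := by gcongr
            _ = _ := by ring
        have h3 := (ENNReal.add_le_add_iff_left
          (ENNReal.mul_ne_top (by norm_num) (vv_ne_top L P.1))).1 h2
        exact vv_ne_zero hL _ (le_zero_iff.1 h3)
      filter_upwards [hadd, measure_eq_zero_iff_ae_notMem.1 hZ] with x h1 h2 _ hx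
      have h3 := hosc x hx h2 x' hx'P hx'Z
      have e : op gQ x = (op gQ x' - op gP x') + (op g' x - op g' x') + op gP x := by
        rw [h1, Pi.add_apply, hx'a]; ring
      rw [e]
      refine (enorm_add_le _ _).trans (add_le_add_left ((enorm_add_le _ _).trans ?_) _)
      calc ‖op gQ x' - op gP x'‖ₑ + ‖op g' x - op g' x'‖ₑ
          ≤ (A * α + A * (A * α)) + C₂ * (A * α * M) :=
            add_le_add (enorm_sub_le.trans (add_le_add (not_lt.1 hx'S) hx'g)) h3
        _ = _ := by ring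
    filter_upwards [b1, ae_all_iff.2 b2] with x h1 h2 hxQ
    refine ⟨fun h => (not_lt.1 (h1 hxQ h)).trans ?_, h2⟩
    gcongr
    exact le_self_add.trans le_self_add

/-- **Sparse domination.** -/
theorem CZ.sparse (hd : 1 ≤ d) (H : CZ op D B C₁ C₂) (hD : 2 ≤ D) (hB : B ≠ ⊤) (hC₁ : C₁ ≠ ⊤)
    (hC₂ : C₂ ≠ ⊤) : ∃ Cl : ℝ≥0∞, Cl ≠ ⊤ ∧ ∀ L : ℝ, 0 < L → ∀ g : E d → ℂ, Measurable g →
      MemLp g 2 volume → ∀ Q₀ : Idx d, ∃ (I : Set (Idx d)) (F : Idx d → Set (E d)),
        (∀ i, MeasurableSet (F i)) ∧ I.PairwiseDisjoint F ∧ (∀ i, F i ⊆ box L 0 i) ∧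
        (∀ i, volume (box L 0 i) ≤ 2 * volume (F i)) ∧
        ∀ᵐ x, x ∈ box L 0 Q₀ → ∃ s : Finset (Idx d), (∀ i ∈ s, i ∈ I ∧ x ∈ box L 0 i) ∧
          ‖op ((box L D Q₀).indicator g) x‖ₑ ≤ Cl * ∑ i ∈ s, al L D g i := by
  obtain ⟨Cl, hCl, hstep⟩ := H.step hd hD hB hC₁ hC₂
  refine ⟨Cl, hCl, fun L hL g hgm hg Q₀ => ?_⟩
  choose ch h1 h2 h3 h4 using hstep L hL g hgm hg
  set G : ℕ → Set (Idx d) := fun k => Nat.rec {Q₀} (fun _ s => ⋃ Q ∈ s, ch Q) k with hG
  have hG0 : G 0 = {Q₀} := rfl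
  have hGs : ∀ k P, P ∈ G (k + 1) ↔ ∃ Q ∈ G k, P ∈ ch Q := fun k P => by
    change P ∈ ⋃ Q ∈ G k, ch Q ↔ _
    simp
  have hdis : ∀ k, (G k).PairwiseDisjoint (box L 0) := by
    intro k
    induction k with
    | zero => rw [hG0]; exact pairwiseDisjoint_singleton _ _
    | succ k ih =>
      intro P hP P' hP' hne
      obtain ⟨Q, hQ, hPQ⟩ := (hGs k P).1 hP
      obtain ⟨Q', hQ', hPQ'⟩ := (hGs k P').1 hP'
      by_cases h : Q = Q'
      · subst h; exact h1 Q hPQ hPQ' hne
      · exact (ih hQ hQ' h).mono (h2 Q P hPQ).2 (h2 Q' P' hPQ').2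
  set U : ℕ → Set (E d) := fun k => ⋃ P ∈ G k, box L 0 P with hU
  have hUs : ∀ k, U (k + 1) ⊆ U k := fun k x hx => by
    obtain ⟨P, hP, hx⟩ := mem_iUnion₂.1 hx
    obtain ⟨Q, hQ, hPQ⟩ := (hGs k P).1 hP
    exact mem_iUnion₂.2 ⟨Q, hQ, (h2 Q P hPQ).2 hx⟩
  have hUa : Antitone U := antitone_nat_of_succ_le hUs
  have hin : ∀ k, ∀ Q ∈ G k, ∀ x ∈ box L 0 Q, x ∈ U (k + 1) → x ∈ ⋃ P ∈ ch Q, box L 0 P := by
    intro k Q hQ x hx hxU
    obtain ⟨P, hP, hxP⟩ := mem_iUnion₂.1 hxU
    obtain ⟨Q', hQ', hPQ⟩ := (hGs k P).1 hP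
    have : Q' = Q := by
      by_contra hne
      exact Set.disjoint_left.1 (hdis k hQ' hQ hne) ((h2 Q' P hPQ).2 hxP) hx
    exact mem_iUnion₂.2 ⟨P, this ▸ hPQ, hxP⟩
  have hvol : ∀ k, volume (U k) ≤ (2⁻¹) ^ k * volume (box L 0 Q₀) := by
    intro k
    induction k with
    | zero => simp [hU, hG0]
    | succ k ih =>
      have e : U (k + 1) ⊆ ⋃ Q ∈ G k, ⋃ P ∈ ch Q, box L 0 P := fun x hx => by
        obtain ⟨P, hP, hx⟩ := mem_iUnion₂.1 hx
        obtain ⟨Q, hQ, hPQ⟩ := (hGs k P).1 hP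
        exact mem_iUnion₂.2 ⟨Q, hQ, mem_iUnion₂.2 ⟨P, hPQ, hx⟩⟩
      have : 2 * volume (U (k + 1)) ≤ volume (U k) := by
        calc 2 * volume (U (k + 1)) ≤ 2 * ∑' Q : G k, volume (⋃ P ∈ ch Q, box L 0 P) := by
              gcongr
              exact (measure_mono e).trans (measure_biUnion_le _ (to_countable _) _)
          _ ≤ ∑' Q : G k, volume (box L 0 (Q : Idx d)) := by
              rw [← ENNReal.tsum_mul_left]
              exact ENNReal.tsum_le_tsum fun Q => h3 Q
          _ = volume (U k) :=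
              (measure_biUnion (to_countable _) (hdis k) fun i _ => box_meas _ _ _).symm
      rw [pow_succ', mul_assoc, ← ENNReal.mul_le_iff_le_inv (by norm_num) (by norm_num)]
      exact this.trans ih
  have hnull : volume (⋂ k, U k) = 0 := by
    have ht : Tendsto (fun k : ℕ => (2⁻¹ : ℝ≥0∞) ^ k * volume (box L 0 Q₀)) atTop
        (𝓝 (0 * volume (box L 0 Q₀))) :=
      ENNReal.Tendsto.mul_const (ENNReal.tendsto_pow_atTop_nhds_zero_of_lt_one (by norm_num))
        (Or.inr (box_vol_ne_top _ _ _))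
    rw [zero_mul] at ht
    exact le_zero_iff.1 (ge_of_tendsto' ht fun k => (measure_mono (iInter_subset _ k)).trans (hvol k))
  have hchm : ∀ Q, MeasurableSet (⋃ P ∈ ch Q, box L 0 P) := fun Q =>
    MeasurableSet.biUnion (to_countable _) fun i _ => box_meas _ _ _
  refine ⟨⋃ k, G k, fun Q => box L 0 Q \ ⋃ P ∈ ch Q, box L 0 P,
    fun Q => (box_meas _ _ _).diff (hchm Q), ?_, fun Q => sdiff_subset, fun Q => ?_, ?_⟩
  · have key : ∀ k k', k < k' → ∀ Q ∈ G k, ∀ Q' ∈ G k', ∀ x ∈ box L 0 Q, x ∈ box L 0 Q' →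
        x ∈ ⋃ P ∈ ch Q, box L 0 P := fun k k' hk Q hQ Q' hQ' x hx hx' =>
      hin k Q hQ x hx (hUa (show k + 1 ≤ k' from hk) (mem_iUnion₂.2 ⟨Q', hQ', hx'⟩))
    intro Q hQ Q' hQ' hne
    obtain ⟨k, hk⟩ := mem_iUnion.1 hQ
    obtain ⟨k', hk'⟩ := mem_iUnion.1 hQ'
    rw [Function.onFun, Set.disjoint_left]
    intro x hx hx'
    rcases lt_trichotomy k k' with h | h | h
    · exact hx.2 (key k k' h Q hk Q' hk' x hx.1 hx'.1)
    · subst h
      exact Set.disjoint_left.1 (hdis k hk hk' hne) hx.1 hx'.1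
    · exact hx'.2 (key k' k h Q' hk' Q hk x hx'.1 hx.1)
  · refine absorb (box_vol_ne_top _ _ _) ?_
    calc 2 * volume (box L 0 Q) ≤ 2 * (volume (box L 0 Q \ ⋃ P ∈ ch Q, box L 0 P) +
          volume (⋃ P ∈ ch Q, box L 0 P)) := by
          gcongr
          refine le_trans (measure_mono fun x hx => ?_) (measure_union_le _ _)
          by_cases h : x ∈ ⋃ P ∈ ch Q, box L 0 P
          · exact Or.inr h
          · exact Or.inl ⟨hx, h⟩
      _ ≤ _ := by rw [mul_add]; gcongr; exact h3 Q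
  · filter_upwards [ae_all_iff.2 h4, measure_eq_zero_iff_ae_notMem.1 hnull] with x hx hxU hxQ
    have key : ∀ j k, ∀ Q ∈ G k, x ∈ box L 0 Q → x ∉ U (k + j) → ∃ s : Finset (Idx d),
        (∀ i ∈ s, (i ∈ ⋃ k, G k ∧ x ∈ box L 0 i) ∧ Q.1 ≤ i.1) ∧
        ‖op ((box L D Q).indicator g) x‖ₑ ≤ Cl * ∑ i ∈ s, al L D g i := by
      intro j
      induction j with
      | zero => exact fun k Q hQ h h' => absurd (mem_iUnion₂.2 ⟨Q, hQ, h⟩) h'
      | succ j ih =>
        intro k Q hQ h h'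
        by_cases hc : x ∈ ⋃ P ∈ ch Q, box L 0 P
        · obtain ⟨P, hP, hxP⟩ := mem_iUnion₂.1 hc
          obtain ⟨s, hs1, hs2⟩ := ih (k + 1) P ((hGs k P).2 ⟨Q, hQ, hP⟩) hxP
            (by rwa [add_assoc, add_comm 1 j])
          have hlt := (h2 Q P hP).1
          have hQs : Q ∉ s := fun h => absurd (hs1 Q h).2 (not_le.2 hlt)
          refine ⟨insert Q s, fun i hi => ?_, ?_⟩
          · rcases Finset.mem_insert.1 hi with rfl | hi
            · exact ⟨⟨mem_iUnion.2 ⟨k, hQ⟩, h⟩, le_rfl⟩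
            · exact ⟨(hs1 i hi).1, hlt.le.trans (hs1 i hi).2⟩
          · rw [Finset.sum_insert hQs, mul_add]
            exact ((hx Q h).2 P hP hxP).trans (by gcongr)
        · refine ⟨{Q}, fun i hi => ?_, ?_⟩
          · rw [Finset.mem_singleton.1 hi]
            exact ⟨⟨mem_iUnion.2 ⟨k, hQ⟩, h⟩, le_rfl⟩
          · rw [Finset.sum_singleton]
            exact (hx Q h).1 hc
    obtain ⟨j, hj⟩ : ∃ j, x ∉ U j := by simpa only [mem_iInter, not_forall] using hxU
    obtain ⟨s, hs1, hs2⟩ := key j 0 Q₀ (mem_singleton _) hxQ (by rwa [zero_add])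
    exact ⟨s, fun i hi => (hs1 i hi).1, hs2⟩

end Pool.Agent.H572Z.Sp
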