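import Mathlib
import Pool.Agent.H572Z.Sp.Lam

set_option autoImplicit false

/-!
# The testing inequality for sparse operators under one bump condition (abstract form)
-/

namespace Pool.Agent.H572Z.Sp

open MeasureTheory Set
open scoped ENNReal Classical

variable {X : Type*}

/-- The function `∑_{Q ∈ S} c(Q) 1_Q`. -/
noncomputable def sp (S : Finset (Set X)) (c : Set X → ℝ≥0∞) (x : X) : ℝ≥0∞ :=
  ∑ Q ∈ S.filter (x ∈ ·), c Q

lemma sp_eq (S : Finset (Set X)) (c : Set X → ℝ≥0∞) :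
    sp S c = fun x => ∑ Q ∈ S, Q.indicator (fun _ => c Q) x := by
  funext x
  rw [sp, Finset.sum_filter]
  simp [Set.indicator_apply]

lemma sq_sum_le {ι : Type*} (T : Finset ι) (y : ι → ℝ≥0∞) :
    ∑ i ∈ T, y i ^ 2 ≤ (∑ i ∈ T, y i) ^ 2 := by
  rw [sq, Finset.sum_mul]
  refine Finset.sum_le_sum fun i hi => ?_
  rw [sq]
  gcongr
  exact Finset.single_le_sum (f := y) (fun _ _ => zero_le) hi

lemma sp_sq_le {S : Finset (Set X)} (h : Lam (S : Set (Set X))) (a : Set X → ℝ≥0∞) (x : X) :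
    sp S a x ^ 2 ≤ 2 * sp S (fun P => a P * ∑ Q ∈ S.filter (P ⊆ ·), a Q) x := by
  set T := S.filter (x ∈ ·) with hT
  have h1 : sp S a x ^ 2 ≤ ∑ P ∈ T, ∑ Q ∈ T, (if P ⊆ Q then a P * a Q else 0) +
      ∑ P ∈ T, ∑ Q ∈ T, (if Q ⊆ P then a Q * a P else 0) := by
    rw [sp, sq, Finset.sum_mul_sum, ← Finset.sum_add_distrib]
    refine Finset.sum_le_sum fun P hP => ?_
    rw [← Finset.sum_add_distrib]
    refine Finset.sum_le_sum fun Q hQ => ?_
    have hP' := Finset.mem_filter.1 hP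
    have hQ' := Finset.mem_filter.1 hQ
    rcases h.nested hP'.1 hQ'.1 hP'.2 hQ'.2 with h | h
    · rw [if_pos h]; exact le_self_add
    · rw [if_pos h, mul_comm]; exact le_add_self
  rw [Finset.sum_comm (s := T) (t := T) (f := fun P Q => if Q ⊆ P then a Q * a P else 0),
    ← two_mul] at h1
  refine h1.trans ?_
  gcongr
  rw [sp]
  refine Finset.sum_le_sum fun P _ => ?_
  rw [← Finset.sum_filter, Finset.mul_sum]
  exact Finset.sum_le_sum_of_subset (Finset.filter_subset_filter _ (Finset.filter_subset _ _))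

variable [MeasurableSpace X]

lemma sp_meas {S : Finset (Set X)} (hS : ∀ P ∈ S, MeasurableSet P) (c : Set X → ℝ≥0∞) :
    Measurable (sp S c) := by
  rw [sp_eq]
  exact Finset.measurable_sum _ fun Q hQ => measurable_const.indicator (hS Q hQ)

lemma lintegral_sp (ν : Measure X) {S : Finset (Set X)} (hS : ∀ P ∈ S, MeasurableSet P)
    (c : Set X → ℝ≥0∞) : ∫⁻ x, sp S c x ∂ν = ∑ Q ∈ S, c Q * ν Q := by
  rw [sp_eq, lintegral_finsetSum _ fun Q hQ => measurable_const.indicator (hS Q hQ)]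
  exact Finset.sum_congr rfl fun Q hQ => lintegral_indicator_const (hS Q hQ) _

lemma sp_sq_int (ν : Measure X) {S : Finset (Set X)} (h : Lam (S : Set (Set X)))
    (hS : ∀ P ∈ S, MeasurableSet P) (a : Set X → ℝ≥0∞) :
    ∫⁻ x, sp S a x ^ 2 ∂ν ≤ 2 * ∑ P ∈ S, (a P * ∑ Q ∈ S.filter (P ⊆ ·), a Q) * ν P := by
  rw [← lintegral_sp ν hS, ← lintegral_const_mul _ (sp_meas hS _)]
  exact lintegral_mono fun x => sp_sq_le h a x

lemma sp_sq_ne_top (ν : Measure X) {S : Finset (Set X)} (h : Lam (S : Set (Set X)))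
    (hS : ∀ P ∈ S, MeasurableSet P) {a : Set X → ℝ≥0∞} (ha : ∀ P ∈ S, a P ≠ ⊤)
    (hν : ∀ P ∈ S, ν P ≠ ⊤) : ∫⁻ x, sp S a x ^ 2 ∂ν ≠ ⊤ := by
  refine ne_top_of_le_ne_top ?_ (sp_sq_int ν h hS a)
  refine ENNReal.mul_ne_top (by norm_num) (ENNReal.sum_ne_top.2 fun P hP => ?_)
  exact ENNReal.mul_ne_top (ENNReal.mul_ne_top (ha P hP)
    (ENNReal.sum_ne_top.2 fun Q hQ => ha Q (Finset.mem_filter.1 hQ).1)) (hν P hP)

/-- The data of the abstract bump condition on a finite laminar family. -/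
structure BData (μ u σ : Measure X) (S : Finset (Set X)) (a s b : Set X → ℝ≥0∞) (K C : ℝ≥0∞) :
    Prop where
  lam : Lam (S : Set (Set X))
  meas : ∀ P ∈ S, MeasurableSet P
  ne : ∀ P ∈ S, P.Nonempty
  ufin : ∀ P ∈ S, u P ≠ ⊤
  sfin : ∀ P ∈ S, σ P ≠ ⊤
  afin : ∀ P ∈ S, a P ≠ ⊤
  ha : ∀ P ∈ S, u P = a P * μ P
  hs : ∀ P ∈ S, σ P = s P * μ P
  b0 : ∀ P ∈ S, b P ≠ 0
  bfin : ∀ P ∈ S, b P ≠ ⊤
  K0 : K ≠ 0
  Kfin : K ≠ ⊤
  C0 : C ≠ 0
  Cfin : C ≠ ⊤
  hK1 : ∀ P ∈ S, a P * s P ≤ K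
  hK2 : ∀ P ∈ S, b P * s P ≤ K
  car : ∀ R ∈ S, ∑ Q ∈ S.filter (· ⊆ R), μ Q ≤ C * μ R
  markov : ∀ P ∈ S, ∀ F : Finset (Set X), F ⊆ S → (F : Set (Set X)).PairwiseDisjoint id →
    (∀ Q ∈ F, Q ⊆ P) → ∑ Q ∈ F, b Q * μ Q ≤ 2 * (b P * μ P)

variable {μ u σ : Measure X} {S : Finset (Set X)} {a s b : Set X → ℝ≥0∞} {K C : ℝ≥0∞}

lemma BData.level (H : BData μ u σ S a s b K C) {R : Set X} (hR : ∀ P ∈ S, P ⊆ R)
    {Sl Xl : Finset (Set X)} (hSl : Sl ⊆ S) (hXl : Xl ⊆ S) {t κ κ' : ℝ≥0∞}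
    (h1 : ∀ P ∈ Sl, t ≤ 4 * (a P * s P)) (h2 : ∀ Q ∈ Xl, 16 * K * a Q ≤ t * b Q)
    (hκ : 4 * t ≤ κ * κ') :
    t * ∑ Q ∈ Xl, a Q * ∑ P ∈ mx (Sl.filter (· ⊆ Q)), μ P ≤
      κ * (2 * u R) + κ' * ∫⁻ x, sp S a x ^ 2 ∂σ := by
  set Δ : Set X → ℝ≥0∞ := fun P => ∑ Q ∈ Xl.filter (fun Q => P ∈ mx (Sl.filter (· ⊆ Q))), a Q
    with hΔ
  set PP := Sl.filter (fun P => ∃ Q ∈ Xl, P ∈ mx (Sl.filter (· ⊆ Q))) with hPP
  have hPPS : PP ⊆ S := (Finset.filter_subset _ _).trans hSl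
  have lamSl : ∀ Q, Lam ((Sl.filter (· ⊆ Q) : Finset (Set X)) : Set (Set X)) := fun Q =>
    H.lam.mono (Finset.coe_subset.2 ((Finset.filter_subset _ _).trans hSl))
  -- exchange the order of summation
  have e1 : ∑ Q ∈ Xl, a Q * ∑ P ∈ mx (Sl.filter (· ⊆ Q)), μ P = ∑ P ∈ PP, μ P * Δ P := by
    have : ∀ Q ∈ Xl, a Q * ∑ P ∈ mx (Sl.filter (· ⊆ Q)), μ P =
        ∑ P ∈ PP, if P ∈ mx (Sl.filter (· ⊆ Q)) then μ P * a Q else 0 := by
      intro Q hQ
      rw [← Finset.sum_filter, Finset.mul_sum]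
      refine Finset.sum_congr ?_ fun P _ => mul_comm _ _
      ext P
      simp only [hPP, Finset.mem_filter]
      exact ⟨fun h => ⟨⟨(Finset.mem_filter.1 (mx_subset _ h)).1, Q, hQ, h⟩, h⟩, fun h => h.2⟩
    rw [Finset.sum_congr rfl this, Finset.sum_comm]
    refine Finset.sum_congr rfl fun P _ => ?_
    rw [hΔ, Finset.mul_sum, Finset.sum_filter]
  -- the re-entry cubes carry little mass
  have e2 : ∑ P ∈ PP, u P ≤ 2 * u R := by
    refine sum_le_two u (H.lam.mono (Finset.coe_subset.2 hPPS)) (fun P hP => H.meas P (hPPS hP))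
      (fun P hP => H.ufin P (hPPS hP)) (fun P hP => hR P (hPPS hP)) fun P hP => ?_
    have hPSl : P ∈ Sl := (Finset.mem_filter.1 hP).1
    have hPS : P ∈ S := hSl hPSl
    set F := mx (Xl.filter (· ⊂ P)) with hF
    have hFX : ∀ Q ∈ F, Q ∈ Xl ∧ Q ⊂ P := fun Q hQ => Finset.mem_filter.1 (mx_subset _ hQ)
    have hFS : F ⊆ S := fun Q hQ => hXl (hFX Q hQ).1
    have g1 : ∑ Q ∈ mx (PP.filter (· ⊂ P)), u Q ≤ ∑ Q ∈ F, u Q := by
      refine le_trans (sum_mx_le u (R := ⋃ Q ∈ F, Q)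
        (H.lam.mono (Finset.coe_subset.2 ((Finset.filter_subset _ _).trans hPPS)))
        (fun Q hQ => H.meas Q (hPPS (Finset.mem_filter.1 hQ).1)) fun P' hP' => ?_)
        (measure_biUnion_finset_le _ _)
      obtain ⟨hP'PP, hP'P⟩ := Finset.mem_filter.1 hP'
      obtain ⟨hP'Sl, Q, hQ, hP'Q⟩ := Finset.mem_filter.1 hP'PP
      have hP'Q' := mem_mx.1 hP'Q
      have hsub : P' ⊆ Q := (Finset.mem_filter.1 hP'Q'.1).2
      obtain ⟨x, hx⟩ := H.ne P' (hSl hP'Sl)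
      have hnot : ¬ P ⊆ Q := fun hPQ =>
        hP'P.ne (hP'Q'.2 P (Finset.mem_filter.2 ⟨hPSl, hPQ⟩) hP'P.le).symm
      have hQP : Q ⊂ P := by
        rcases H.lam.nested hPS (hXl hQ) (hP'P.le hx) (hsub hx) with h | h
        · exact absurd h hnot
        · exact ⟨h, hnot⟩
      obtain ⟨Q', hQ', hQQ'⟩ := exists_mx (Finset.mem_filter.2 ⟨hQ, hQP⟩ : Q ∈ Xl.filter (· ⊂ P))
      exact hsub.trans (hQQ'.trans (sub_biU hQ'))
    have g2 : (8 * K) * (2 * ∑ Q ∈ F, u Q) ≤ (8 * K) * u P := by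
      calc (8 * K) * (2 * ∑ Q ∈ F, u Q) = ∑ Q ∈ F, (16 * K * a Q) * μ Q := by
            rw [Finset.mul_sum, Finset.mul_sum]
            refine Finset.sum_congr rfl fun Q hQ => ?_
            rw [H.ha Q (hFS hQ)]; ring
        _ ≤ ∑ Q ∈ F, (t * b Q) * μ Q := Finset.sum_le_sum fun Q hQ =>
            mul_le_mul_left (h2 Q (hFX Q hQ).1) _
        _ = t * ∑ Q ∈ F, b Q * μ Q := by
            rw [Finset.mul_sum]; exact Finset.sum_congr rfl fun Q _ => by ring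
        _ ≤ (4 * (a P * s P)) * (2 * (b P * μ P)) := by
            gcongr
            · exact h1 P hPSl
            · exact H.markov P hPS F hFS (mx_disjoint (H.lam.mono
                (Finset.coe_subset.2 ((Finset.filter_subset _ _).trans hXl))))
                fun Q hQ => (hFX Q hQ).2.le
        _ = 8 * (b P * s P) * (a P * μ P) := by ring
        _ ≤ 8 * K * u P := by rw [H.ha P hPS]; gcongr; exact H.hK2 P hPS
    have g3 := (ENNReal.mul_le_mul_iff_right (mul_ne_zero (by norm_num) H.K0)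
      (ENNReal.mul_ne_top (by norm_num) H.Kfin)).1 g2
    exact le_trans (by gcongr) g3
  -- the increments are controlled by the square function
  have e3 : ∑ P ∈ PP, Δ P ^ 2 * σ P ≤ ∫⁻ x, sp S a x ^ 2 ∂σ := by
    rw [← lintegral_sp σ (fun P hP => H.meas P (hPPS hP))]
    refine lintegral_mono fun x => ?_
    refine le_trans (sq_sum_le _ Δ) ?_
    gcongr
    simp only [hΔ, Finset.sum_filter (s := Xl)]
    rw [Finset.sum_comm]
    calc ∑ Q ∈ Xl, ∑ P ∈ PP.filter (x ∈ ·), (if P ∈ mx (Sl.filter (· ⊆ Q)) then a Q else 0)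
        ≤ ∑ Q ∈ Xl, if x ∈ Q then a Q else 0 := by
          refine Finset.sum_le_sum fun Q _ => ?_
          rw [← Finset.sum_filter]
          rcases ((PP.filter (x ∈ ·)).filter
            (fun P => P ∈ mx (Sl.filter (· ⊆ Q)))).eq_empty_or_nonempty with h | ⟨P, hP⟩
          · rw [h]; simp
          · have hP1 := Finset.mem_filter.1 hP
            have hxP := (Finset.mem_filter.1 hP1.1).2
            have hxQ : x ∈ Q := (Finset.mem_filter.1 (mx_subset _ hP1.2)).2 hxP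
            have : (PP.filter (x ∈ ·)).filter (fun P => P ∈ mx (Sl.filter (· ⊆ Q))) = {P} := by
              refine Finset.eq_singleton_iff_unique_mem.2 ⟨hP, fun P' hP' => ?_⟩
              have hP'1 := Finset.mem_filter.1 hP'
              exact mx_eq (lamSl Q) hP'1.2 hP1.2 (Finset.mem_filter.1 hP'1.1).2 hxP
            rw [this, if_pos hxQ, Finset.sum_singleton]
      _ ≤ sp S a x := by
          rw [← Finset.sum_filter, sp]
          exact Finset.sum_le_sum_of_subset (Finset.filter_subset_filter _ hXl)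
  rw [e1, Finset.mul_sum]
  calc ∑ P ∈ PP, t * (μ P * Δ P) ≤ ∑ P ∈ PP, (κ * u P + κ' * (Δ P ^ 2 * σ P)) := by
        refine Finset.sum_le_sum fun P hP => amgm ?_
        have hPS := hPPS hP
        rw [H.ha P hPS, H.hs P hPS]
        calc (t * (μ P * Δ P)) ^ 2 = t * t * (μ P * Δ P) ^ 2 := by ring
          _ ≤ t * (4 * (a P * s P)) * (μ P * Δ P) ^ 2 := by
              gcongr; exact h1 P (Finset.mem_filter.1 hP).1
          _ = (4 * t) * (a P * s P * (μ P * Δ P) ^ 2) := by ring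
          _ ≤ (κ * κ') * (a P * s P * (μ P * Δ P) ^ 2) := by gcongr
          _ = _ := by ring
    _ = κ * ∑ P ∈ PP, u P + κ' * ∑ P ∈ PP, Δ P ^ 2 * σ P := by
        rw [Finset.sum_add_distrib, Finset.mul_sum, Finset.mul_sum]
    _ ≤ _ := by gcongr

lemma exists_class {K θ : ℝ≥0∞} (hK : K ≠ ⊤) (h0 : θ ≠ 0) (h : θ ≤ K) :
    ∃ l : ℕ, θ ≤ K * (4⁻¹) ^ l ∧ K * (4⁻¹) ^ l ≤ 4 * θ := by
  have hex : ∃ l : ℕ, K * (4⁻¹) ^ (l + 1) < θ := by
    have ht : Filter.Tendsto (fun l : ℕ => K * (4⁻¹ : ℝ≥0∞) ^ (l + 1)) Filter.atTop (nhds (K * 0)) :=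
      ENNReal.Tendsto.const_mul
        ((ENNReal.tendsto_pow_atTop_nhds_zero_of_lt_one (by norm_num)).comp
          (Filter.tendsto_add_atTop_nat 1)) (Or.inr hK)
    rw [mul_zero] at ht
    exact (ht.eventually (gt_mem_nhds (pos_iff_ne_zero.2 h0))).exists
  refine ⟨Nat.find hex, ?_, ?_⟩
  · rcases h' : Nat.find hex with _ | n
    · simpa using h
    · have := Nat.find_min hex (m := n) (by omega)
      exact not_lt.1 this
  · have := (Nat.find_spec hex).le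
    calc K * (4⁻¹) ^ Nat.find hex = 4 * (K * (4⁻¹) ^ (Nat.find hex + 1)) := by
          rw [pow_succ]
          calc K * (4⁻¹) ^ Nat.find hex = K * (4⁻¹) ^ Nat.find hex * (4 * 4⁻¹) := by
                rw [ENNReal.mul_inv_cancel (by norm_num) (by norm_num), mul_one]
            _ = _ := by ring
      _ ≤ 4 * θ := by gcongr

/-- **Testing inequality under one bump.** -/
theorem BData.testing (H : BData μ u σ S a s b K C) {R : Set X} (hR : ∀ P ∈ S, P ⊆ R)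
    {CE : ℝ≥0∞} (hE : ∑ Q ∈ S, a Q ^ 2 / b Q * μ Q ≤ CE * u R) :
    ∫⁻ x, sp S a x ^ 2 ∂σ ≤ (64 * K * C * CE + 512 * K * C ^ 2) * u R := by
  set N := ∫⁻ x, sp S a x ^ 2 ∂σ with hN
  have hNfin : N ≠ ⊤ := sp_sq_ne_top σ H.lam H.meas H.afin H.sfin
  set t : ℕ → ℝ≥0∞ := fun l => K * (4⁻¹) ^ l with ht
  set Sl : ℕ → Finset (Set X) := fun l => S.filter (fun P => t l ≤ 4 * (a P * s P)) with hSl
  set Xl : ℕ → Finset (Set X) := fun l => S.filter (fun Q => 16 * K * a Q ≤ t l * b Q) with hXl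
  have h1 : N ≤ 2 * ∑ Q ∈ S, ∑ P ∈ S.filter (· ⊆ Q), a Q * (a P * s P * μ P) := by
    refine (sp_sq_int σ H.lam H.meas a).trans (le_of_eq ?_)
    congr 1
    simp_rw [Finset.sum_filter]
    rw [Finset.sum_comm]
    refine Finset.sum_congr rfl fun P hP => ?_
    rw [Finset.mul_sum, Finset.sum_mul]
    refine Finset.sum_congr rfl fun Q _ => ?_
    split_ifs
    · rw [H.hs P hP]; ring
    · simp
  have h2 : ∀ Q ∈ S, ∑ P ∈ S.filter (· ⊆ Q), a Q * (a P * s P * μ P) ≤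
      16 * K * C * (a Q ^ 2 / b Q * μ Q) +
      ∑' l, (if Q ∈ Xl l then C * (t l * (a Q * ∑ P ∈ mx ((Sl l).filter (· ⊆ Q)), μ P)) else 0) := by
    intro Q hQ
    have h3 : ∀ P ∈ S.filter (· ⊆ Q), a Q * (a P * s P * μ P) ≤
        16 * K * (a Q ^ 2 / b Q) * μ P +
        ∑' l, (if Q ∈ Xl l then (if P ∈ Sl l then t l * (a Q * μ P) else 0) else 0) := by
      intro P hP
      have hPS := (Finset.mem_filter.1 hP).1
      by_cases hc : a P * s P * b Q ≤ 16 * K * a Q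
      · refine le_add_right ?_
        have : a P * s P ≤ 16 * K * a Q / b Q :=
          (ENNReal.le_div_iff_mul_le (Or.inl (H.b0 Q hQ)) (Or.inl (H.bfin Q hQ))).2 hc
        calc a Q * (a P * s P * μ P) ≤ a Q * (16 * K * a Q / b Q * μ P) := by gcongr
          _ = _ := by simp only [div_eq_mul_inv]; ring
      · refine le_add_left ?_
        push Not at hc
        have h0 : a P * s P ≠ 0 := by
          intro h0
          rw [h0, zero_mul] at hc
          exact not_lt_zero hc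
        obtain ⟨l, hl1, hl2⟩ := exists_class H.Kfin h0 (H.hK1 P hPS)
        refine le_trans ?_ (ENNReal.le_tsum l)
        have hQX : Q ∈ Xl l := Finset.mem_filter.2 ⟨hQ, hc.le.trans (by gcongr)⟩
        have hPl : P ∈ Sl l := Finset.mem_filter.2 ⟨hPS, hl2⟩
        rw [if_pos hQX, if_pos hPl]
        calc a Q * (a P * s P * μ P) ≤ a Q * (t l * μ P) := by gcongr
          _ = _ := by ring
    refine (Finset.sum_le_sum h3).trans ?_
    rw [Finset.sum_add_distrib, ← Finset.mul_sum,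
      ← Summable.tsum_finsetSum (fun _ _ => ENNReal.summable)]
    refine add_le_add ?_ (ENNReal.tsum_le_tsum fun l => ?_)
    · calc 16 * K * (a Q ^ 2 / b Q) * ∑ P ∈ S.filter (· ⊆ Q), μ P
          ≤ 16 * K * (a Q ^ 2 / b Q) * (C * μ Q) := by gcongr; exact H.car Q hQ
        _ = _ := by ring
    · split_ifs with hX
      · rw [← Finset.sum_filter, ← Finset.mul_sum, ← Finset.mul_sum]
        have e : (S.filter (· ⊆ Q)).filter (· ∈ Sl l) = (Sl l).filter (· ⊆ Q) := by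
          ext P
          simp only [Finset.mem_filter]
          exact ⟨fun h => ⟨h.2, h.1.2⟩, fun h => ⟨⟨(Finset.mem_filter.1 h.1).1, h.2⟩, h.1⟩⟩
        rw [e]
        have : ∑ P ∈ (Sl l).filter (· ⊆ Q), μ P ≤ C * ∑ P ∈ mx ((Sl l).filter (· ⊆ Q)), μ P := by
          refine (sum_le_sum_mx _ _).trans ?_
          rw [Finset.mul_sum]
          refine Finset.sum_le_sum fun P hP => le_trans (Finset.sum_le_sum_of_subset
            (Finset.filter_subset_filter _ ((Finset.filter_subset _ _).trans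
              (Finset.filter_subset _ _)))) (H.car P ?_)
          exact (Finset.mem_filter.1 (Finset.mem_filter.1 (mx_subset _ hP)).1).1
        calc t l * (a Q * ∑ P ∈ (Sl l).filter (· ⊆ Q), μ P)
            ≤ t l * (a Q * (C * ∑ P ∈ mx ((Sl l).filter (· ⊆ Q)), μ P)) := by gcongr
          _ = _ := by ring
      · simp
  have h8C0 : (8 * C) ≠ 0 := mul_ne_zero (by norm_num) H.C0
  have h8Ct : (8 * C) ≠ ⊤ := ENNReal.mul_ne_top (by norm_num) H.Cfin
  have h4 : ∀ l, ∑ Q ∈ S,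
      (if Q ∈ Xl l then C * (t l * (a Q * ∑ P ∈ mx ((Sl l).filter (· ⊆ Q)), μ P)) else 0) ≤
      (2⁻¹) ^ l * (C * (32 * K * C * (2 * u R) + (8 * C)⁻¹ * N)) := by
    intro l
    have e : S.filter (· ∈ Xl l) = Xl l := by
      ext Q
      simp only [Finset.mem_filter]
      exact ⟨fun h => h.2, fun h => ⟨(Finset.mem_filter.1 h).1, h⟩⟩
    rw [← Finset.sum_filter, e, ← Finset.mul_sum, ← Finset.mul_sum]
    have := H.level hR (Sl := Sl l) (Xl := Xl l) (Finset.filter_subset _ _)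
      (Finset.filter_subset _ _) (t := t l) (κ := 32 * K * C * (2⁻¹) ^ l)
      (κ' := (8 * C)⁻¹ * (2⁻¹) ^ l) (fun P hP => (Finset.mem_filter.1 hP).2)
      (fun P hP => (Finset.mem_filter.1 hP).2) (le_of_eq (by
        have e4 : (4⁻¹ : ℝ≥0∞) = 2⁻¹ * 2⁻¹ := by
          rw [← ENNReal.mul_inv (by norm_num) (by norm_num)]; norm_num
        calc 4 * t l = 4 * K * ((8 * C) * (8 * C)⁻¹) * (2⁻¹ * 2⁻¹) ^ l := by
              rw [ENNReal.mul_inv_cancel h8C0 h8Ct, ← e4]; simp only [ht]; ring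
          _ = _ := by rw [mul_pow]; ring))
    calc C * (t l * ∑ Q ∈ Xl l, a Q * ∑ P ∈ mx ((Sl l).filter (· ⊆ Q)), μ P)
        ≤ C * (32 * K * C * (2⁻¹) ^ l * (2 * u R) + (8 * C)⁻¹ * (2⁻¹) ^ l * N) := by gcongr
      _ = _ := by ring
  have h5 : N ≤ 2 * (16 * K * C * (CE * u R) +
      2 * (C * (32 * K * C * (2 * u R) + (8 * C)⁻¹ * N))) := by
    refine h1.trans ?_
    gcongr
    refine (Finset.sum_le_sum h2).trans ?_
    rw [Finset.sum_add_distrib, ← Finset.mul_sum,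
      ← Summable.tsum_finsetSum (fun _ _ => ENNReal.summable)]
    gcongr
    refine (ENNReal.tsum_le_tsum h4).trans ?_
    rw [ENNReal.tsum_mul_right, ENNReal.tsum_geometric_two]
  refine absorb hNfin ?_
  calc 2 * N ≤ 2 * (2 * (16 * K * C * (CE * u R) +
      2 * (C * (32 * K * C * (2 * u R) + (8 * C)⁻¹ * N)))) := by gcongr
    _ = (64 * K * C * CE + 512 * K * C ^ 2) * u R + ((8 * C) * (8 * C)⁻¹) * N := by ring
    _ = _ := by rw [ENNReal.mul_inv_cancel h8C0 h8Ct, one_mul]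

end Pool.Agent.H572Z.Sp
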