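import Mathlib
import Pool.Agent.H572Z.Sp.Bump

set_option autoImplicit false

/-!
# The two-weight testing theorem for positive operators on a finite laminar family
-/

namespace Pool.Agent.H572Z.Sp

open MeasureTheory Set
open scoped ENNReal Classical

variable {X : Type*} [MeasurableSpace X]

lemma two_zpow_succ (k : ℤ) : (2 : ℝ≥0∞) ^ (k + 1) = 2 * 2 ^ k := by
  rw [ENNReal.zpow_add (by norm_num) (by norm_num), zpow_one, mul_comm]

lemma two_zpow_ne_top (k : ℤ) : (2 : ℝ≥0∞) ^ k ≠ ⊤ := ENNReal.zpow_ne_top (by norm_num) (by norm_num) k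

lemma setInt_ne_top (w : Measure X) {f : X → ℝ≥0∞} (hf2 : ∫⁻ x, f x ^ 2 ∂w ≠ ⊤)
    {Q : Set X} (hQ : w Q ≠ ⊤) : ∫⁻ x in Q, f x ∂w ≠ ⊤ := by
  have : ∫⁻ x in Q, f x ∂w ≤ ∫⁻ x in Q, (f x ^ 2 + 1) ∂w :=
    lintegral_mono fun x => amgm (by rw [mul_one])
  refine ne_top_of_le_ne_top ?_ this
  rw [lintegral_add_right _ measurable_const, setLIntegral_const, one_mul]
  exact ENNReal.add_ne_top.2 ⟨ne_top_of_le_ne_top hf2 (setLIntegral_le_lintegral _ _), hQ⟩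

/-- Principal cubes. -/
lemma corona (w : Measure X) {S : Finset (Set X)} (h : Lam (S : Set (Set X)))
    (hS : ∀ P ∈ S, MeasurableSet P) (hw : ∀ P ∈ S, w P ≠ ⊤) {f : X → ℝ≥0∞} (hf : Measurable f)
    (hf2 : ∫⁻ x, f x ^ 2 ∂w ≠ ⊤) (hpos : ∀ P ∈ S, ∫⁻ x in P, f x ∂w ≠ 0) :
    ∃ (π : Set X → Set X) (β : Set X → ℝ≥0∞),
      (∀ Q ∈ S, π Q ∈ S ∧ Q ⊆ π Q ∧ ∫⁻ x in Q, f x ∂w ≤ β (π Q) * w Q) ∧
      (∀ Q ∈ S, ∀ G ∈ S, Q ⊆ G → G ⊆ π Q → π G = π Q) ∧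
      ∑ F ∈ S.image π, β F ^ 2 * w F ≤ 32 * ∫⁻ x, f x ^ 2 ∂w := by
  have hw0 : ∀ P ∈ S, w P ≠ 0 := fun P hP h0 => hpos P hP (setLIntegral_measure_zero _ _ h0)
  have hne : ∀ P ∈ S, P.Nonempty := fun P hP => nonempty_of_measure_ne_zero (hw0 P hP)
  set α : Set X → ℝ≥0∞ := fun Q => (∫⁻ x in Q, f x ∂w) / w Q with hα
  have hαw : ∀ Q ∈ S, ∫⁻ x in Q, f x ∂w = α Q * w Q := fun Q hQ =>
    (ENNReal.div_mul_cancel (hw0 Q hQ) (hw Q hQ)).symm
  set M : Set X → ℝ≥0∞ := fun Q => (S.filter (Q ⊆ ·)).sup α with hM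
  have hαM : ∀ Q, ∀ P ∈ S, Q ⊆ P → α P ≤ M Q := fun Q P hP hQP =>
    Finset.le_sup (f := α) (Finset.mem_filter.2 ⟨hP, hQP⟩)
  have hMex : ∀ Q ∈ S, ∃ P ∈ S, Q ⊆ P ∧ M Q = α P := by
    intro Q hQ
    obtain ⟨P, hP, e⟩ := Finset.exists_mem_eq_sup (S.filter (Q ⊆ ·))
      ⟨Q, Finset.mem_filter.2 ⟨hQ, subset_rfl⟩⟩ α
    exact ⟨P, (Finset.mem_filter.1 hP).1, (Finset.mem_filter.1 hP).2, e⟩
  have hk : ∀ Q, ∃ k : ℤ, Q ∈ S → (2 : ℝ≥0∞) ^ k < M Q ∧ M Q ≤ 2 ^ (k + 1) := by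
    intro Q
    by_cases hQ : Q ∈ S
    · obtain ⟨P, hP, -, e⟩ := hMex Q hQ
      have h0 : M Q ≠ 0 := by
        rw [e]; exact (ENNReal.div_pos (hpos P hP) (hw P hP)).ne'
      have ht : M Q ≠ ⊤ := by
        rw [e]; exact ENNReal.div_ne_top (setInt_ne_top w hf2 (hw P hP)) (hw0 P hP)
      obtain ⟨k, hk⟩ := ENNReal.exists_mem_Ioc_zpow h0 ht (y := 2) (by norm_num) (by norm_num)
      exact ⟨k, fun _ => hk⟩
    · exact ⟨0, fun h => absurd h hQ⟩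
  choose k hk using hk
  have hπ : ∀ Q, ∃ F, Q ∈ S → F ∈ mx (S.filter (fun P => (2 : ℝ≥0∞) ^ k Q < α P)) ∧ Q ⊆ F := by
    intro Q
    by_cases hQ : Q ∈ S
    · obtain ⟨P, hP, hQP, e⟩ := hMex Q hQ
      obtain ⟨F, hF, hPF⟩ := exists_mx (S := S.filter (fun P => (2 : ℝ≥0∞) ^ k Q < α P))
        (Finset.mem_filter.2 ⟨hP, e ▸ (hk Q hQ).1⟩)
      exact ⟨F, fun _ => ⟨hF, hQP.trans hPF⟩⟩
    · exact ⟨Q, fun h => absurd h hQ⟩
  choose π hπ using hπ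
  have hπS : ∀ Q ∈ S, π Q ∈ S ∧ (2 : ℝ≥0∞) ^ k Q < α (π Q) := fun Q hQ =>
    Finset.mem_filter.1 (mx_subset _ (hπ Q hQ).1)
  have lamf : ∀ j : ℤ, Lam ((S.filter (fun P => (2 : ℝ≥0∞) ^ j < α P) : Finset (Set X)) :
      Set (Set X)) := fun j => h.mono (Finset.coe_subset.2 (Finset.filter_subset _ _))
  have hint : ∀ Q ∈ S, ∀ G ∈ S, Q ⊆ G → G ⊆ π Q → k G = k Q ∧ π G = π Q := by
    intro Q hQ G hG hQG hGπ
    have h1 : M G ≤ M Q :=
      Finset.sup_mono (fun P hP => Finset.mem_filter.2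
        ⟨(Finset.mem_filter.1 hP).1, hQG.trans (Finset.mem_filter.1 hP).2⟩)
    have h2 : (2 : ℝ≥0∞) ^ k Q < M G := (hπS Q hQ).2.trans_le (hαM G _ (hπS Q hQ).1 hGπ)
    have h3 : k G = k Q := by
      apply le_antisymm
      · by_contra hc
        have : (2 : ℝ≥0∞) ^ (k Q + 1) ≤ 2 ^ k G :=
          ENNReal.zpow_le_of_le (by norm_num) (by omega)
        exact absurd ((hk G hG).1.trans_le (h1.trans ((hk Q hQ).2.trans this))) (lt_irrefl _)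
      · by_contra hc
        have : (2 : ℝ≥0∞) ^ (k G + 1) ≤ 2 ^ k Q :=
          ENNReal.zpow_le_of_le (by norm_num) (by omega)
        exact absurd (h2.trans_le ((hk G hG).2.trans this)) (lt_irrefl _)
    refine ⟨h3, ?_⟩
    obtain ⟨x, hx⟩ := hne G hG
    have := (hπ G hG).1
    rw [h3] at this
    exact mx_eq (lamf _) this (hπ Q hQ).1 ((hπ G hG).2 hx) (hGπ hx)
  have hkπ : ∀ Q ∈ S, k (π Q) = k Q ∧ π (π Q) = π Q := fun Q hQ =>
    hint Q hQ _ (hπS Q hQ).1 (hπ Q hQ).2 subset_rfl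
  refine ⟨π, fun F => 2 ^ (k F + 1), fun Q hQ => ⟨(hπS Q hQ).1, (hπ Q hQ).2, ?_⟩,
    fun Q hQ G hG h1 h2 => (hint Q hQ G hG h1 h2).2, ?_⟩
  · beta_reduce
    rw [hαw Q hQ, (hkπ Q hQ).1]
    gcongr
    exact (hαM Q Q hQ subset_rfl).trans (hk Q hQ).2
  · have hF : ∀ F ∈ S.image π, F ∈ mx (S.filter (fun P => (2 : ℝ≥0∞) ^ k F < α P)) := by
      intro F hF
      obtain ⟨Q, hQ, rfl⟩ := Finset.mem_image.1 hF
      rw [(hkπ Q hQ).1]
      exact (hπ Q hQ).1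
    have hFS : ∀ F ∈ S.image π, F ∈ S ∧ (2 : ℝ≥0∞) ^ k F < α F := fun F hF' =>
      Finset.mem_filter.1 (mx_subset _ (hF F hF'))
    set φ : Set X → X → ℝ≥0∞ := fun F x => if 2 ^ k F < 2 * f x then 2 * f x else 0 with hφ
    have hφm : ∀ F, Measurable (φ F) := fun F =>
      Measurable.ite (measurableSet_lt measurable_const (hf.const_mul 2)) (hf.const_mul 2)
        measurable_const
    have h1 : ∀ F ∈ S.image π, (2 : ℝ≥0∞) ^ k F * w F ≤ ∫⁻ x in F, φ F x ∂w := by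
      intro F hF'
      have hFS' := hFS F hF'
      refine absorb (ENNReal.mul_ne_top (two_zpow_ne_top _) (hw F hFS'.1)) ?_
      calc 2 * ((2 : ℝ≥0∞) ^ k F * w F) ≤ 2 * (α F * w F) := by gcongr; exact hFS'.2.le
        _ = ∫⁻ x in F, 2 * f x ∂w := by rw [lintegral_const_mul _ hf, hαw F hFS'.1]
        _ ≤ ∫⁻ x in F, (φ F x + 2 ^ k F) ∂w := lintegral_mono fun x => by
            simp only [hφ]
            split_ifs with hc
            · exact le_self_add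
            · rw [zero_add]; exact not_lt.1 hc
        _ = _ := by rw [lintegral_add_right _ measurable_const, setLIntegral_const]
    calc ∑ F ∈ S.image π, ((2 : ℝ≥0∞) ^ (k F + 1)) ^ 2 * w F
        ≤ ∑ F ∈ S.image π, ∫⁻ x, F.indicator (fun x => 4 * 2 ^ k F * φ F x) x ∂w := by
          refine Finset.sum_le_sum fun F hF' => ?_
          rw [lintegral_indicator (hS F (hFS F hF').1), lintegral_const_mul _ (hφm F),
            two_zpow_succ]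
          calc (2 * (2 : ℝ≥0∞) ^ k F) ^ 2 * w F = 4 * 2 ^ k F * (2 ^ k F * w F) := by ring
            _ ≤ _ := by gcongr; exact h1 F hF'
      _ = ∫⁻ x, ∑ F ∈ S.image π, F.indicator (fun x => 4 * 2 ^ k F * φ F x) x ∂w :=
          (lintegral_finsetSum _ fun F hF' =>
            ((hφm F).const_mul _).indicator (hS F (hFS F hF').1)).symm
      _ ≤ ∫⁻ x, 32 * f x ^ 2 ∂w := by
          refine lintegral_mono fun x => ?_
          set T := (S.image π).filter (fun F => x ∈ F ∧ (2 : ℝ≥0∞) ^ k F < 2 * f x) with hT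
          have e : ∑ F ∈ S.image π, F.indicator (fun x => 4 * 2 ^ k F * φ F x) x =
              (8 * f x) * ∑ F ∈ T, (2 : ℝ≥0∞) ^ k F := by
            rw [hT, Finset.mul_sum, Finset.sum_filter]
            refine Finset.sum_congr rfl fun F _ => ?_
            simp only [Set.indicator_apply, hφ]
            by_cases h1 : x ∈ F <;> by_cases h2 : (2 : ℝ≥0∞) ^ k F < 2 * f x <;>
              simp only [h1, h2, if_true, if_false, and_true, and_false, mul_zero]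
            ring
          have hinj : Set.InjOn k T := by
            intro F hF1 F' hF2 e
            have h1 := Finset.mem_filter.1 hF1
            have h2 := Finset.mem_filter.1 hF2
            have h3 := hF F h1.1
            rw [e] at h3
            exact mx_eq (lamf _) h3 (hF F' h2.1) h1.2.1 h2.2.1
          rw [e, ← Finset.sum_image (f := fun m : ℤ => (2 : ℝ≥0∞) ^ m) hinj]
          calc 8 * f x * ∑ m ∈ T.image k, (2 : ℝ≥0∞) ^ m ≤ 8 * f x * (2 * (2 * f x)) := by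
                gcongr
                refine sum_zpow_le _ _ fun m hm => ?_
                obtain ⟨F, hF1, rfl⟩ := Finset.mem_image.1 hm
                exact (Finset.mem_filter.1 hF1).2.2.le
            _ = _ := by ring
      _ = _ := lintegral_const_mul _ (hf.pow_const 2)

/-- One half of the parallel corona argument. -/
lemma half_corona (w σ : Measure X) {S : Finset (Set X)} (hS : ∀ P ∈ S, MeasurableSet P)
    (c : Set X → ℝ≥0∞) {T : ℝ≥0∞}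
    (hT : ∀ R ∈ S, ∫⁻ x, sp (S.filter (· ⊆ R)) (fun Q => c Q * w Q) x ^ 2 ∂σ ≤ T * w R)
    {π π' : Set X → Set X} (β γ : Set X → ℝ≥0∞) (hπ : ∀ Q ∈ S, π Q ∈ S ∧ Q ⊆ π Q)
    (hπ' : ∀ Q ∈ S, π' Q ∈ S ∧ Q ⊆ π' Q)
    (hint : ∀ Q ∈ S, ∀ G ∈ S, Q ⊆ G → G ⊆ π Q → π G = π Q) {κ κ' : ℝ≥0∞} (hκ : 1 ≤ κ * κ') :
    ∑ Q ∈ S.filter (fun Q => π' Q ⊆ π Q), c Q * (β (π Q) * w Q) * (γ (π' Q) * σ Q) ≤
      κ * T * ∑ F ∈ S.image π, β F ^ 2 * w F + κ' * ∑ G ∈ S.image π', γ G ^ 2 * σ G := by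
  set S' := S.filter (fun Q => π' Q ⊆ π Q) with hS'
  have hmaps : ∀ Q ∈ S', π Q ∈ S.image π := fun Q hQ =>
    Finset.mem_image_of_mem _ (Finset.mem_filter.1 hQ).1
  have himS : ∀ F ∈ S.image π, F ∈ S := by
    intro F hF
    obtain ⟨Q, hQ, rfl⟩ := Finset.mem_image.1 hF
    exact (hπ Q hQ).1
  have himS' : ∀ F ∈ S.image π', F ∈ S := by
    intro F hF
    obtain ⟨Q, hQ, rfl⟩ := Finset.mem_image.1 hF
    exact (hπ' Q hQ).1
  rw [← Finset.sum_fiberwise_of_maps_to hmaps]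
  have key : ∀ F ∈ S.image π, ∑ Q ∈ S'.filter (fun Q => π Q = F),
      c Q * (β (π Q) * w Q) * (γ (π' Q) * σ Q) ≤
      κ * T * (β F ^ 2 * w F) + κ' * ∑ G ∈ (S.image π').filter (fun G => π G = F), γ G ^ 2 * σ G := by
    intro F hF
    have hm1 : ∀ P ∈ S'.filter (fun Q => π Q = F), MeasurableSet P := fun P hP =>
      hS P (Finset.mem_filter.1 (Finset.mem_filter.1 hP).1).1
    have hm2 : ∀ P ∈ S.filter (· ⊆ F), MeasurableSet P := fun P hP =>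
      hS P (Finset.mem_filter.1 hP).1
    have hm3 : ∀ P ∈ (S.image π').filter (fun G => π G = F), MeasurableSet P := fun P hP =>
      hS P (himS' P (Finset.mem_filter.1 hP).1)
    calc ∑ Q ∈ S'.filter (fun Q => π Q = F), c Q * (β (π Q) * w Q) * (γ (π' Q) * σ Q)
        = ∫⁻ x, sp (S'.filter (fun Q => π Q = F)) (fun Q => β F * (c Q * w Q) * γ (π' Q)) x ∂σ := by
          rw [lintegral_sp σ hm1]
          refine Finset.sum_congr rfl fun Q hQ => ?_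
          rw [(Finset.mem_filter.1 hQ).2]; ring
      _ ≤ ∫⁻ x, (κ * β F ^ 2 * sp (S.filter (· ⊆ F)) (fun Q => c Q * w Q) x ^ 2 +
          κ' * sp ((S.image π').filter (fun G => π G = F)) (fun G => γ G ^ 2) x) ∂σ := by
          refine lintegral_mono fun x => amgm ?_
          rcases ((S'.filter (fun Q => π Q = F)).filter (x ∈ ·)).eq_empty_or_nonempty with h | h
          · rw [sp, h]; simp
          · obtain ⟨Q₀, hQ₀, hmax⟩ := Finset.exists_max_image _ (fun Q => γ (π' Q)) h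
            have hQ1 := Finset.mem_filter.1 hQ₀
            have hQ2 := Finset.mem_filter.1 hQ1.1
            have hQ3 := Finset.mem_filter.1 hQ2.1
            have h1 : sp (S'.filter (fun Q => π Q = F)) (fun Q => β F * (c Q * w Q) * γ (π' Q)) x ≤
                β F * sp (S.filter (· ⊆ F)) (fun Q => c Q * w Q) x * γ (π' Q₀) := by
              rw [sp, sp, Finset.mul_sum, Finset.sum_mul]
              refine le_trans (Finset.sum_le_sum fun Q hQ => mul_le_mul_right (hmax Q hQ) _)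
                (Finset.sum_le_sum_of_subset fun Q hQ => ?_)
              have hQ1 := Finset.mem_filter.1 hQ
              have hQ2 := Finset.mem_filter.1 hQ1.1
              have hQ3 := Finset.mem_filter.1 hQ2.1
              exact Finset.mem_filter.2 ⟨Finset.mem_filter.2 ⟨hQ3.1, hQ2.2 ▸ (hπ Q hQ3.1).2⟩, hQ1.2⟩
            have h2 : γ (π' Q₀) ^ 2 ≤
                sp ((S.image π').filter (fun G => π G = F)) (fun G => γ G ^ 2) x := by
              refine Finset.single_le_sum (f := fun G => γ G ^ 2) (fun _ _ => zero_le) ?_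
              refine Finset.mem_filter.2 ⟨Finset.mem_filter.2
                ⟨Finset.mem_image_of_mem _ hQ3.1, ?_⟩, (hπ' Q₀ hQ3.1).2 hQ1.2⟩
              rw [hint Q₀ hQ3.1 _ (hπ' Q₀ hQ3.1).1 (hπ' Q₀ hQ3.1).2 hQ3.2, hQ2.2]
            calc _ ≤ (β F * sp (S.filter (· ⊆ F)) (fun Q => c Q * w Q) x * γ (π' Q₀)) ^ 2 := by
                  gcongr
              _ = 1 * (β F ^ 2 * sp (S.filter (· ⊆ F)) (fun Q => c Q * w Q) x ^ 2 *
                  γ (π' Q₀) ^ 2) := by ring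
              _ ≤ (κ * κ') * (β F ^ 2 * sp (S.filter (· ⊆ F)) (fun Q => c Q * w Q) x ^ 2 *
                  sp ((S.image π').filter (fun G => π G = F)) (fun G => γ G ^ 2) x) := by gcongr
              _ = _ := by ring
      _ = κ * β F ^ 2 * ∫⁻ x, sp (S.filter (· ⊆ F)) (fun Q => c Q * w Q) x ^ 2 ∂σ +
          κ' * ∑ G ∈ (S.image π').filter (fun G => π G = F), γ G ^ 2 * σ G := by
          rw [lintegral_add_left (((sp_meas hm2 _).pow_const 2).const_mul _),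
            lintegral_const_mul _ ((sp_meas hm2 _).pow_const 2),
            lintegral_const_mul _ (sp_meas hm3 _), lintegral_sp σ hm3]
      _ ≤ κ * β F ^ 2 * (T * w F) +
          κ' * ∑ G ∈ (S.image π').filter (fun G => π G = F), γ G ^ 2 * σ G := by
          gcongr; exact hT F (himS F hF)
      _ = _ := by ring
  refine (Finset.sum_le_sum key).trans (le_of_eq ?_)
  rw [Finset.sum_add_distrib, ← Finset.mul_sum, ← Finset.mul_sum,
    Finset.sum_fiberwise_of_maps_to (fun G hG => Finset.mem_image_of_mem _ (himS' G hG))]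

omit [MeasurableSpace X] in
lemma sp_mono {S S' : Finset (Set X)} (h : S' ⊆ S) (c : Set X → ℝ≥0∞) (x : X) :
    sp S' c x ≤ sp S c x :=
  Finset.sum_le_sum_of_subset (Finset.filter_subset_filter _ h)

/-- The bilinear estimate. -/
lemma bilinear (w σ : Measure X) {S : Finset (Set X)} (h : Lam (S : Set (Set X)))
    (hS : ∀ P ∈ S, MeasurableSet P) (hw : ∀ P ∈ S, w P ≠ ⊤) (hσ : ∀ P ∈ S, σ P ≠ ⊤)
    (c : Set X → ℝ≥0∞) {T : ℝ≥0∞}
    (hT1 : ∀ R ∈ S, ∫⁻ x, sp (S.filter (· ⊆ R)) (fun Q => c Q * w Q) x ^ 2 ∂σ ≤ T * w R)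
    (hT2 : ∀ R ∈ S, ∫⁻ x, sp (S.filter (· ⊆ R)) (fun Q => c Q * σ Q) x ^ 2 ∂w ≤ T * σ R)
    {f g : X → ℝ≥0∞} (hf : Measurable f) (hg : Measurable g) (hf2 : ∫⁻ x, f x ^ 2 ∂w ≠ ⊤)
    (hg2 : ∫⁻ x, g x ^ 2 ∂σ ≠ ⊤) {κ₁ κ₂ κ₃ κ₄ : ℝ≥0∞} (h12 : 1 ≤ κ₁ * κ₂) (h34 : 1 ≤ κ₃ * κ₄) :
    ∑ Q ∈ S, c Q * (∫⁻ x in Q, f x ∂w) * (∫⁻ x in Q, g x ∂σ) ≤
      32 * (κ₁ * T + κ₄) * ∫⁻ x, f x ^ 2 ∂w + 32 * (κ₂ + κ₃ * T) * ∫⁻ x, g x ^ 2 ∂σ := by
  set S' := S.filter (fun Q => ∫⁻ x in Q, f x ∂w ≠ 0 ∧ ∫⁻ x in Q, g x ∂σ ≠ 0) with hS'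
  have hsub : S' ⊆ S := Finset.filter_subset _ _
  have h' : Lam (S' : Set (Set X)) := h.mono (Finset.coe_subset.2 hsub)
  have e : ∑ Q ∈ S, c Q * (∫⁻ x in Q, f x ∂w) * (∫⁻ x in Q, g x ∂σ) =
      ∑ Q ∈ S', c Q * (∫⁻ x in Q, f x ∂w) * (∫⁻ x in Q, g x ∂σ) := by
    refine (Finset.sum_subset hsub fun Q hQ hQ' => ?_).symm
    simp only [hS', Finset.mem_filter, hQ, true_and, not_and_or, not_not] at hQ'
    rcases hQ' with h | h <;> simp [h]
  have hT1' : ∀ R ∈ S', ∫⁻ x, sp (S'.filter (· ⊆ R)) (fun Q => c Q * w Q) x ^ 2 ∂σ ≤ T * w R :=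
    fun R hR => le_trans (lintegral_mono fun x => by
      gcongr; exact sp_mono (Finset.filter_subset_filter _ hsub) _ _) (hT1 R (hsub hR))
  have hT2' : ∀ R ∈ S', ∫⁻ x, sp (S'.filter (· ⊆ R)) (fun Q => c Q * σ Q) x ^ 2 ∂w ≤ T * σ R :=
    fun R hR => le_trans (lintegral_mono fun x => by
      gcongr; exact sp_mono (Finset.filter_subset_filter _ hsub) _ _) (hT2 R (hsub hR))
  have hm : ∀ P ∈ S', MeasurableSet P := fun P hP => hS P (hsub hP)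
  obtain ⟨π, β, hπ, hint, hβ⟩ := corona w h' hm (fun P hP => hw P (hsub hP)) hf hf2
    (fun P hP => (Finset.mem_filter.1 hP).2.1)
  obtain ⟨π', γ, hπ', hint', hγ⟩ := corona σ h' hm (fun P hP => hσ P (hsub hP)) hg hg2
    (fun P hP => (Finset.mem_filter.1 hP).2.2)
  have a1 := half_corona w σ hm c hT1' β γ (fun Q hQ => ⟨(hπ Q hQ).1, (hπ Q hQ).2.1⟩)
    (fun Q hQ => ⟨(hπ' Q hQ).1, (hπ' Q hQ).2.1⟩) hint h12
  have a2 := half_corona σ w hm c hT2' γ β (fun Q hQ => ⟨(hπ' Q hQ).1, (hπ' Q hQ).2.1⟩)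
    (fun Q hQ => ⟨(hπ Q hQ).1, (hπ Q hQ).2.1⟩) hint' h34
  rw [e]
  calc ∑ Q ∈ S', c Q * (∫⁻ x in Q, f x ∂w) * (∫⁻ x in Q, g x ∂σ)
      ≤ ∑ Q ∈ S'.filter (fun Q => π' Q ⊆ π Q), c Q * (β (π Q) * w Q) * (γ (π' Q) * σ Q) +
        ∑ Q ∈ S'.filter (fun Q => π Q ⊆ π' Q), c Q * (γ (π' Q) * σ Q) * (β (π Q) * w Q) := by
        rw [Finset.sum_filter (s := S'), Finset.sum_filter (s := S'), ← Finset.sum_add_distrib]
        refine Finset.sum_le_sum fun Q hQ => ?_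
        have hb : c Q * (∫⁻ x in Q, f x ∂w) * (∫⁻ x in Q, g x ∂σ) ≤
            c Q * (β (π Q) * w Q) * (γ (π' Q) * σ Q) := by
          gcongr
          · exact (hπ Q hQ).2.2
          · exact (hπ' Q hQ).2.2
        obtain ⟨x, hx⟩ : Q.Nonempty := nonempty_of_measure_ne_zero (μ := w) fun h0 =>
          (Finset.mem_filter.1 hQ).2.1 (setLIntegral_measure_zero _ _ h0)
        rcases h'.nested (hπ' Q hQ).1 (hπ Q hQ).1 ((hπ' Q hQ).2.1 hx) ((hπ Q hQ).2.1 hx) with h | h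
        · rw [if_pos h]; exact le_add_right hb
        · rw [if_pos h]; exact le_add_left (hb.trans (le_of_eq (by ring)))
    _ ≤ (κ₁ * T * (32 * ∫⁻ x, f x ^ 2 ∂w) + κ₂ * (32 * ∫⁻ x, g x ^ 2 ∂σ)) +
        (κ₃ * T * (32 * ∫⁻ x, g x ^ 2 ∂σ) + κ₄ * (32 * ∫⁻ x, f x ^ 2 ∂w)) :=
        add_le_add (a1.trans (by gcongr)) (a2.trans (by gcongr))
    _ = _ := by ring

/-- **The testing theorem.** -/
theorem testing_thm (w σ : Measure X) {S : Finset (Set X)} (h : Lam (S : Set (Set X)))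
    (hS : ∀ P ∈ S, MeasurableSet P) (hw : ∀ P ∈ S, w P ≠ ⊤) (hσ : ∀ P ∈ S, σ P ≠ ⊤)
    {c : Set X → ℝ≥0∞} (hc : ∀ P ∈ S, c P ≠ ⊤) {T : ℝ≥0∞} (hT0 : T ≠ 0) (hTt : T ≠ ⊤)
    (hT1 : ∀ R ∈ S, ∫⁻ x, sp (S.filter (· ⊆ R)) (fun Q => c Q * w Q) x ^ 2 ∂σ ≤ T * w R)
    (hT2 : ∀ R ∈ S, ∫⁻ x, sp (S.filter (· ⊆ R)) (fun Q => c Q * σ Q) x ^ 2 ∂w ≤ T * σ R)
    {f : X → ℝ≥0∞} (hf : Measurable f) :
    ∫⁻ x, sp S (fun Q => c Q * ∫⁻ y in Q, f y ∂w) x ^ 2 ∂σ ≤ 16384 * T * ∫⁻ x, f x ^ 2 ∂w := by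
  by_cases hf2 : ∫⁻ x, f x ^ 2 ∂w = ⊤
  · rw [hf2, ENNReal.mul_top (mul_ne_zero (by norm_num) hT0)]
    exact le_top
  set g := sp S (fun Q => c Q * ∫⁻ y in Q, f y ∂w) with hg
  have hgm : Measurable g := sp_meas hS _
  have hN : ∫⁻ x, g x ^ 2 ∂σ ≠ ⊤ := sp_sq_ne_top σ h hS
    (fun P hP => ENNReal.mul_ne_top (hc P hP) (setInt_ne_top w hf2 (hw P hP))) hσ
  have e : ∫⁻ x, g x ^ 2 ∂σ = ∑ Q ∈ S, c Q * (∫⁻ x in Q, f x ∂w) * (∫⁻ x in Q, g x ∂σ) := by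
    have : ∀ x, g x ^ 2 = ∑ Q ∈ S, Q.indicator (fun x => (c Q * ∫⁻ y in Q, f y ∂w) * g x) x := by
      intro x
      rw [sq]
      conv_lhs => arg 1; rw [hg, sp, Finset.sum_filter]
      rw [Finset.sum_mul]
      refine Finset.sum_congr rfl fun Q _ => ?_
      simp only [Set.indicator_apply]
      split_ifs <;> simp
    simp_rw [this]
    rw [lintegral_finsetSum _ fun Q hQ => (hgm.const_mul _).indicator (hS Q hQ)]
    refine Finset.sum_congr rfl fun Q hQ => ?_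
    rw [lintegral_indicator (hS Q hQ), lintegral_const_mul _ hgm]
  have hT' : (128 * T) ≠ 0 := mul_ne_zero (by norm_num) hT0
  have hT'' : (128 * T) ≠ ⊤ := ENNReal.mul_ne_top (by norm_num) hTt
  have := bilinear w σ h hS hw hσ c hT1 hT2 hf hgm hf2 hN (κ₁ := 128) (κ₂ := 128⁻¹)
    (κ₃ := (128 * T)⁻¹) (κ₄ := 128 * T)
    (by rw [ENNReal.mul_inv_cancel (by norm_num) (by norm_num)])
    (by rw [ENNReal.inv_mul_cancel hT' hT''])
  rw [← e] at this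
  refine absorb hN ?_
  have e2 : 2 * (32 * (128⁻¹ + (128 * T)⁻¹ * T)) = 1 := by
    rw [ENNReal.mul_inv (Or.inl (by norm_num)) (Or.inl (by norm_num)), mul_assoc _ T⁻¹,
      ENNReal.inv_mul_cancel hT0 hTt, mul_one]
    calc (2 : ℝ≥0∞) * (32 * (128⁻¹ + 128⁻¹)) = 128 * 128⁻¹ := by ring
      _ = 1 := ENNReal.mul_inv_cancel (by norm_num) (by norm_num)
  calc 2 * ∫⁻ x, g x ^ 2 ∂σ ≤ 2 * (32 * (128 * T + 128 * T) * ∫⁻ x, f x ^ 2 ∂w +
        32 * (128⁻¹ + (128 * T)⁻¹ * T) * ∫⁻ x, g x ^ 2 ∂σ) := by gcongr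
    _ = 16384 * T * ∫⁻ x, f x ^ 2 ∂w +
        2 * (32 * (128⁻¹ + (128 * T)⁻¹ * T)) * ∫⁻ x, g x ^ 2 ∂σ := by ring
    _ = _ := by rw [e2, one_mul]

end Pool.Agent.H572Z.Sp
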