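import Mathlib
import Pool.Agent.H572Z.Sp.Test
import Pool.Agent.H572Z.Sp.Defs

set_option autoImplicit false

/-!
# Luxemburg norms and the separated bump theorem for sparse operators
-/

namespace Pool.Agent.H572Z.Sp

open MeasureTheory Set Filter Topology
open scoped ENNReal Classical

variable {X : Type*} [MeasureSpace X] {Φ : ℝ → ℝ} {w : X → ℝ}

lemma IsYoung.nonneg (h : IsYoung Φ) {t : ℝ} (ht : 0 ≤ t) : 0 ≤ Φ t := by
  have := h.2.2.1 (mem_Ici.2 le_rfl) (mem_Ici.2 ht) ht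
  rwa [h.2.2.2.1] at this

lemma IsYoung.div_le (h : IsYoung Φ) {t M : ℝ} (ht : 0 ≤ t) (hM : 1 ≤ M) : Φ (t / M) ≤ Φ t / M := by
  have hM0 : 0 < M := by linarith
  have := h.2.1.2 (mem_Ici.2 ht) (mem_Ici.2 le_rfl) (show (0 : ℝ) ≤ 1 / M by positivity)
    (show (0 : ℝ) ≤ 1 - 1 / M by rw [sub_nonneg, div_le_one hM0]; exact hM) (by ring)
  simp only [smul_eq_mul, mul_zero, add_zero, h.2.2.2.1] at this
  calc Φ (t / M) = Φ (1 / M * t) := by congr 1; ring
    _ ≤ 1 / M * Φ t := this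
    _ = _ := by ring

lemma IsYoung.exists_ge (h : IsYoung Φ) : ∃ t₀ : ℝ, 0 < t₀ ∧ ∀ t, t₀ ≤ t → t ≤ Φ t := by
  obtain ⟨t₀, ht₀⟩ := eventually_atTop.1 (h.2.2.2.2.eventually_ge_atTop 1)
  refine ⟨max t₀ 1, by positivity, fun t ht => ?_⟩
  have h1 : 0 < t := lt_of_lt_of_le (by positivity) ht
  have := ht₀ t ((le_max_left _ _).trans ht)
  rwa [le_div_iff₀ h1, one_mul] at this

lemma IsYoung.meas (h : IsYoung Φ) (hw : Measurable w) {l : ℝ} (hl : 0 < l) :
    Measurable (fun x => ENNReal.ofReal (Φ (|w x| / l))) := by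
  have h1 : Monotone (fun t : ℝ => Φ (max t 0)) := fun a b hab =>
    h.2.2.1 (mem_Ici.2 (le_max_right _ _)) (mem_Ici.2 (le_max_right _ _)) (max_le_max hab le_rfl)
  have e : (fun x => ENNReal.ofReal (Φ (|w x| / l))) =
      fun x => ENNReal.ofReal (Φ (max (|w x| / l) 0)) := by
    funext x; rw [max_eq_left (by positivity)]
  rw [e]
  exact (h1.measurable.comp (hw.abs.div_const l)).ennreal_ofReal

lemma le_mul_lux {Q : Set X} (h0 : volume Q ≠ 0) (ht : volume Q ≠ ⊤) {y c : ℝ≥0∞} (hc0 : c ≠ 0)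
    (hct : c ≠ ⊤) (h : ∀ l : ℝ, 0 < l → ∫⁻ x in Q, ENNReal.ofReal (Φ (|w x| / l)) ≤ volume Q →
      y ≤ c * ENNReal.ofReal l) : y ≤ c * lux Φ w Q := by
  rw [← ENNReal.div_le_iff' hc0 hct]
  refine le_iInf fun l => le_iInf fun hl => le_iInf fun hl' => ?_
  rw [ENNReal.div_le_iff' hc0 hct]
  refine h l hl ?_
  rwa [ENNReal.div_le_iff h0 ht, one_mul] at hl'

lemma lux_le {Q : Set X} {l : ℝ} (hl : 0 < l)
    (h : ∫⁻ x in Q, ENNReal.ofReal (Φ (|w x| / l)) ≤ volume Q) : lux Φ w Q ≤ ENNReal.ofReal l :=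
  iInf_le_of_le l (iInf_le_of_le hl (iInf_le_of_le (ENNReal.div_le_of_le_mul (by rwa [one_mul]))
    le_rfl))

lemma adm_of_lt (h : IsYoung Φ) {Q : Set X} (h0 : volume Q ≠ 0) (ht : volume Q ≠ ⊤) {l : ℝ}
    (hl : lux Φ w Q < ENNReal.ofReal l) :
    ∫⁻ x in Q, ENNReal.ofReal (Φ (|w x| / l)) ≤ volume Q := by
  simp only [lux, iInf_lt_iff] at hl
  obtain ⟨l', hl0, hl1, hl2⟩ := hl
  rw [ENNReal.div_le_iff h0 ht, one_mul] at hl1
  have hll : l' ≤ l := ((ENNReal.ofReal_lt_ofReal_iff_of_nonneg hl0.le).1 hl2).le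
  have hl3 : 0 < l := hl0.trans_le hll
  refine le_trans (lintegral_mono fun x => ENNReal.ofReal_le_ofReal ?_) hl1
  exact h.2.2.1 (mem_Ici.2 (by positivity)) (mem_Ici.2 (by positivity))
    (div_le_div_of_nonneg_left (abs_nonneg _) hl0 hll)

lemma lux_mul_le (h : IsYoung Φ) {Q : Set X} (h0 : volume Q ≠ 0)
    (ht : volume Q ≠ ⊤) {l : ℝ} (hl : 0 < l) :
    lux Φ w Q * volume Q ≤
      ENNReal.ofReal l * (volume Q + ∫⁻ x in Q, ENNReal.ofReal (Φ (|w x| / l))) := by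
  set I := ∫⁻ x in Q, ENNReal.ofReal (Φ (|w x| / l)) with hI
  by_cases hIt : I = ⊤
  · rw [hIt, add_top, ENNReal.mul_top (ENNReal.ofReal_pos.2 hl).ne']
    exact le_top
  set M : ℝ := 1 + (I / volume Q).toReal with hM
  have hM1 : 1 ≤ M := by rw [hM]; linarith [ENNReal.toReal_nonneg (a := I / volume Q)]
  have hM0 : 0 < M := by linarith
  have hMe : ENNReal.ofReal M * volume Q = volume Q + I := by
    rw [hM, ENNReal.ofReal_add zero_le_one ENNReal.toReal_nonneg, ENNReal.ofReal_one,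
      ENNReal.ofReal_toReal (ENNReal.div_ne_top hIt h0), add_mul, one_mul,
      ENNReal.div_mul_cancel h0 ht]
  have h1 : lux Φ w Q ≤ ENNReal.ofReal (l * M) := by
    refine lux_le (by positivity) ?_
    have hM' : ENNReal.ofReal M ≠ 0 := (ENNReal.ofReal_pos.2 hM0).ne'
    refine (ENNReal.mul_le_mul_iff_right hM' ENNReal.ofReal_ne_top).1 ?_
    rw [hMe, ← lintegral_const_mul' _ _ ENNReal.ofReal_ne_top]
    refine le_add_left (lintegral_mono fun x => ?_)
    rw [← ENNReal.ofReal_mul hM0.le]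
    refine ENNReal.ofReal_le_ofReal ?_
    rw [← div_div, mul_comm, ← le_div_iff₀ hM0]
    exact h.div_le (by positivity) hM1
  calc lux Φ w Q * volume Q ≤ ENNReal.ofReal (l * M) * volume Q := by gcongr
    _ = _ := by rw [ENNReal.ofReal_mul hl.le, mul_assoc, hMe]

lemma lux_markov (h : IsYoung Φ) {P : Set X} (hP : MeasurableSet P) (h0 : volume P ≠ 0)
    (ht : volume P ≠ ⊤) {F : Finset (Set X)} (hF : ∀ Q ∈ F, MeasurableSet Q)
    (hF0 : ∀ Q ∈ F, volume Q ≠ 0) (hd : (F : Set (Set X)).PairwiseDisjoint id)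
    (hsub : ∀ Q ∈ F, Q ⊆ P) :
    ∑ Q ∈ F, lux Φ w Q * volume Q ≤ 2 * (lux Φ w P * volume P) := by
  have : ∑ Q ∈ F, lux Φ w Q * volume Q ≤ (2 * volume P) * lux Φ w P := by
    refine le_mul_lux h0 ht (mul_ne_zero (by norm_num) h0) (ENNReal.mul_ne_top (by norm_num) ht)
      fun l hl hadm => ?_
    set ν : Measure X := volume.withDensity (fun x => ENNReal.ofReal (Φ (|w x| / l))) with hν
    calc ∑ Q ∈ F, lux Φ w Q * volume Q ≤ ∑ Q ∈ F, ENNReal.ofReal l * (volume Q + ν Q) := by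
          refine Finset.sum_le_sum fun Q hQ => ?_
          rw [hν, withDensity_apply _ (hF Q hQ)]
          exact lux_mul_le h (hF0 Q hQ) (ne_top_of_le_ne_top ht (measure_mono (hsub Q hQ))) hl
      _ = ENNReal.ofReal l * (∑ Q ∈ F, volume Q + ∑ Q ∈ F, ν Q) := by
          rw [← Finset.mul_sum, Finset.sum_add_distrib]
      _ ≤ ENNReal.ofReal l * (volume P + volume P) := by
          gcongr
          · exact sum_meas_le volume hF hd hsub
          · refine (sum_meas_le ν hF hd hsub).trans ?_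
            rwa [hν, withDensity_apply _ hP]
      _ = _ := by ring
  exact this.trans (le_of_eq (by ring))

lemma avg_le_lux (h : IsYoung Φ) : ∃ c₀ : ℝ≥0∞, c₀ ≠ ⊤ ∧ ∀ (w : X → ℝ), (∀ x, 0 ≤ w x) →
    ∀ Q : Set X, volume Q ≠ 0 → volume Q ≠ ⊤ → avg w Q ≤ c₀ * lux Φ w Q := by
  obtain ⟨t₀, ht₀, ht⟩ := h.exists_ge
  refine ⟨1 + ENNReal.ofReal t₀, by simp, fun w hw Q h0 hQ => ?_⟩
  refine le_mul_lux h0 hQ (by simp) (by simp) fun l hl hadm => ?_
  refine ENNReal.div_le_of_le_mul ?_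
  calc ∫⁻ x in Q, ENNReal.ofReal (w x)
      ≤ ∫⁻ x in Q, ENNReal.ofReal l * (ENNReal.ofReal (Φ (|w x| / l)) + ENNReal.ofReal t₀) := by
        refine lintegral_mono fun x => ?_
        have h1 : 0 ≤ |w x| / l := by positivity
        rw [← ENNReal.ofReal_add (h.nonneg h1) ht₀.le, ← ENNReal.ofReal_mul hl.le]
        refine ENNReal.ofReal_le_ofReal ?_
        rw [mul_comm, ← div_le_iff₀ hl, ← abs_of_nonneg (hw x), abs_abs]
        by_cases hc : t₀ ≤ |w x| / l
        · linarith [ht _ hc]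
        · linarith [h.nonneg h1]
    _ = ENNReal.ofReal l * ((∫⁻ x in Q, ENNReal.ofReal (Φ (|w x| / l))) +
          ENNReal.ofReal t₀ * volume Q) := by
        rw [lintegral_const_mul' _ _ ENNReal.ofReal_ne_top, lintegral_add_right _ measurable_const,
          setLIntegral_const]
    _ ≤ ENNReal.ofReal l * (volume Q + ENNReal.ofReal t₀ * volume Q) := by gcongr
    _ = _ := by ring

lemma exists_seq (h : IsYoung Φ) {c : ℝ} (hc : 0 < c)
    (hint : ∫⁻ x in Ioi c, (ENNReal.ofReal (Φ x))⁻¹ < ⊤) :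
    ∃ Y P : ℕ → ℝ, (∀ j, 0 < Y j) ∧ (∀ j, 0 < P j) ∧
      (∀ y, 0 ≤ y → ∃ j, y ≤ Y j ∧ P j ≤ Φ y + 1) ∧ ∑' j, ENNReal.ofReal (Y j / P j) ≠ ⊤ := by
  obtain ⟨t₀, ht₀, ht⟩ := h.exists_ge
  set e := max c t₀ with he
  have he0 : 0 < e := lt_of_lt_of_le hc (le_max_left _ _)
  have hpow : ∀ j : ℕ, e ≤ e * 2 ^ j := fun j =>
    le_mul_of_one_le_right he0.le (one_le_pow₀ (by norm_num))
  have hΦ : ∀ j : ℕ, 0 < Φ (e * 2 ^ j) := fun j =>
    lt_of_lt_of_le (by positivity) (ht _ ((le_max_right _ _).trans (hpow j)))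
  refine ⟨fun j => e * 2 ^ (j + 1), fun j => if j = 0 then 1 else Φ (e * 2 ^ j),
    fun j => by positivity, fun j => ?_, fun y hy => ?_, ?_⟩
  · beta_reduce
    split_ifs
    · exact one_pos
    · exact hΦ j
  · by_cases hc : y ≤ e * 2
    · exact ⟨0, by simpa using hc, by simpa using h.nonneg hy⟩
    · push Not at hc
      obtain ⟨n, hn1, hn2⟩ := exists_nat_pow_near (x := y / (e * 2)) (y := 2)
        (by rw [le_div_iff₀ (by positivity)]; linarith) (by norm_num)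
      rw [le_div_iff₀ (by positivity)] at hn1
      rw [div_lt_iff₀ (by positivity)] at hn2
      refine ⟨n + 1, ?_, ?_⟩
      · calc y ≤ 2 ^ (n + 1) * (e * 2) := hn2.le
          _ = _ := by ring
      · simp only [Nat.succ_ne_zero, if_false]
        have : Φ (e * 2 ^ (n + 1)) ≤ Φ y := h.2.2.1 (mem_Ici.2 (by positivity)) (mem_Ici.2 hy)
          (by calc e * 2 ^ (n + 1) = 2 ^ n * (e * 2) := by ring
            _ ≤ y := hn1)
        linarith
  · rw [tsum_eq_zero_add' ENNReal.summable]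
    refine ENNReal.add_ne_top.2 ⟨ENNReal.ofReal_ne_top, ?_⟩
    simp only [Nat.succ_ne_zero, if_false]
    have h1 : ∀ j : ℕ, ENNReal.ofReal (e * 2 ^ (j + 1 + 1) / Φ (e * 2 ^ (j + 1))) ≤
        4 * ∫⁻ x in Ioc (e * 2 ^ j) (e * 2 ^ (j + 1)), (ENNReal.ofReal (Φ x))⁻¹ := by
      intro j
      calc ENNReal.ofReal (e * 2 ^ (j + 1 + 1) / Φ (e * 2 ^ (j + 1)))
          = 4 * ∫⁻ _ in Ioc (e * 2 ^ j) (e * 2 ^ (j + 1)),
            (ENNReal.ofReal (Φ (e * 2 ^ (j + 1))))⁻¹ := by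
            rw [setLIntegral_const, Real.volume_Ioc, ← ENNReal.ofReal_inv_of_pos (hΦ _),
              ← ENNReal.ofReal_mul (inv_nonneg.2 (hΦ _).le), ← ENNReal.ofReal_ofNat 4,
              ← ENNReal.ofReal_mul (by norm_num)]
            congr 1
            rw [div_eq_mul_inv]; ring
        _ ≤ _ := by
            gcongr 4 * ?_
            refine setLIntegral_mono' measurableSet_Ioc fun x hx => ?_
            refine ENNReal.inv_le_inv.2 (ENNReal.ofReal_le_ofReal ?_)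
            have : 0 < x := lt_of_le_of_lt (by positivity) hx.1
            exact h.2.2.1 (mem_Ici.2 this.le) (mem_Ici.2 (by positivity)) hx.2
    refine ne_top_of_le_ne_top ?_ (ENNReal.tsum_le_tsum h1)
    rw [ENNReal.tsum_mul_left, ← lintegral_iUnion (fun _ => measurableSet_Ioc)]
    · refine ENNReal.mul_ne_top (by norm_num) (ne_top_of_le_ne_top hint.ne ?_)
      refine lintegral_mono_set (iUnion_subset fun j x hx => ?_)
      exact lt_of_le_of_lt ((le_max_left _ _).trans (hpow j)) hx.1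
    · have hm : Monotone (fun j : ℕ => e * (2 : ℝ) ^ j) := fun a b hab => by
        simp only
        gcongr
        norm_num
      exact hm.pairwise_disjoint_on_Ioc_succ

/-- The Carleson-type embedding for Orlicz bumps. -/
lemma embedding (h : IsYoung Φ) {c : ℝ} (hc : 0 < c)
    (hint : ∫⁻ x in Ioi c, (ENNReal.ofReal (Φ x))⁻¹ < ⊤) :
    ∃ CE : ℝ≥0∞, CE ≠ ⊤ ∧ ∀ (w : X → ℝ), Measurable w → (∀ x, 0 ≤ w x) →
      ∀ (S : Finset (Set X)) (C : ℝ≥0∞) (R : Set X), Lam (S : Set (Set X)) →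
      (∀ P ∈ S, MeasurableSet P) → (∀ P ∈ S, volume P ≠ 0) → (∀ P ∈ S, volume P ≠ ⊤) →
      (∀ P ∈ S, avg w P ≠ 0) → (∀ P ∈ S, avg w P ≠ ⊤) → (∀ P ∈ S, lux Φ w P ≠ 0) →
      (∀ P ∈ S, lux Φ w P ≠ ⊤) →
      (∀ P ∈ S, ∑ Q ∈ S.filter (· ⊆ P), volume Q ≤ C * volume P) → MeasurableSet R →
      (∀ P ∈ S, P ⊆ R) →
      ∑ Q ∈ S, avg w Q ^ 2 / lux Φ w Q * volume Q ≤ C * CE * ∫⁻ x in R, ENNReal.ofReal (w x) := by
  obtain ⟨Y, P, hY, hP, hYP, hsum⟩ := exists_seq h hc hint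
  refine ⟨144 * ∑' j, ENNReal.ofReal (Y j / P j), ENNReal.mul_ne_top (by norm_num) hsum, ?_⟩
  intro w hw hw0 S C R hlam hm h0 ht ha0 hat hb0 hbt hcar hR hSR
  set v : ℕ → X → ℝ≥0∞ := fun j x => ENNReal.ofReal (3 * √(Y j * w x)) with hv
  have hvm : ∀ j, Measurable (v j) := fun j =>
    (((hw.const_mul _).sqrt).const_mul 3).ennreal_ofReal
  set Ψ : ℤ → X → ℝ≥0∞ := fun m x =>
    ∑' j, if ENNReal.ofReal (P j) * 2 ^ m < v j x then v j x else 0 with hΨ
  have hΨm : ∀ m, Measurable (Ψ m) := fun m => Measurable.tsum fun j =>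
    Measurable.ite (measurableSet_lt measurable_const (hvm j)) (hvm j) measurable_const
  have key : ∀ Q, ∃ m : ℤ, Q ∈ S → avg w Q ^ 2 / lux Φ w Q ≤ 8 * (2 ^ m) ^ 2 ∧
      2 ^ m * volume Q ≤ ∫⁻ x in Q, Ψ m x := by
    intro Q
    by_cases hQ : Q ∈ S
    swap
    · exact ⟨0, fun h => absurd h hQ⟩
    set l : ℝ := 2 * (lux Φ w Q).toReal with hl
    have hb : 0 < (lux Φ w Q).toReal := ENNReal.toReal_pos (hb0 Q hQ) (hbt Q hQ)
    have hl0 : 0 < l := by positivity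
    have hle : ENNReal.ofReal l = 2 * lux Φ w Q := by
      rw [hl, ENNReal.ofReal_mul (by norm_num), ENNReal.ofReal_toReal (hbt Q hQ),
        ENNReal.ofReal_ofNat]
    have hadm := adm_of_lt (w := w) h (h0 Q hQ) (ht Q hQ) (l := l) (by
      rw [hle, two_mul]
      exact ENNReal.lt_add_right (hbt Q hQ) (hb0 Q hQ))
    set r := ENNReal.ofReal (√l) with hr
    have hr0 : r ≠ 0 := (ENNReal.ofReal_pos.2 (Real.sqrt_pos.2 hl0)).ne'
    have hrt : r ≠ ⊤ := ENNReal.ofReal_ne_top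
    have hr2 : r ^ 2 = 2 * lux Φ w Q := by
      rw [hr, ← ENNReal.ofReal_pow (Real.sqrt_nonneg _), Real.sq_sqrt hl0.le, hle]
    obtain ⟨m, hm1, hm2⟩ := ENNReal.exists_mem_Ioc_zpow (x := avg w Q / r) (y := 2)
      (ENNReal.div_pos (ha0 Q hQ) hrt).ne' (ENNReal.div_ne_top (hat Q hQ) hr0) (by norm_num)
      (by norm_num)
    refine ⟨m, fun _ => ⟨?_, ?_⟩⟩
    · refine ENNReal.div_le_of_le_mul ?_
      rw [ENNReal.div_le_iff hr0 hrt, two_zpow_succ] at hm2
      calc avg w Q ^ 2 ≤ (2 * 2 ^ m * r) ^ 2 := by gcongr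
        _ = 4 * (2 ^ m) ^ 2 * r ^ 2 := by ring
        _ = _ := by rw [hr2]; ring
    · have hfin : 2 * (2 ^ m * volume Q) ≠ ⊤ := ENNReal.mul_ne_top (by norm_num)
        (ENNReal.mul_ne_top (two_zpow_ne_top m) (ht Q hQ))
      refine (ENNReal.add_le_add_iff_right hfin).1 ?_
      have hpt : ∀ x, 3 * r⁻¹ * ENNReal.ofReal (w x) ≤
          Ψ m x + 2 ^ m * (ENNReal.ofReal (Φ (|w x| / l)) + 1) := by
        intro x
        have hy : 0 ≤ |w x| / l := by positivity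
        obtain ⟨j, hj1, hj2⟩ := hYP _ hy
        have h1 : 3 * r⁻¹ * ENNReal.ofReal (w x) ≤ v j x := by
          have hs : 0 < √l := Real.sqrt_pos.2 hl0
          rw [hr, ← ENNReal.ofReal_inv_of_pos hs, ← ENNReal.ofReal_ofNat 3,
            ← ENNReal.ofReal_mul (by norm_num), ← ENNReal.ofReal_mul (by positivity)]
          refine ENNReal.ofReal_le_ofReal ?_
          rw [mul_assoc]
          gcongr
          refine Real.le_sqrt_of_sq_le ?_
          rw [mul_pow, inv_pow, Real.sq_sqrt hl0.le]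
          rw [abs_of_nonneg (hw0 x)] at hj1
          calc l⁻¹ * w x ^ 2 = w x / l * w x := by ring
            _ ≤ Y j * w x := by gcongr; exact hw0 x
        by_cases hc : ENNReal.ofReal (P j) * 2 ^ m < v j x
        · refine le_add_right (h1.trans (le_trans ?_ (ENNReal.le_tsum j)))
          rw [if_pos hc]
        · refine le_add_left (h1.trans ((not_lt.1 hc).trans ?_))
          rw [mul_comm]
          gcongr
          rw [← ENNReal.ofReal_one, ← ENNReal.ofReal_add (h.nonneg hy) zero_le_one]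
          exact ENNReal.ofReal_le_ofReal hj2
      calc 2 ^ m * volume Q + 2 * (2 ^ m * volume Q) = 3 * (2 ^ m * volume Q) := by ring
        _ ≤ 3 * (avg w Q / r * volume Q) := by gcongr
        _ = ∫⁻ x in Q, 3 * r⁻¹ * ENNReal.ofReal (w x) := by
            rw [lintegral_const_mul _ hw.ennreal_ofReal,
              ← ENNReal.div_mul_cancel (a := volume Q) (b := ∫⁻ x in Q, ENNReal.ofReal (w x))
                (h0 Q hQ) (ht Q hQ)]
            simp only [avg, div_eq_mul_inv]; ring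
        _ ≤ ∫⁻ x in Q, (Ψ m x + 2 ^ m * (ENNReal.ofReal (Φ (|w x| / l)) + 1)) :=
            lintegral_mono hpt
        _ = (∫⁻ x in Q, Ψ m x) +
            2 ^ m * ((∫⁻ x in Q, ENNReal.ofReal (Φ (|w x| / l))) + volume Q) := by
            rw [lintegral_add_left (hΨm m), lintegral_const_mul' _ _ (two_zpow_ne_top m),
              lintegral_add_right _ measurable_const, setLIntegral_const, one_mul]
        _ ≤ (∫⁻ x in Q, Ψ m x) + 2 ^ m * (volume Q + volume Q) := by gcongr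
        _ = _ := by ring
  choose m hm' using key
  have hpt : ∀ x, ∑ k ∈ S.image m, 2 ^ k * Ψ k x ≤
      18 * (∑' j, ENNReal.ofReal (Y j / P j)) * ENNReal.ofReal (w x) := by
    intro x
    simp only [hΨ]
    simp_rw [← ENNReal.tsum_mul_left]
    rw [← Summable.tsum_finsetSum (fun _ _ => ENNReal.summable), ← ENNReal.tsum_mul_right]
    refine ENNReal.tsum_le_tsum fun j => ?_
    have hP0 : ENNReal.ofReal (P j) ≠ 0 := (ENNReal.ofReal_pos.2 (hP j)).ne'
    calc ∑ k ∈ S.image m, (2 : ℝ≥0∞) ^ k * (if ENNReal.ofReal (P j) * 2 ^ k < v j x then v j x else 0)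
        = v j x * ∑ k ∈ (S.image m).filter (fun k => ENNReal.ofReal (P j) * 2 ^ k < v j x),
            (2 : ℝ≥0∞) ^ k := by
          rw [Finset.mul_sum, Finset.sum_filter]
          refine Finset.sum_congr rfl fun k _ => ?_
          split_ifs
          · ring
          · simp
      _ ≤ v j x * (2 * (v j x / ENNReal.ofReal (P j))) := by
          gcongr
          refine sum_zpow_le _ _ fun k hk => ?_
          rw [ENNReal.le_div_iff_mul_le (Or.inl hP0) (Or.inl ENNReal.ofReal_ne_top), mul_comm]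
          exact (Finset.mem_filter.1 hk).2.le
      _ = 18 * ENNReal.ofReal (Y j / P j) * ENNReal.ofReal (w x) := by
          have e : v j x * v j x = 9 * ENNReal.ofReal (Y j) * ENNReal.ofReal (w x) := by
            simp only [hv]
            rw [← ENNReal.ofReal_mul (by positivity), ← ENNReal.ofReal_ofNat 9,
              ← ENNReal.ofReal_mul (by norm_num),
              ← ENNReal.ofReal_mul (by have := hY j; positivity)]
            congr 1
            have := Real.mul_self_sqrt (mul_nonneg (hY j).le (hw0 x))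
            calc 3 * √(Y j * w x) * (3 * √(Y j * w x)) = 9 * (√(Y j * w x) * √(Y j * w x)) := by ring
              _ = _ := by rw [this]; ring
          rw [ENNReal.ofReal_div_of_pos (hP j)]
          calc v j x * (2 * (v j x / ENNReal.ofReal (P j)))
              = 2 * (v j x * v j x) * (ENNReal.ofReal (P j))⁻¹ := by rw [div_eq_mul_inv]; ring
            _ = _ := by rw [e, div_eq_mul_inv]; ring
  calc ∑ Q ∈ S, avg w Q ^ 2 / lux Φ w Q * volume Q
      ≤ ∑ Q ∈ S, 8 * (2 ^ m Q) ^ 2 * volume Q :=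
        Finset.sum_le_sum fun Q hQ => mul_le_mul_left (hm' Q hQ).1 _
    _ = ∑ k ∈ S.image m, ∑ Q ∈ S.filter (fun Q => m Q = k), 8 * (2 ^ m Q) ^ 2 * volume Q :=
        (Finset.sum_fiberwise_of_maps_to (fun Q hQ => Finset.mem_image_of_mem _ hQ) _).symm
    _ ≤ ∑ k ∈ S.image m, 8 * C * ∫⁻ x in R, 2 ^ k * Ψ k x := by
        refine Finset.sum_le_sum fun k _ => ?_
        set Sk := S.filter (fun Q => m Q = k) with hSk
        have hSkS : Sk ⊆ S := Finset.filter_subset _ _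
        set ν : Measure X := volume.withDensity (Ψ k) with hν
        calc ∑ Q ∈ Sk, 8 * ((2 : ℝ≥0∞) ^ m Q) ^ 2 * volume Q
            = 8 * ((2 : ℝ≥0∞) ^ k) ^ 2 * ∑ Q ∈ Sk, volume Q := by
              rw [Finset.mul_sum]
              refine Finset.sum_congr rfl fun Q hQ => ?_
              rw [(Finset.mem_filter.1 hQ).2]
          _ ≤ 8 * ((2 : ℝ≥0∞) ^ k) ^ 2 * ∑ Q ∈ mx Sk, C * volume Q := by
              gcongr
              refine (sum_le_sum_mx _ _).trans (Finset.sum_le_sum fun Q hQ => ?_)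
              exact le_trans (Finset.sum_le_sum_of_subset (Finset.filter_subset_filter _ hSkS))
                (hcar Q (hSkS (mx_subset _ hQ)))
          _ = 8 * C * (2 ^ k * ∑ Q ∈ mx Sk, 2 ^ k * volume Q) := by
              rw [← Finset.mul_sum, ← Finset.mul_sum]; ring
          _ ≤ 8 * C * (2 ^ k * ∑ Q ∈ mx Sk, ν Q) := by
              gcongr with Q hQ
              have hQ' := Finset.mem_filter.1 (mx_subset _ hQ)
              rw [hν, withDensity_apply _ (hm Q hQ'.1), ← hQ'.2]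
              exact (hm' Q hQ'.1).2
          _ ≤ 8 * C * (2 ^ k * ν R) := by
              gcongr
              exact sum_mx_le ν (hlam.mono (Finset.coe_subset.2 hSkS))
                (fun Q hQ => hm Q (hSkS hQ)) (fun Q hQ => hSR Q (hSkS hQ))
          _ = _ := by rw [hν, withDensity_apply _ hR, lintegral_const_mul _ (hΨm k)]
    _ = 8 * C * ∫⁻ x in R, ∑ k ∈ S.image m, 2 ^ k * Ψ k x := by
        rw [← Finset.mul_sum, lintegral_finsetSum _ fun k _ => (hΨm k).const_mul _]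
    _ ≤ 8 * C * ∫⁻ x in R, 18 * (∑' j, ENNReal.ofReal (Y j / P j)) * ENNReal.ofReal (w x) := by
        gcongr with x
        exact hpt x
    _ = _ := by rw [lintegral_const_mul _ hw.ennreal_ofReal]; ring

/-- The weighted measure `w dx`. -/
noncomputable def wm (w : X → ℝ) : Measure X := volume.withDensity (fun x => ENNReal.ofReal (w x))

lemma wm_apply (w : X → ℝ) {Q : Set X} (hQ : MeasurableSet Q) :
    wm w Q = ∫⁻ x in Q, ENNReal.ofReal (w x) := withDensity_apply _ hQ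

lemma avg_eq (w : X → ℝ) {Q : Set X} (hQ : MeasurableSet Q) : avg w Q = (volume Q)⁻¹ * wm w Q := by
  rw [wm_apply w hQ, avg, div_eq_mul_inv, mul_comm]

lemma test_one (h : IsYoung Φ) {c : ℝ} (hc : 0 < c)
    (hint : ∫⁻ x in Ioi c, (ENNReal.ofReal (Φ x))⁻¹ < ⊤) {K C : ℝ≥0∞} (hK : K ≠ ⊤) (hC : C ≠ ⊤) :
    ∃ T : ℝ≥0∞, T ≠ ⊤ ∧ ∀ (w σ : X → ℝ), Measurable w → (∀ x, 0 ≤ w x) →
      ∀ (S : Finset (Set X)), Lam (S : Set (Set X)) →
      (∀ P ∈ S, MeasurableSet P) → (∀ P ∈ S, volume P ≠ 0) → (∀ P ∈ S, volume P ≠ ⊤) →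
      (∀ P ∈ S, wm w P ≠ 0) → (∀ P ∈ S, wm w P ≠ ⊤) → (∀ P ∈ S, wm σ P ≠ 0) →
      (∀ P ∈ S, wm σ P ≠ ⊤) → (∀ P ∈ S, lux Φ w P * avg σ P ≤ K) →
      (∀ P ∈ S, ∑ Q ∈ S.filter (· ⊆ P), volume Q ≤ C * volume P) →
      ∀ R ∈ S, ∫⁻ x, sp (S.filter (· ⊆ R)) (fun Q => (volume Q)⁻¹ * wm w Q) x ^ 2 ∂(wm σ) ≤
        T * wm w R := by
  obtain ⟨CE, hCE, hemb⟩ := embedding (X := X) h hc hint
  obtain ⟨c₀, hc₀, hav⟩ := avg_le_lux (X := X) h
  set K' := (c₀ + 1) * (K + 1) with hK'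
  have hK't : K' ≠ ⊤ := ENNReal.mul_ne_top (by simpa using hc₀) (by simpa using hK)
  have hC' : C + 1 ≠ ⊤ := by simpa using hC
  refine ⟨64 * K' * (C + 1) * ((C + 1) * CE) + 512 * K' * (C + 1) ^ 2, by finiteness, ?_⟩
  intro w σ hw hw0 S hlam hm h0 ht hu0 hut hs0 hst hb hcar R hR
  set S' := S.filter (· ⊆ R) with hS'
  have hsub : S' ⊆ S := Finset.filter_subset _ _
  have ha0 : ∀ P ∈ S, avg w P ≠ 0 := fun P hP => by
    rw [avg_eq w (hm P hP)]; exact mul_ne_zero (ENNReal.inv_ne_zero.2 (ht P hP)) (hu0 P hP)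
  have hat : ∀ P ∈ S, avg w P ≠ ⊤ := fun P hP => by
    rw [avg_eq w (hm P hP)]; exact ENNReal.mul_ne_top (ENNReal.inv_ne_top.2 (h0 P hP)) (hut P hP)
  have hσ0 : ∀ P ∈ S, avg σ P ≠ 0 := fun P hP => by
    rw [avg_eq σ (hm P hP)]; exact mul_ne_zero (ENNReal.inv_ne_zero.2 (ht P hP)) (hs0 P hP)
  have hb0 : ∀ P ∈ S, lux Φ w P ≠ 0 := fun P hP h => by
    have := hav w hw0 P (h0 P hP) (ht P hP)
    rw [h, mul_zero] at this
    exact ha0 P hP (le_zero_iff.1 this)
  have hbt : ∀ P ∈ S, lux Φ w P ≠ ⊤ := fun P hP h => by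
    have := hb P hP
    rw [h, ENNReal.top_mul (hσ0 P hP)] at this
    exact hK (top_le_iff.1 this)
  have hcar' : ∀ P ∈ S', ∑ Q ∈ S'.filter (· ⊆ P), volume Q ≤ (C + 1) * volume P := fun P hP =>
    (Finset.sum_le_sum_of_subset (Finset.filter_subset_filter _ hsub)).trans
      ((hcar P (hsub hP)).trans (by gcongr; exact le_self_add))
  have hmul : ∀ (u : X → ℝ), ∀ P ∈ S, wm u P = avg u P * volume P := fun u P hP => by
    rw [avg_eq u (hm P hP), mul_comm, ← mul_assoc, ENNReal.mul_inv_cancel (h0 P hP) (ht P hP),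
      one_mul]
  have H : BData volume (wm w) (wm σ) S' (avg w) (avg σ) (lux Φ w) K' (C + 1) :=
    { lam := hlam.mono (Finset.coe_subset.2 hsub)
      meas := fun P hP => hm P (hsub hP)
      ne := fun P hP => nonempty_of_measure_ne_zero (h0 P (hsub hP))
      ufin := fun P hP => hut P (hsub hP)
      sfin := fun P hP => hst P (hsub hP)
      afin := fun P hP => hat P (hsub hP)
      ha := fun P hP => hmul w P (hsub hP)
      hs := fun P hP => hmul σ P (hsub hP)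
      b0 := fun P hP => hb0 P (hsub hP)
      bfin := fun P hP => hbt P (hsub hP)
      K0 := mul_ne_zero (by simp) (by simp)
      Kfin := hK't
      C0 := by simp
      Cfin := hC'
      hK1 := fun P hP => by
        calc avg w P * avg σ P ≤ c₀ * lux Φ w P * avg σ P := by
              gcongr; exact hav w hw0 P (h0 P (hsub hP)) (ht P (hsub hP))
          _ = c₀ * (lux Φ w P * avg σ P) := by ring
          _ ≤ (c₀ + 1) * (K + 1) := by
              gcongr
              · exact le_self_add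
              · exact (hb P (hsub hP)).trans le_self_add
      hK2 := fun P hP => by
        calc lux Φ w P * avg σ P ≤ 1 * (K + 1) := by
              rw [one_mul]; exact (hb P (hsub hP)).trans le_self_add
          _ ≤ (c₀ + 1) * (K + 1) := by gcongr; exact le_add_self
      car := hcar'
      markov := fun P hP F hF hd hFP => lux_markov h (hm P (hsub hP)) (h0 P (hsub hP))
        (ht P (hsub hP)) (fun Q hQ => hm Q (hsub (hF hQ))) (fun Q hQ => h0 Q (hsub (hF hQ))) hd hFP }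
  have hE := hemb w hw hw0 S' (C + 1) R H.lam H.meas (fun P hP => h0 P (hsub hP))
    (fun P hP => ht P (hsub hP)) (fun P hP => ha0 P (hsub hP)) H.afin H.b0 H.bfin hcar' (hm R hR)
    (fun P hP => (Finset.mem_filter.1 hP).2)
  rw [← wm_apply w (hm R hR)] at hE
  refine le_trans (le_of_eq ?_) (H.testing (fun P hP => (Finset.mem_filter.1 hP).2) hE)
  refine lintegral_congr fun x => ?_
  congr 1
  exact Finset.sum_congr rfl fun Q hQ => (avg_eq w (H.meas Q (Finset.mem_filter.1 hQ).1)).symm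

/-- **Separated bump theorem for sparse operators on laminar families.** -/
theorem sparse_bound {Φ₁ Φ₂ : ℝ → ℝ} (h₁ : IsYoung Φ₁) (h₂ : IsYoung Φ₂) {c₁ c₂ : ℝ} (hc₁ : 0 < c₁)
    (hc₂ : 0 < c₂) (hi₁ : ∫⁻ x in Ioi c₁, (ENNReal.ofReal (Φ₁ x))⁻¹ < ⊤)
    (hi₂ : ∫⁻ x in Ioi c₂, (ENNReal.ofReal (Φ₂ x))⁻¹ < ⊤) {K C : ℝ≥0∞} (hK : K ≠ ⊤) (hC : C ≠ ⊤) :
    ∃ B : ℝ≥0∞, B ≠ ⊤ ∧ ∀ (w σ : X → ℝ), Measurable w → (∀ x, 0 ≤ w x) → Measurable σ →
      (∀ x, 0 ≤ σ x) → ∀ (S : Finset (Set X)), Lam (S : Set (Set X)) →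
      (∀ P ∈ S, MeasurableSet P) → (∀ P ∈ S, volume P ≠ 0) → (∀ P ∈ S, volume P ≠ ⊤) →
      (∀ P ∈ S, wm w P ≠ ⊤) → (∀ P ∈ S, wm σ P ≠ ⊤) → (∀ P ∈ S, lux Φ₁ w P * avg σ P ≤ K) →
      (∀ P ∈ S, avg w P * lux Φ₂ σ P ≤ K) →
      (∀ P ∈ S, ∑ Q ∈ S.filter (· ⊆ P), volume Q ≤ C * volume P) →
      ∀ f : X → ℝ≥0∞, Measurable f →
        ∫⁻ x, sp S (fun Q => (volume Q)⁻¹ * ∫⁻ y in Q, f y ∂(wm w)) x ^ 2 ∂(wm σ) ≤
          B * ∫⁻ x, f x ^ 2 ∂(wm w) := by
  obtain ⟨T₁, hT₁, H₁⟩ := test_one (X := X) h₁ hc₁ hi₁ hK hC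
  obtain ⟨T₂, hT₂, H₂⟩ := test_one (X := X) h₂ hc₂ hi₂ hK hC
  refine ⟨16384 * (T₁ + T₂ + 1), by finiteness, ?_⟩
  intro w σ hw hw0 hσ hσ0 S hlam hm h0 ht hut hst hb1 hb2 hcar f hf
  set S' := S.filter (fun Q => wm w Q ≠ 0 ∧ wm σ Q ≠ 0) with hS'
  have hsub : S' ⊆ S := Finset.filter_subset _ _
  have hcar' : ∀ P ∈ S', ∑ Q ∈ S'.filter (· ⊆ P), volume Q ≤ C * volume P := fun P hP =>
    (Finset.sum_le_sum_of_subset (Finset.filter_subset_filter _ hsub)).trans (hcar P (hsub hP))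
  have hlam' : Lam (S' : Set (Set X)) := hlam.mono (Finset.coe_subset.2 hsub)
  have t1 := H₁ w σ hw hw0 S' hlam' (fun P hP => hm P (hsub hP)) (fun P hP => h0 P (hsub hP))
    (fun P hP => ht P (hsub hP)) (fun P hP => (Finset.mem_filter.1 hP).2.1)
    (fun P hP => hut P (hsub hP)) (fun P hP => (Finset.mem_filter.1 hP).2.2)
    (fun P hP => hst P (hsub hP)) (fun P hP => hb1 P (hsub hP)) hcar'
  have t2 := H₂ σ w hσ hσ0 S' hlam' (fun P hP => hm P (hsub hP)) (fun P hP => h0 P (hsub hP))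
    (fun P hP => ht P (hsub hP)) (fun P hP => (Finset.mem_filter.1 hP).2.2)
    (fun P hP => hst P (hsub hP)) (fun P hP => (Finset.mem_filter.1 hP).2.1)
    (fun P hP => hut P (hsub hP)) (fun P hP => by rw [mul_comm]; exact hb2 P (hsub hP)) hcar'
  refine le_trans (le_of_eq (lintegral_congr_ae ?_)) (testing_thm (wm w) (wm σ) hlam'
    (fun P hP => hm P (hsub hP)) (fun P hP => hut P (hsub hP)) (fun P hP => hst P (hsub hP))
    (c := fun Q => (volume Q)⁻¹) (fun P hP => ENNReal.inv_ne_top.2 (h0 P (hsub hP)))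
    (T := T₁ + T₂ + 1) (by simp) (by finiteness)
    (fun R hR => (t1 R hR).trans (by gcongr; exact le_self_add.trans le_self_add))
    (fun R hR => (t2 R hR).trans (by gcongr; exact le_add_self.trans le_self_add)) hf)
  have hae : ∀ᵐ x ∂(wm σ), ∀ Q ∈ S.filter (fun Q => wm σ Q = 0), x ∉ Q :=
    (ae_ball_iff (Finset.countable_toSet _)).2 fun Q hQ =>
      measure_eq_zero_iff_ae_notMem.1 (Finset.mem_filter.1 hQ).2
  filter_upwards [hae] with x hx
  congr 1
  refine (Finset.sum_subset (Finset.filter_subset_filter _ hsub) fun Q hQ hQ' => ?_).symm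
  have hQ1 := Finset.mem_filter.1 hQ
  have : wm w Q = 0 := by
    by_contra hc
    refine hQ' (Finset.mem_filter.2 ⟨Finset.mem_filter.2 ⟨hQ1.1, hc, fun h => ?_⟩, hQ1.2⟩)
    exact hx Q (Finset.mem_filter.2 ⟨hQ1.1, h⟩) hQ1.2
  rw [setLIntegral_measure_zero _ _ this, mul_zero]

end Pool.Agent.H572Z.Sp
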