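import Mathlib
import Pool.Agent.H572Z.Sp.Dom
import Pool.Agent.H572Z.Sp.Orl

set_option autoImplicit false

/-!
# The separated bump theorem for Calderon-Zygmund operators at `p = 2`
-/

namespace Pool.Agent.H572Z.Sp

open MeasureTheory Set Filter Topology
open scoped ENNReal Classical

variable {d : ℕ} {op : (E d → ℂ) → E d → ℂ} {D : ℕ} {B C₁ C₂ : ℝ≥0∞}

/-- A finite laminar family of cubes with a Carleson packing constant. -/
def Good (C : ℝ≥0∞) (S : Finset (Set (E d))) : Prop :=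
  Lam (S : Set (Set (E d))) ∧ (∀ P ∈ S, ∃ (a : Fin d → ℝ) (l : ℝ), 0 < l ∧ P = cube a l) ∧
    ∀ P ∈ S, ∑ Q ∈ S.filter (· ⊆ P), volume Q ≤ C * volume P

lemma Good.meas {C : ℝ≥0∞} {S : Finset (Set (E d))} (h : Good C S) : ∀ P ∈ S, MeasurableSet P := by
  intro P hP
  obtain ⟨a, l, -, rfl⟩ := h.2.1 P hP
  exact cube_meas _ _

/-- Sparse domination by finitely many monotone families of laminar cubes. -/
theorem CZ.dom (hd : 1 ≤ d) (H : CZ op D B C₁ C₂) (hD : 2 ≤ D) (hB : B ≠ ⊤) (hC₁ : C₁ ≠ ⊤)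
    (hC₂ : C₂ ≠ ⊤) : ∃ Cl C : ℝ≥0∞, Cl ≠ ⊤ ∧ C ≠ ⊤ ∧ ∀ g : E d → ℂ, Measurable g →
      MemLp g 2 volume → ∀ R : ℝ, 0 < R → Function.support g ⊆ Metric.ball 0 R →
      ∃ S : Finset (Idx d) → (Fin d → ZMod (2 * D + 1)) → Finset (Set (E d)),
        (∀ s c, Good C (S s c)) ∧ (∀ c, Monotone fun s => S s c) ∧
        ∀ᵐ x, x ∈ Metric.ball (0 : E d) R → ∃ s, ‖op g x‖ₑ ≤
          Cl * ∑ c, sp (S s c) (fun Q => (volume Q)⁻¹ * ∫⁻ y in Q, ‖g y‖ₑ) x := by
  obtain ⟨Cl, hCl, hsp⟩ := H.sparse hd hD hB hC₁ hC₂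
  refine ⟨Cl, 2 * (2 * D + 1) ^ d, hCl, by finiteness, fun g hgm hg R hR hsupp => ?_⟩
  have hL : 0 < 2 * R := by positivity
  obtain ⟨I, F, hFm, hFd, hFs, hFv, hpt⟩ := hsp (2 * R) hL g hgm hg (0, 0)
  have hball : Metric.ball (0 : E d) R ⊆ box (2 * R) 0 (0, 0) := fun x hx =>
    exists_top hR (mem_ball_zero_iff.1 hx)
  have e : (box (2 * R) D (0, 0)).indicator g = g :=
    indicator_eq_self.2 (hsupp.trans (hball.trans (box0_sub_star hL D _)))
  rw [e] at hpt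
  refine ⟨fun s c => (s.filter (fun i => i ∈ I ∧ color D i = c)).image (box (2 * R) D),
    fun s c => ⟨?_, ?_, ?_⟩, fun c s s' h =>
      Finset.image_subset_image (Finset.filter_subset_filter _ h), ?_⟩
  · refine (lam_color hL D c).mono fun P hP => ?_
    obtain ⟨i, hi, rfl⟩ := Finset.mem_image.1 hP
    exact ⟨i, (Finset.mem_filter.1 hi).2.2, rfl⟩
  · intro P hP
    obtain ⟨i, -, rfl⟩ := Finset.mem_image.1 hP
    exact ⟨_, _, by positivity, rfl⟩
  · intro P _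
    rw [Finset.filter_image, Finset.sum_image fun i _ j _ h => box_inj hd hL D h]
    set t := (s.filter (fun i => i ∈ I ∧ color D i = c)).filter (fun i => box (2 * R) D i ⊆ P)
    calc ∑ i ∈ t, volume (box (2 * R) D i) ≤ ∑ i ∈ t, 2 * (2 * D + 1) ^ d * volume (F i) := by
          refine Finset.sum_le_sum fun i _ => ?_
          rw [box_vol, ← box0_vol, mul_comm 2 (_ ^ d), mul_assoc]
          gcongr
          exact hFv i
      _ ≤ _ := by
          rw [← Finset.mul_sum, ← measure_biUnion_finset (hFd.subset fun i hi =>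
            (Finset.mem_filter.1 (Finset.mem_filter.1 hi).1).2.1) fun i _ => hFm i]
          gcongr
          exact iUnion₂_subset fun i hi => (hFs i).trans ((box0_sub_star hL D i).trans
            (Finset.mem_filter.1 hi).2)
  · filter_upwards [hpt] with x hx hxb
    obtain ⟨s, hs1, hs2⟩ := hx (hball hxb)
    refine ⟨s, hs2.trans ?_⟩
    gcongr
    rw [← Finset.sum_fiberwise s (color D)]
    refine Finset.sum_le_sum fun c _ => ?_
    rw [sp, Finset.filter_image, Finset.sum_image fun i _ j _ h => box_inj hd hL D h]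
    refine Finset.sum_le_sum_of_subset fun i hi => ?_
    have hi' := Finset.mem_filter.1 hi
    exact Finset.mem_filter.2 ⟨Finset.mem_filter.2 ⟨hi'.1, (hs1 i hi'.1).1, hi'.2⟩,
      box0_sub_star hL D i (hs1 i hi'.1).2⟩

lemma sum_sq_le_card {ι : Type*} [Fintype ι] (y : ι → ℝ≥0∞) :
    (∑ i, y i) ^ 2 ≤ (Fintype.card ι) ^ 2 * ∑ i, y i ^ 2 := by
  rcases isEmpty_or_nonempty ι with h | h
  · simp
  obtain ⟨j, -, hj⟩ := Finset.exists_max_image Finset.univ y Finset.univ_nonempty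
  calc (∑ i, y i) ^ 2 ≤ (Fintype.card ι * y j) ^ 2 := by
        gcongr
        simpa using Finset.sum_le_card_nsmul Finset.univ y (y j) hj
    _ ≤ _ := by
        rw [mul_pow]
        gcongr
        exact Finset.single_le_sum (f := fun i => y i ^ 2) (fun _ _ => zero_le) (Finset.mem_univ j)

/-- Quadratic bounds for sparse operators pass to the Calderon-Zygmund operator. -/
theorem CZ.transfer (hd : 1 ≤ d) (H : CZ op D B C₁ C₂) (hD : 2 ≤ D) (hB : B ≠ ⊤) (hC₁ : C₁ ≠ ⊤)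
    (hC₂ : C₂ ≠ ⊤) : ∃ A C : ℝ≥0∞, A ≠ ⊤ ∧ C ≠ ⊤ ∧ ∀ g : E d → ℂ, Measurable g →
      MemLp g 2 volume → Bornology.IsBounded (Function.support g) →
      ∀ (ν : Measure (E d)), ν ≪ volume → ∀ N : ℝ≥0∞,
      (∀ S, Good C S → ∫⁻ x, sp S (fun Q => (volume Q)⁻¹ * ∫⁻ y in Q, ‖g y‖ₑ) x ^ 2 ∂ν ≤ N) →
      ∫⁻ x, ‖op g x‖ₑ ^ 2 ∂ν ≤ A * N := by
  obtain ⟨Cl, C, hCl, hC, hdom⟩ := H.dom hd hD hB hC₁ hC₂
  set n : ℝ≥0∞ := ((Fintype.card (Fin d → ZMod (2 * D + 1)) : ℕ) : ℝ≥0∞) with hn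
  refine ⟨Cl ^ 2 * n ^ 2 * n, C, by finiteness, hC, fun g hgm hg hb ν hν N hN => ?_⟩
  obtain ⟨R, hR, hsupp⟩ := hb.subset_ball_lt 0 0
  have key : ∀ k : ℕ, ∫⁻ x in Metric.ball 0 (R + k), ‖op g x‖ₑ ^ 2 ∂ν ≤ Cl ^ 2 * n ^ 2 * n * N := by
    intro k
    obtain ⟨S, hS1, hS2, hS3⟩ := hdom g hgm hg (R + k) (by positivity)
      (hsupp.trans (Metric.ball_subset_ball (by simp)))
    set a : Set (E d) → ℝ≥0∞ := fun Q => (volume Q)⁻¹ * ∫⁻ y in Q, ‖g y‖ₑ
    set ψ : Finset (Idx d) → E d → ℝ≥0∞ := fun s x => Cl ^ 2 * n ^ 2 * ∑ c, sp (S s c) a x ^ 2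
      with hψ
    have hm : ∀ s c, Measurable (fun x => sp (S s c) a x ^ 2) := fun s c =>
      (sp_meas (hS1 s c).meas _).pow_const 2
    have hψm : ∀ s, Measurable (ψ s) := fun s =>
      (Finset.measurable_sum _ fun c _ => hm s c).const_mul _
    have hdir : Directed (· ≤ ·) ψ := Monotone.directed_le fun s s' h x => by
      simp only [hψ]
      gcongr with c
      exact sp_mono (hS2 c h) _ _
    calc ∫⁻ x in Metric.ball 0 (R + k), ‖op g x‖ₑ ^ 2 ∂ν
        ≤ ∫⁻ x in Metric.ball 0 (R + k), ⨆ s, ψ s x ∂ν := by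
          refine setLIntegral_mono_ae' measurableSet_ball (hν.ae_le ?_)
          filter_upwards [hS3] with x hx hxb
          obtain ⟨s, hs⟩ := hx hxb
          refine le_iSup_of_le s ?_
          calc ‖op g x‖ₑ ^ 2 ≤ (Cl * ∑ c, sp (S s c) a x) ^ 2 := by gcongr
            _ ≤ _ := by
                rw [mul_pow, hψ]
                simp only [mul_assoc]
                gcongr
                exact sum_sq_le_card _
      _ ≤ ∫⁻ x, ⨆ s, ψ s x ∂ν := setLIntegral_le_lintegral _ _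
      _ = ⨆ s, ∫⁻ x, ψ s x ∂ν := lintegral_iSup_directed_of_measurable hψm hdir
      _ ≤ _ := by
          refine iSup_le fun s => ?_
          rw [hψ, lintegral_const_mul _ (Finset.measurable_sum _ fun c _ => hm s c),
            lintegral_finsetSum _ fun c _ => hm s c, mul_assoc _ n]
          gcongr
          have := Finset.sum_le_card_nsmul Finset.univ _ N fun c _ => hN _ (hS1 s c)
          rwa [nsmul_eq_mul, Finset.card_univ] at this
  have hU : (⋃ k : ℕ, Metric.ball (0 : E d) (R + k)) = univ := by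
    refine eq_univ_of_forall fun x => ?_
    obtain ⟨k, hk⟩ := exists_nat_gt ‖x‖
    exact mem_iUnion.2 ⟨k, mem_ball_zero_iff.2 (by linarith)⟩
  rw [← setLIntegral_univ, ← hU, setLIntegral_iUnion_of_directed _
    (Monotone.directed_le fun a b h => Metric.ball_subset_ball (by gcongr))]
  exact iSup_le key

/-! ### The extension to `L¹` -/

lemma CZ.ae_small (hd : 1 ≤ d) (H : CZ op D B C₁ C₂) (hB : B ≠ ⊤) (hC₁ : C₁ ≠ ⊤)
    (u : ℕ → E d → ℂ) (hum : ∀ k, Measurable (u k)) (hu : ∀ k, MemLp (u k) 2 volume)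
    (h : ∀ k, ∫⁻ x, ‖u k x‖ₑ ≤ (2⁻¹) ^ k * (2⁻¹) ^ k) :
    ∀ᵐ x, ∀ᶠ k in atTop, ‖op (u k) x‖ ≤ (2⁻¹) ^ k := by
  obtain ⟨Cw, hCw, hW⟩ := H.weak hd hB hC₁
  have h1 : ∀ k, volume {x | (2⁻¹ : ℝ≥0∞) ^ k < ‖op (u k) x‖ₑ} ≤ Cw * (2⁻¹) ^ k := by
    intro k
    refine (ENNReal.mul_le_mul_iff_right (a := (2⁻¹ : ℝ≥0∞) ^ k) (pow_ne_zero _ (by norm_num))
      (ENNReal.pow_ne_top (by norm_num))).1 ?_
    calc _ ≤ Cw * ((2⁻¹) ^ k * (2⁻¹) ^ k) := (hW (u k) (hum k) (hu k) _).trans (by gcongr; exact h k)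
      _ = _ := by ring
  have h2 : ∑' k, volume {x | (2⁻¹ : ℝ≥0∞) ^ k < ‖op (u k) x‖ₑ} ≠ ⊤ := by
    refine ne_top_of_le_ne_top ?_ (ENNReal.tsum_le_tsum h1)
    rw [ENNReal.tsum_mul_left, ENNReal.tsum_geometric_two]
    finiteness
  filter_upwards [ae_eventually_notMem h2] with x hx
  refine hx.mono fun k hk => ?_
  simp only [not_lt] at hk
  have e : (2⁻¹ : ℝ≥0∞) ^ k = ENNReal.ofReal ((2⁻¹) ^ k) := by
    rw [ENNReal.ofReal_pow (by norm_num), ENNReal.ofReal_inv_of_pos (by norm_num)]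
    simp
  rwa [e, ← ofReal_norm, ENNReal.ofReal_le_ofReal_iff (by positivity)] at hk

lemma small_pos (k : ℕ) : (0 : ℝ≥0∞) < 2⁻¹ * ((2⁻¹) ^ k * (2⁻¹) ^ k) :=
  ENNReal.mul_pos (by norm_num) (mul_ne_zero (pow_ne_zero _ (by norm_num))
    (pow_ne_zero _ (by norm_num)))

lemma half_add_half (z : ℝ≥0∞) : 2⁻¹ * z + 2⁻¹ * z = z := by
  rw [← add_mul, ENNReal.inv_two_add_inv_two, one_mul]

lemma lint_sub_le {f g h : E d → ℂ} (hf : AEMeasurable f volume) (hh : AEMeasurable h volume) :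
    ∫⁻ x, ‖(f - g) x‖ₑ ≤ (∫⁻ x, ‖f x - h x‖ₑ) + ∫⁻ x, ‖g x - h x‖ₑ := by
  rw [← lintegral_add_left' (f := fun x => ‖f x - h x‖ₑ) (hf.sub hh).enorm]
  refine lintegral_mono fun x => ?_
  calc ‖(f - g) x‖ₑ = ‖(f x - h x) - (g x - h x)‖ₑ := by congr 1; simp
    _ ≤ _ := enorm_sub_le

/-- Existence of the image of an `L¹` limit. -/
lemma exists_image (hd : 1 ≤ d) {T : (E d → ℂ) → E d → ℂ} (hT : IsCZO T) {g : E d → ℂ}
    (hg : Measurable g) (gs : ℕ → E d → ℂ) (hm : ∀ n, Measurable (gs n))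
    (hL : ∀ n, MemLp (gs n) 2 volume)
    (hlim : Tendsto (fun n => ∫⁻ x, ‖gs n x - g x‖ₑ) atTop (𝓝 0)) : ∃ h, IsImage T g h := by
  obtain ⟨B, C₁, C₂, hB, hC₁, -, H⟩ := hT.cz hd
  obtain ⟨φ, hφ, hφ2⟩ := extraction_forall_of_eventually
    (P := fun k n => ∫⁻ x, ‖gs n x - g x‖ₑ ≤ 2⁻¹ * ((2⁻¹) ^ k * (2⁻¹) ^ k))
    fun k => hlim.eventually (ge_mem_nhds (small_pos k))
  have h1 := H.ae_small hd hB hC₁ (fun k => gs (φ (k + 1)) - gs (φ k))
    (fun k => (hm _).sub (hm _)) (fun k => (hL _).sub (hL _)) fun k => by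
      refine (lint_sub_le (hm _).aemeasurable hg.aemeasurable).trans ?_
      rw [← half_add_half ((2⁻¹) ^ k * (2⁻¹) ^ k)]
      refine add_le_add ((hφ2 (k + 1)).trans ?_) (hφ2 k)
      have : (2⁻¹ : ℝ≥0∞) ^ (k + 1) ≤ (2⁻¹) ^ k := pow_le_pow_right_of_le_one' (by norm_num) (by omega)
      gcongr
  refine ⟨fun x => limUnder atTop (fun k => opT T (gs (φ k)) x), fun k => gs (φ k),
    fun k => hL _, hlim.comp hφ.tendsto_atTop, ?_⟩
  · have h2 : ∀ k, ∀ᵐ x, opT T (gs (φ (k + 1))) x =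
        opT T (gs (φ k)) x + opT T (gs (φ (k + 1)) - gs (φ k)) x := fun k => by
      have := H.add _ _ (hL (φ k)) ((hL (φ (k + 1))).sub (hL (φ k)))
      rwa [add_sub_cancel] at this
    filter_upwards [h1, ae_all_iff.2 h2, ae_all_iff.2 fun k => opT_ae hT (hL (φ k))]
      with x hx1 hx2 hx3
    simp_rw [← hx3]
    refine CauchySeq.tendsto_limUnder (cauchySeq_of_summable_dist ?_)
    refine Summable.of_norm_bounded_eventually_nat (summable_geometric_of_lt_one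
      (r := 2⁻¹) (by norm_num) (by norm_num)) (hx1.mono fun k hk => ?_)
    rwa [Real.norm_of_nonneg dist_nonneg, dist_comm, dist_eq_norm, hx2 k, add_sub_cancel_left]

/-- Any image is the limit of the images of a subsequence of any approximating sequence. -/
lemma IsImage.tendsto (hd : 1 ≤ d) {T : (E d → ℂ) → E d → ℂ} (hT : IsCZO T) {g h : E d → ℂ}
    (hi : IsImage T g h) (hg : Measurable g) (gs : ℕ → E d → ℂ) (hm : ∀ n, Measurable (gs n))
    (hL : ∀ n, MemLp (gs n) 2 volume)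
    (hlim : Tendsto (fun n => ∫⁻ x, ‖gs n x - g x‖ₑ) atTop (𝓝 0)) :
    ∃ φ : ℕ → ℕ, ∀ᵐ x, Tendsto (fun k => opT T (gs (φ k)) x) atTop (𝓝 (h x)) := by
  obtain ⟨B, C₁, C₂, hB, hC₁, -, H⟩ := hT.cz hd
  obtain ⟨vs, hvL, hvs, hae⟩ := hi
  set us : ℕ → E d → ℂ := fun n => (hvL n).1.mk _ with hus0
  have huv : ∀ n, vs n =ᵐ[volume] us n := fun n => (hvL n).1.ae_eq_mk
  have huL : ∀ n, MemLp (us n) 2 volume := fun n => MemLp.ae_eq (huv n) (hvL n)
  have hus : Tendsto (fun n => ∫⁻ x, ‖us n x - g x‖ₑ) atTop (𝓝 0) :=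
    hvs.congr fun n => lintegral_congr_ae ((huv n).mono fun x hx => by simp only [hx])
  obtain ⟨φ, hφ, hφ2⟩ := extraction_forall_of_eventually
    (P := fun k n => ∫⁻ x, ‖us n x - g x‖ₑ ≤ 2⁻¹ * ((2⁻¹) ^ k * (2⁻¹) ^ k) ∧
      ∫⁻ x, ‖gs n x - g x‖ₑ ≤ 2⁻¹ * ((2⁻¹) ^ k * (2⁻¹) ^ k))
    fun k => (hus.eventually (ge_mem_nhds (small_pos k))).and
      (hlim.eventually (ge_mem_nhds (small_pos k)))
  have hum : ∀ n, Measurable (us n) := fun n => (hvL n).1.stronglyMeasurable_mk.measurable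
  have h1 := H.ae_small hd hB hC₁ (fun k => gs (φ k) - us (φ k))
    (fun k => (hm _).sub (hum _)) (fun k => (hL _).sub (huL _)) fun k => by
      refine (lint_sub_le (hm _).aemeasurable hg.aemeasurable).trans ?_
      rw [← half_add_half ((2⁻¹) ^ k * (2⁻¹) ^ k)]
      exact add_le_add (hφ2 k).2 (hφ2 k).1
  have h2 : ∀ k, ∀ᵐ x, opT T (gs (φ k)) x =
      T (vs (φ k)) x + opT T (gs (φ k) - us (φ k)) x := fun k => by
    have a1 := H.add _ _ (huL (φ k)) ((hL (φ k)).sub (huL (φ k)))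
    have a2 := H.add _ _ (hvL (φ k)) ((huL (φ k)).sub (hvL (φ k)))
    have a3 := H.ae_zero ((huL (φ k)).sub (hvL (φ k))) (by
      rw [← lintegral_zero (μ := (volume : Measure (E d)))]
      exact lintegral_congr_ae ((huv (φ k)).mono fun x hx => by simp [hx]))
    rw [add_sub_cancel] at a1 a2
    filter_upwards [a1, a2, a3, opT_ae hT (hvL (φ k))] with x b1 b2 b3 b4
    rw [b1, Pi.add_apply, b2, Pi.add_apply, b3, add_zero, b4]
  refine ⟨φ, ?_⟩
  filter_upwards [h1, ae_all_iff.2 h2, hae] with x hx1 hx2 hx3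
  simp_rw [hx2]
  rw [← add_zero (h x)]
  refine (hx3.comp hφ.tendsto_atTop).add (squeeze_zero_norm' hx1 ?_)
  exact tendsto_pow_atTop_nhds_zero_of_lt_one (by norm_num) (by norm_num)

lemma IsWeight.fin {w : E d → ℝ} (hw : IsWeight w) {Q : Set (E d)} (hQ : Bornology.IsBounded Q) :
    ∫⁻ x in Q, ENNReal.ofReal (w x) ≠ ⊤ := by
  have h1 := (hw.2.2.integrableOn_isCompact hQ.isCompact_closure).mono_set subset_closure
  exact ne_top_of_le_ne_top h1.2.ne (lintegral_mono fun x => Real.ofReal_le_enorm _)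

lemma cube_bounded (a : Fin d → ℝ) {l : ℝ} (hl : 0 < l) : Bornology.IsBounded (cube a l) := by
  have hx : (WithLp.toLp 2 a : E d) ∈ cube a l := fun k => ⟨le_rfl, lt_add_of_pos_right _ hl⟩
  refine (Metric.isBounded_closedBall (x := WithLp.toLp 2 a) (r := d * l)).subset fun y hy => ?_
  rw [mem_closedBall_iff_norm]
  exact cube_diam hl.le hy hx

lemma enorm_mul_w {w : E d → ℝ} (hw : ∀ x, 0 ≤ w x) (z : ℂ) (x : E d) :
    ‖z * (w x : ℂ)‖ₑ = ENNReal.ofReal (w x) * ‖z‖ₑ := by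
  rw [enorm_mul, mul_comm, ← ofReal_norm (w x : ℂ), Complex.norm_real, Real.norm_of_nonneg (hw x)]

/-- Truncations of `f w` to the sets where `w` is bounded. -/
lemma trunc {w : E d → ℝ} (hw : IsWeight w) {f : E d → ℂ} (hf : Measurable f) {M : ℝ}
    (hM : ∀ x, ‖f x‖ ≤ M) (hc : HasCompactSupport f) :
    ∃ fs : ℕ → E d → ℂ, (∀ n, Measurable (fs n)) ∧ (∀ n x, ‖fs n x‖ₑ ≤ ‖f x‖ₑ) ∧
      (∀ n, MemLp (fun x => fs n x * w x) 2 volume) ∧
      (∀ n, Bornology.IsBounded (Function.support fun x => fs n x * w x)) ∧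
      Tendsto (fun n => ∫⁻ x, ‖fs n x * w x - f x * w x‖ₑ) atTop (𝓝 0) := by
  have hs : ∀ n : ℕ, MeasurableSet {x | w x ≤ n} := fun n => measurableSet_le hw.1 measurable_const
  have hwm : Measurable fun x => (w x : ℂ) := Complex.measurable_ofReal.comp hw.1
  have hb : Bornology.IsBounded (tsupport f) := hc.isBounded
  refine ⟨fun n => {x | w x ≤ n}.indicator f, fun n => hf.indicator (hs n), fun n x => ?_,
    fun n => ?_, fun n => ?_, ?_⟩
  · beta_reduce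
    by_cases h : x ∈ {x | w x ≤ n}
    · rw [indicator_of_mem h]
    · rw [indicator_of_notMem h]; simp
  · refine (memLp_indicator_const 2 (isClosed_tsupport f).measurableSet (M * n)
      (Or.inr hc.isCompact.measure_lt_top.ne)).mono'
      ((hf.indicator (hs n)).mul hwm).aestronglyMeasurable (Eventually.of_forall fun x => ?_)
    have hM0 : 0 ≤ M := (norm_nonneg _).trans (hM x)
    beta_reduce
    by_cases h1 : x ∈ tsupport f
    · rw [indicator_of_mem h1]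
      by_cases h : x ∈ {x | w x ≤ n}
      · rw [indicator_of_mem h, norm_mul, Complex.norm_real, Real.norm_of_nonneg (hw.2.1 x)]
        exact mul_le_mul (hM x) h (hw.2.1 x) hM0
      · rw [indicator_of_notMem h, zero_mul, norm_zero]; positivity
    · rw [indicator_of_notMem h1]
      by_cases h : x ∈ {x | w x ≤ n}
      · rw [indicator_of_mem h, image_eq_zero_of_notMem_tsupport h1]; simp
      · rw [indicator_of_notMem h]; simp
  · refine hb.subset fun x hx => subset_tsupport f fun h => hx ?_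
    by_cases h' : x ∈ {x | w x ≤ n}
    · simp only [indicator_of_mem h', h, zero_mul]
    · simp only [indicator_of_notMem h', zero_mul]
  · rw [← lintegral_zero (μ := (volume : Measure (E d)))]
    refine tendsto_lintegral_of_dominated_convergence (fun x => ‖f x * w x‖ₑ)
      (fun n => (((hf.indicator (hs n)).mul hwm).sub (hf.mul hwm)).enorm)
      (fun n => Eventually.of_forall fun x => ?_) ?_ (Eventually.of_forall fun x => ?_)
    · by_cases h : x ∈ {x | w x ≤ n}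
      · simp only [indicator_of_mem h, sub_self, enorm_zero, zero_le]
      · simp only [indicator_of_notMem h, zero_mul, zero_sub, enorm_neg, le_refl]
    · have : ∫⁻ x, ‖f x * w x‖ₑ ≤ ∫⁻ x, (tsupport f).indicator
          (fun x => ENNReal.ofReal M * ENNReal.ofReal (w x)) x := by
        refine lintegral_mono fun x => ?_
        by_cases h1 : x ∈ tsupport f
        · rw [indicator_of_mem h1, enorm_mul_w hw.2.1, mul_comm, ← ofReal_norm]
          gcongr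
          exact hM x
        · rw [image_eq_zero_of_notMem_tsupport h1]; simp
      refine ne_top_of_le_ne_top ?_ this
      rw [lintegral_indicator (isClosed_tsupport f).measurableSet,
        lintegral_const_mul' _ _ ENNReal.ofReal_ne_top]
      exact ENNReal.mul_ne_top ENNReal.ofReal_ne_top (hw.fin hb)
    · refine tendsto_const_nhds.congr' ?_
      filter_upwards [tendsto_natCast_atTop_atTop.eventually_ge_atTop (w x)] with n hn
      simp only [indicator_of_mem (show x ∈ {x | w x ≤ n} from hn), sub_self, enorm_zero]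

theorem main (hd : 1 ≤ d) {Φ₁ Φ₂ : ℝ → ℝ} (h₁ : IsYoung Φ₁) (h₂ : IsYoung Φ₂)
    (hi₁ : ∃ c : ℝ, 0 < c ∧ ∫⁻ x in Ioi c, (ENNReal.ofReal (Φ₁ x))⁻¹ < ⊤)
    (hi₂ : ∃ c : ℝ, 0 < c ∧ ∫⁻ x in Ioi c, (ENNReal.ofReal (Φ₂ x))⁻¹ < ⊤)
    {w σ : E d → ℝ} (hw : IsWeight w) (hσ : IsWeight σ)
    (hb₁ : ⨆ (a : Fin d → ℝ) (l : ℝ) (_ : 0 < l), lux Φ₁ w (cube a l) * avg σ (cube a l) < ⊤)
    (hb₂ : ⨆ (a : Fin d → ℝ) (l : ℝ) (_ : 0 < l), avg w (cube a l) * lux Φ₂ σ (cube a l) < ⊤)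
    {T : (E d → ℂ) → E d → ℂ} (hT : IsCZO T) :
    ∃ C : NNReal, ∀ f : E d → ℂ, Measurable f → (∃ M : ℝ, ∀ x, ‖f x‖ ≤ M) → HasCompactSupport f →
      (∃ h, IsImage T (fun x => f x * w x) h) ∧ ∀ h, IsImage T (fun x => f x * w x) h →
        ∫⁻ x, ‖h x‖ₑ ^ 2 * ENNReal.ofReal (σ x) ≤ C * ∫⁻ x, ‖f x‖ₑ ^ 2 * ENNReal.ofReal (w x) := by
  obtain ⟨c₁, hc₁, hi₁⟩ := hi₁
  obtain ⟨c₂, hc₂, hi₂⟩ := hi₂
  obtain ⟨B, C₁, C₂, hB, hC₁, hC₂, H⟩ := hT.cz hd
  obtain ⟨A, C, hA, hC, htr⟩ := H.transfer hd (by omega) hB hC₁ hC₂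
  obtain ⟨B', hB', hsb⟩ := sparse_bound (X := E d) h₁ h₂ hc₁ hc₂ hi₁ hi₂
    (ENNReal.add_ne_top.2 ⟨hb₁.ne, hb₂.ne⟩) hC
  have hwm : Measurable fun x => (w x : ℂ) := Complex.measurable_ofReal.comp hw.1
  have hint : ∀ (u : E d → ℝ), Measurable u → ∀ φ : E d → ℝ≥0∞, Measurable φ →
      ∫⁻ x, φ x ∂(wm u) = ∫⁻ x, φ x * ENNReal.ofReal (u x) := fun u hu φ hφ => by
    rw [wm, lintegral_withDensity_eq_lintegral_mul _ hu.ennreal_ofReal hφ]
    exact lintegral_congr fun x => mul_comm _ _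
  have key : ∀ f : E d → ℂ, Measurable f → MemLp (fun x => f x * w x) 2 volume →
      Bornology.IsBounded (Function.support fun x => f x * w x) →
      ∫⁻ x, ‖opT T (fun x => f x * w x) x‖ₑ ^ 2 * ENNReal.ofReal (σ x) ≤
        A * B' * ∫⁻ x, ‖f x‖ₑ ^ 2 * ENNReal.ofReal (w x) := by
    intro f hf hL hb
    rw [← hint σ hσ.1 _ ((H.meas _).enorm.pow_const 2), ← hint w hw.1 _ (hf.enorm.pow_const 2),
      mul_assoc]
    refine htr _ (hf.mul hwm) hL hb (wm σ) (withDensity_absolutelyContinuous _ _) _ fun S hS => ?_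
    have hfin : ∀ u : E d → ℝ, IsWeight u → ∀ P ∈ S, wm u P ≠ ⊤ := fun u hu P hP => by
      rw [wm_apply u (hS.meas P hP)]
      obtain ⟨a, l, hl, rfl⟩ := hS.2.1 P hP
      exact hu.fin (cube_bounded a hl)
    refine le_trans (le_of_eq (lintegral_congr fun x => ?_)) (hsb w σ hw.1 hw.2.1 hσ.1 hσ.2.1 S hS.1
      hS.meas (fun P hP => ?_) (fun P hP => ?_) (hfin w hw) (hfin σ hσ) (fun P hP => ?_)
      (fun P hP => ?_) hS.2.2 _ hf.enorm)
    · congr 1
      refine Finset.sum_congr rfl fun Q hQ => ?_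
      beta_reduce
      rw [wm, setLIntegral_withDensity_eq_setLIntegral_mul _ hw.1.ennreal_ofReal hf.enorm
        (hS.meas Q (Finset.mem_filter.1 hQ).1)]
      congr 1
      exact lintegral_congr fun y => enorm_mul_w hw.2.1 _ _
    · obtain ⟨a, l, hl, rfl⟩ := hS.2.1 P hP
      rw [cube_vol]
      exact pow_ne_zero _ (ENNReal.ofReal_pos.2 hl).ne'
    · obtain ⟨a, l, hl, rfl⟩ := hS.2.1 P hP
      rw [cube_vol]
      exact ENNReal.pow_ne_top ENNReal.ofReal_ne_top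
    · obtain ⟨a, l, hl, rfl⟩ := hS.2.1 P hP
      exact le_add_right (le_iSup_of_le a (le_iSup_of_le l (le_iSup_of_le hl le_rfl)))
    · obtain ⟨a, l, hl, rfl⟩ := hS.2.1 P hP
      exact le_add_left (le_iSup_of_le a (le_iSup_of_le l (le_iSup_of_le hl le_rfl)))
  refine ⟨(A * B').toNNReal, fun f hf ⟨M, hM⟩ hc => ?_⟩
  rw [ENNReal.coe_toNNReal (ENNReal.mul_ne_top hA hB')]
  obtain ⟨fs, hfm, hfle, hfL, hfb, hlim⟩ := trunc hw hf hM hc
  refine ⟨exists_image hd hT (hf.mul hwm) _ (fun n => (hfm n).mul hwm) hfL hlim, fun h hi => ?_⟩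
  obtain ⟨φ, hφ⟩ := hi.tendsto hd hT (hf.mul hwm) _ (fun n => (hfm n).mul hwm) hfL hlim
  calc ∫⁻ x, ‖h x‖ₑ ^ 2 * ENNReal.ofReal (σ x)
      = ∫⁻ x, liminf (fun k => ‖opT T (fun x => fs (φ k) x * w x) x‖ₑ ^ 2 * ENNReal.ofReal (σ x))
          atTop := by
        refine lintegral_congr_ae (hφ.mono fun x hx => ?_)
        exact (ENNReal.Tendsto.mul_const (ENNReal.Tendsto.pow hx.enorm)
          (Or.inr ENNReal.ofReal_ne_top)).liminf_eq.symm
    _ ≤ liminf (fun k => ∫⁻ x, ‖opT T (fun x => fs (φ k) x * w x) x‖ₑ ^ 2 * ENNReal.ofReal (σ x))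
          atTop := lintegral_liminf_le fun k =>
        ((H.meas _).enorm.pow_const 2).mul hσ.1.ennreal_ofReal
    _ ≤ _ := by
        refine liminf_le_of_frequently_le' (Frequently.of_forall fun k => ?_)
        refine (key _ (hfm _) (hfL _) (hfb _)).trans ?_
        gcongr with x
        exact hfle _ _

end Pool.Agent.H572Z.Sp
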